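import Pool.Agent.MP_28f8a1_an.Mlc.Limb

/-! Definitions for the theory of wakes. -/

set_option autoImplicit false

namespace Pool.Agent.MP_28f8a1_an.Mlc

open MeasureTheory Metric Set Real Filter Topology Pool.Agent.MP_28f8a1_an.H42
open Complex (I)

variable {e n p q N : ℕ} {θ : ℕ → ℝ} {A : Set ℂ} {c w : ℂ} {r r' : ℝ} {ψ ψ' : ℂ → ℂ}

/-- An inverse Boettcher map outside the disc of radius `r`. -/
structure BotR (e : ℕ) (c : ℂ) (r : ℝ) (ψ : ℂ → ℂ) : Prop where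
  one : 1 ≤ r
  diff : DifferentiableOn ℂ ψ {w | r < ‖w‖}
  inj : InjOn ψ {w | r < ‖w‖}
  semi : ∀ w : ℂ, r < ‖w‖ → ψ (w ^ (e + 1)) = fq e c (ψ w)
  asy : Tendsto (fun w => ψ w / w) (Bornology.cobounded ℂ) (𝓝 1)

/-- The domain of the inverse Boettcher map. -/
def Dom (e : ℕ) : Set (ℂ × ℂ) := {x | ∃ r ψ, BotR e x.1 r ψ ∧ r < ‖x.2‖}

/-- The inverse Boettcher map. -/
noncomputable def Psi (e : ℕ) (x : ℂ × ℂ) : ℂ :=
  Classical.epsilon fun y => ∃ r ψ, BotR e x.1 r ψ ∧ r < ‖x.2‖ ∧ ψ x.2 = y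

/-- A large radius. -/
noncomputable def TT (c : ℂ) : ℝ := 8 * (‖c‖ + 1)

/-- `w` is the Boettcher coordinate of the critical value. -/
def Hit (e : ℕ) (c w : ℂ) : Prop := (c, w) ∈ Dom e ∧ Psi e (c, w) = c

/-- The Boettcher coordinate of the critical value. -/
noncomputable def Phi (e : ℕ) (c : ℂ) : ℂ := Classical.epsilon (Hit e c)

/-- A union of rays. -/
def Star (A : Set ℂ) (r : ℝ) : Set ℂ := {w | r < ‖w‖ ∧ w / ‖w‖ ∈ A}

/-- A continuation of the inverse Boettcher map to `D`. -/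
structure Semi (e : ℕ) (c : ℂ) (D : Set ℂ) (g : ℂ → ℂ) : Prop where
  cont : ContinuousOn g D
  ne : ∀ w ∈ D, g w ≠ 0
  semi : ∀ w ∈ D, g (w ^ (e + 1)) = fq e c (g w)
  far : ∃ R : ℝ, ∀ w ∈ D, R < ‖w‖ → g w = Psi e (c, w)

/-- The parameters for which the rays of direction in `A` exist. -/
def Good (e : ℕ) (A : Set ℂ) : Set ℂ := {c | c ∈ Mset e ∨ Phi e c / ‖Phi e c‖ ∉ A}

/-- The rays. -/
noncomputable def Gam (e : ℕ) (A : Set ℂ) (x : ℂ × ℂ) : ℂ :=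
  Classical.epsilon (Semi e x.1 (Star A 1)) x.2

/-- A finite periodic set of directions. -/
structure Dirs (e N : ℕ) (A : Set ℂ) : Prop where
  fin : A.Finite
  norm : ∀ u ∈ A, ‖u‖ = 1
  pow : ∀ u ∈ A, u ^ (e + 1) ∈ A
  per : ∀ u ∈ A, u ^ (e + 1) ^ N = u

/-- The unit vector of angle `t`. -/
noncomputable def ee (t : ℝ) : ℂ := Complex.exp (2 * π * I * t)

/-- The orbit of the angles. -/
def Ang (e q : ℕ) (θ : ℕ → ℝ) : Set ℝ :=
  {t | ∃ j < q, ∃ (k : ℕ) (m : ℤ), t = ((e + 1 : ℕ) : ℝ) ^ k * θ j + m}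

/-- The rays of the portrait come together. -/
def Tog (e q : ℕ) (θ : ℕ → ℝ) (c : ℂ) : Prop := ∀ i < q, ∀ j < q, Tendsto
  (fun s : ℝ => Gam e (ee '' Ang e q θ) (c, s * ee (θ i)) - Gam e (ee '' Ang e q θ) (c, s * ee (θ j)))
  (𝓝[>] 1) (𝓝 0)

/-- The angles of the portrait have the same itinerary. -/
def Itin (e q : ℕ) (θ : ℕ → ℝ) (t : ℝ) : Prop := ∀ k : ℕ, ∀ i < q, ∀ j < q, ((e + 1 : ℕ) : ℤ) ∣
  ⌊((e + 1 : ℕ) : ℝ) ^ (k + 1) * θ i - t⌋ - ⌊((e + 1 : ℕ) : ℝ) ^ (k + 1) * θ j - t⌋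

theorem Bot.botR (h : Bot e c ψ) : BotR e c 1 ψ := ⟨le_rfl, h.diff, h.inj, h.semi, h.asy⟩

theorem BotR.bot (h : BotR e c 1 ψ) : Bot e c ψ := ⟨h.diff, h.inj, h.semi, h.asy⟩

theorem ee_norm (t : ℝ) : ‖ee t‖ = 1 := by
  rw [ee, show (2 * π * I * t : ℂ) = ((2 * π * t : ℝ) : ℂ) * I by push_cast; ring,
    Complex.norm_exp_ofReal_mul_I]

theorem star_mem {u : ℂ} (h1 : ‖u‖ = 1) (hu : u ∈ A) {s : ℝ} (hr : 0 ≤ r) (hs : r < s) :
    (s : ℂ) * u ∈ Star A r := by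
  have h : ‖(s : ℂ) * u‖ = s := by
    rw [norm_mul, h1, mul_one, Complex.norm_real, Real.norm_of_nonneg (by linarith)]
  refine ⟨by rwa [h], ?_⟩
  rwa [h, mul_div_cancel_left₀ _ (by exact_mod_cast (show s ≠ 0 by linarith))]

end Pool.Agent.MP_28f8a1_an.Mlc

/-! Vitali, and two lemmas on frontiers. -/

set_option autoImplicit false

namespace Pool.Agent.MP_28f8a1_an.Mlc

open Metric Set Filter Topology

theorem top_lip {f : ℂ → ℂ} {c z : ℂ} {R B : ℝ} (hd : DifferentiableOn ℂ f (ball c R))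
    (hb : ∀ z ∈ ball c R, ‖f z‖ ≤ B) (hz : z ∈ ball c R) :
    dist (f z) (f c) ≤ 2 * B / R * dist z c := by
  refine Complex.dist_le_div_mul_dist_of_mapsTo_ball hd (fun y hy => ?_) hz
  have h1 := hb y hy
  have h2 := hb c (mem_ball_self (pos_of_mem_ball hz))
  rw [mem_closedBall, dist_eq_norm]
  linarith [norm_sub_le (f y) (f c)]

theorem vitali {O : Set ℂ} (hO : IsOpen O) (hc : IsPreconnected O) {h : ℝ → ℂ → ℂ}
    (hd : ∀ s ∈ Ioo (1 : ℝ) 2, DifferentiableOn ℂ (h s) O)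
    (hb : ∀ c ∈ O, ∃ B : ℝ, ∀ᶠ c' in 𝓝 c, ∀ s ∈ Ioo (1 : ℝ) 2, ‖h s c'‖ ≤ B) {c₀ : ℂ} (h₀ : c₀ ∈ O)
    (h0 : ∀ᶠ c in 𝓝 c₀, Tendsto (fun s => h s c) (𝓝[>] 1) (𝓝 0)) :
    ∀ c ∈ O, Tendsto (fun s => h s c) (𝓝[>] 1) (𝓝 0) := by
  intro c hcO
  rw [tendsto_iff_ultrafilter]
  intro U hU
  have hI : ∀ᶠ s in (U : Filter ℝ), s ∈ Ioo (1 : ℝ) 2 := hU (Ioo_mem_nhdsGT (by norm_num))
  have hex : ∀ z : ℂ, ∃ y : ℂ, z ∈ O → Tendsto (fun s => h s z) U (𝓝 y) := by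
    intro z
    by_cases hz : z ∈ O
    · obtain ⟨B, hB⟩ := hb z hz
      obtain ⟨y, -, hy⟩ := (isCompact_closedBall (0 : ℂ) B).ultrafilter_le_nhds
        (U.map fun s => h s z) (by
          rw [Ultrafilter.coe_map, le_principal_iff, Filter.mem_map]
          exact hI.mono fun s hs => mem_closedBall_zero_iff.2 (hB.self_of_nhds s hs))
      exact ⟨y, fun _ => hy⟩
    · exact ⟨0, fun h' => absurd h' hz⟩
  choose H hH using hex
  have hloc : TendstoLocallyUniformlyOn h H U O := by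
    rw [Metric.tendstoLocallyUniformlyOn_iff]
    intro ε hε x hx
    obtain ⟨B, hB⟩ := hb x hx
    obtain ⟨R, hR, hRB⟩ := Metric.eventually_nhds_iff_ball.1 (hB.and (hO.mem_nhds hx))
    have hlip : ∀ s ∈ Ioo (1 : ℝ) 2, ∀ z ∈ ball x R,
        dist (h s z) (h s x) ≤ 2 * B / R * dist z x := fun s hs z hz =>
      top_lip ((hd s hs).mono fun y hy => (hRB y hy).2) (fun y hy => (hRB y hy).1 s hs) hz
    have hlipH : ∀ z ∈ ball x R, dist (H z) (H x) ≤ 2 * B / R * dist z x := fun z hz =>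
      le_of_tendsto ((hH z (hRB z hz).2).dist (hH x hx)) (hI.mono fun s hs => hlip s hs z hz)
    have hsm : ∀ᶠ z in 𝓝 x, 2 * B / R * dist z x < ε / 3 := by
      have : ContinuousAt (fun z : ℂ => 2 * B / R * dist z x) x := by fun_prop
      refine this.eventually_lt continuousAt_const ?_
      simp only [dist_self, mul_zero]
      positivity
    refine ⟨_, mem_nhdsWithin_of_mem_nhds (hsm.and (ball_mem_nhds x hR)), ?_⟩
    filter_upwards [hI, Metric.tendsto_nhds.1 (hH x hx) (ε / 3) (by positivity)] with s hs h3 y hy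
    have h1 := hlip s hs y hy.2
    have h2 := hlipH y hy.2
    have h4 := dist_triangle4 (H y) (H x) (h s x) (h s y)
    rw [dist_comm (H x), dist_comm (h s x) (h s y)] at h4
    linarith [hy.1]
  have hHd : DifferentiableOn ℂ H O := hloc.differentiableOn (hI.mono fun s hs => hd s hs) hO
  have hz : H =ᶠ[𝓝 c₀] 0 := by
    filter_upwards [h0, hO.mem_nhds h₀] with z h1 h2
    exact tendsto_nhds_unique (hH z h2) (h1.mono_left hU)
  have := (hHd.analyticOnNhd hO).eqOn_zero_of_preconnected_of_eventuallyEq_zero hc h₀ hz hcO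
  have h5 := hH c hcO
  rwa [this] at h5

theorem top_sub {O S : Set ℂ} (hO : IsOpen O) (hS : IsPreconnected S)
    (hd : ∀ z ∈ S, z ∉ frontier O) (hne : (S ∩ O).Nonempty) : S ⊆ O := by
  refine hS.subset_left_of_subset_union hO isClosed_closure.isOpen_compl
    (disjoint_compl_right.mono_left subset_closure) (fun z hz => ?_) hne
  by_cases h : z ∈ closure O
  · left
    by_contra h'
    exact hd z hz (by rw [hO.frontier_eq]; exact ⟨h, h'⟩)
  · exact Or.inr h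

theorem fin_frontier {O : Set ℂ} (hO : IsOpen O) (hne : O.Nonempty) (hb : Bornology.IsBounded O) :
    (frontier O).Infinite := by
  intro hf
  have hc : IsPreconnected (frontier O)ᶜ :=
    (hf.countable.isConnected_compl_of_one_lt_rank (by simp)).isPreconnected
  obtain ⟨x, hx⟩ := hne
  have hs : (frontier O)ᶜ ⊆ O := top_sub hO hc (fun z hz => hz)
    ⟨x, fun h => by rw [hO.frontier_eq] at h; exact h.2 hx, hx⟩
  refine NormedSpace.unbounded_univ ℝ ℂ ((hb.union hf.isBounded).subset fun z _ => ?_)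
  by_cases h : z ∈ frontier O
  · exact Or.inr h
  · exact Or.inl (hs h)

theorem top_punct (a : ℂ) {r : ℝ} (hr : 0 < r) : IsPreconnected (ball a r \ {a}) := by
  have : ball a r \ {a} = (fun z => a + Complex.exp z) '' {z : ℂ | z.re < Real.log r} := by
    ext c
    constructor
    · rintro ⟨h1, h2⟩
      have h3 : c - a ≠ 0 := sub_ne_zero.2 h2
      refine ⟨Complex.log (c - a), ?_, by simp [Complex.exp_log h3]⟩
      rw [mem_ofPred_eq, Complex.log_re]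
      exact Real.log_lt_log (norm_pos_iff.2 h3) (mem_ball_iff_norm.1 h1)
    · rintro ⟨z, hz, rfl⟩
      refine ⟨?_, by simp⟩
      rw [mem_ball_iff_norm, add_sub_cancel_left, Complex.norm_exp]
      exact (Real.lt_log_iff_exp_lt hr).1 hz
  rw [this]
  exact (convex_halfSpace_re_lt _).isPreconnected.image _ (by fun_prop)

theorem punct {O : Set ℂ} (hO : IsOpen O) {a : ℂ} (ha : a ∈ frontier O)
    (h : ∀ᶠ c in 𝓝 a, c ∈ frontier O → c = a) : ∀ᶠ c in 𝓝 a, c ≠ a → c ∈ O := by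
  obtain ⟨r, hr, hb⟩ := Metric.eventually_nhds_iff_ball.1 h
  rw [hO.frontier_eq] at ha
  obtain ⟨x, hx, hxO⟩ := mem_closure_iff.1 ha.1 _ isOpen_ball (mem_ball_self hr)
  have hs : ball a r \ {a} ⊆ O := top_sub hO (top_punct a hr)
    (fun z hz h' => hz.2 (hb z hz.1 h')) ⟨x, ⟨hx, fun h' => ha.2 (h' ▸ hxO)⟩, hxO⟩
  filter_upwards [ball_mem_nhds a hr] with c h1 h2
  exact hs ⟨h1, h2⟩

end Pool.Agent.MP_28f8a1_an.Mlc

/-! Two disjoint arcs to infinity do not separate the plane. -/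

set_option autoImplicit false

namespace Pool.Agent.MP_28f8a1_an.Mlc

open Metric Set Filter Topology Complex

theorem jan_eq {A : Type*} [TopologicalSpace A] {s : Set A} (hs : IsPreconnected s) {u v : A → ℂ}
    (hu : ContinuousOn u s) (hv : ContinuousOn v s) (h : ∀ t ∈ s, exp (u t) = exp (v t)) {a : A}
    (ha : a ∈ s) (he : u a = v a) : EqOn u v s :=
  isCoveringMap_exp.eqOn_of_comp_eqOn hs hu hv (fun t ht => Subtype.ext (h t ht)) ha he

theorem jan_log {A : Type*} [TopologicalSpace A] [SimplyConnectedSpace A]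
    [LocallyPathConnectedSpace A] {g : A → ℂ} (hg : Continuous g) (h0 : ∀ a, g a ≠ 0) (a : A) :
    ∃ f : A → ℂ, Continuous f ∧ (∀ t, exp (f t) = g t) ∧ f a = log (g a) := by
  obtain ⟨f, ⟨h1, h2⟩, -⟩ := isCoveringMapOn_exp.existsUnique_continuousMap_lifts ⟨g, hg⟩
    (a₀ := a) (exp_log (h0 a)) (fun x => h0 x)
  exact ⟨f, f.continuous, fun t => congrFun h2 t, h1⟩

theorem jan_emb {γ : ℝ → ℂ} (hc : ContinuousOn γ (Ici 0)) (hi : InjOn γ (Ici 0))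
    (ht : Tendsto γ atTop (Bornology.cobounded ℂ)) :
    IsClosedEmbedding fun t : Ici (0 : ℝ) => γ t := by
  have hn : Tendsto (fun t => ‖γ t‖) atTop atTop := tendsto_norm_atTop_iff_cobounded.2 ht
  have hce : Continuous fun t : Ici (0 : ℝ) => γ t := continuousOn_iff_continuous_domRestrict.1 hc
  have hp : IsProperMap fun t : Ici (0 : ℝ) => γ t := by
    refine isProperMap_iff_isCompact_preimage.2 ⟨hce, fun K hK => ?_⟩
    obtain ⟨B, hB⟩ := hK.isBounded.exists_norm_le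
    obtain ⟨T, hT⟩ := eventually_atTop.1 (hn.eventually_gt_atTop B)
    have h1 : IsCompact ((fun t : Ici (0 : ℝ) => (t : ℝ)) ⁻¹' Icc 0 T) :=
      isClosed_Ici.isClosedEmbedding_subtypeVal.isCompact_preimage isCompact_Icc
    refine h1.of_isClosed_subset (hK.isClosed.preimage hce) fun t h => ⟨t.2, ?_⟩
    by_contra h2
    exact absurd (hB _ h) (not_le.2 (hT _ (not_le.1 h2).le))
  exact .of_continuous_injective_isClosedMap hce (fun a b h => Subtype.ext (hi a.2 b.2 h))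
    hp.isClosedMap

theorem jan_closed {γ : ℝ → ℂ} (hc : ContinuousOn γ (Ici 0)) (hi : InjOn γ (Ici 0))
    (ht : Tendsto γ atTop (Bornology.cobounded ℂ)) : IsClosed (γ '' Ici 0) := by
  have hr : range (fun t : Ici (0 : ℝ) => γ t) = γ '' Ici 0 := by
    ext z
    exact ⟨fun ⟨t, h⟩ => ⟨t, t.2, h⟩, fun ⟨t, h, h'⟩ => ⟨⟨t, h⟩, h'⟩⟩
  exact hr ▸ (jan_emb hc hi ht).isClosed_range

/-- a logarithm along one arc, equal to the principal one far out -/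
theorem jan_arc {γ : ℝ → ℂ} (hc : ContinuousOn γ (Ici 0)) (hi : InjOn γ (Ici 0))
    (ht : Tendsto γ atTop (Bornology.cobounded ℂ)) {φ : ℂ → ℂ} {W : Set ℂ}
    (hφ : ContinuousOn φ W) (hW : γ '' Ici 0 ⊆ W) (h0 : ∀ z ∈ γ '' Ici 0, φ z ≠ 0) {R : ℝ}
    (hs : ∀ z, R ≤ ‖z‖ → φ z ∈ slitPlane) :
    IsClosed (γ '' Ici 0) ∧ ∃ L : ℂ → ℂ, Continuous L ∧ (∀ z ∈ γ '' Ici 0, exp (L z) = φ z) ∧
      ∃ R' : ℝ, ∀ z ∈ γ '' Ici 0, R' ≤ ‖z‖ → L z = log (φ z) := by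
  have hn : Tendsto (fun t => ‖γ t‖) atTop atTop := tendsto_norm_atTop_iff_cobounded.2 ht
  have he := jan_emb hc hi ht
  refine ⟨jan_closed hc hi ht, ?_⟩
  obtain ⟨T, hT⟩ := eventually_atTop.1 ((hn.eventually_ge_atTop R).and (eventually_ge_atTop 0))
  have hT0 : 0 ≤ T := (hT T le_rfl).2
  have hm : ∀ t : ℝ, max t 0 ∈ Ici (0 : ℝ) := fun t => mem_Ici.2 (le_max_right _ _)
  have hg : Continuous fun t : ℝ => φ (γ (max t 0)) :=
    hφ.comp_continuous (hc.comp_continuous (by fun_prop) hm) fun t => hW ⟨_, hm t, rfl⟩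
  obtain ⟨f, f1, f2, f3⟩ := jan_log hg (fun t => h0 _ ⟨_, hm t, rfl⟩) T
  have f4 : EqOn f (fun t => log (φ (γ (max t 0)))) (Ici T) := by
    refine jan_eq isPreconnected_Ici f1.continuousOn (hg.continuousOn.clog fun t h => ?_)
      (fun t _ => by rw [f2, exp_log (h0 _ ⟨_, hm t, rfl⟩)]) self_mem_Ici f3
    rw [max_eq_left (hT t h).2]
    exact hs _ (hT t h).1
  obtain ⟨L, hL⟩ := ContinuousMap.exists_extension' he
    (⟨fun t : Ici (0 : ℝ) => f t, by fun_prop⟩ : C(Ici (0 : ℝ), ℂ))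
  have hL' : ∀ t, 0 ≤ t → L (γ t) = f t := fun t h => congrFun hL ⟨t, h⟩
  obtain ⟨B, hB⟩ := (isCompact_Icc.image_of_continuousOn
    (hc.mono (show Icc 0 T ⊆ Ici 0 from Icc_subset_Ici_self))).isBounded.exists_norm_le
  refine ⟨L, L.continuous, ?_, B + 1, ?_⟩
  · rintro _ ⟨t, h, rfl⟩
    rw [hL' t h, f2, max_eq_left h]
  · rintro _ ⟨t, h, rfl⟩ h2
    have h3 : T ≤ t := by
      by_contra h3
      linarith [hB _ ⟨t, ⟨h, (not_le.1 h3).le⟩, rfl⟩]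
    rw [hL' t h, f4 h3]
    simp only [max_eq_left (show (0 : ℝ) ≤ t from h)]

/-- a continuous map which is a translation far out has a zero -/
theorem jan_wind {H : ℂ → ℂ} (hH : Continuous H) (h0 : ∀ z, H z ≠ 0) {y : ℂ} {R : ℝ}
    (hR : 0 < R) (h : ∀ z, R ≤ ‖z‖ → H z = z - y) : False := by
  obtain ⟨G, g1, g2, -⟩ := jan_log hH h0 0
  set ρ : ℝ := R + ‖y‖ with hρ
  have hz : ∀ t : ℝ, H (y + ρ * exp (t * I)) = ρ * exp (t * I) := by
    intro t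
    rw [h, add_sub_cancel_left]
    have h1 : ‖(ρ : ℂ) * exp (t * I)‖ = ρ := by
      rw [norm_mul, norm_exp_ofReal_mul_I, mul_one, norm_real, Real.norm_of_nonneg (by positivity)]
    have h2 := norm_sub_le (y + ρ * exp (t * I)) y
    rw [add_sub_cancel_left, h1] at h2
    linarith
  have e := jan_eq (s := (univ : Set ℝ)) isPreconnected_univ
    (u := fun t : ℝ => G (y + ρ * exp (t * I))) (v := fun t : ℝ => G (y + ρ) + t * I)
    (by fun_prop) (by fun_prop) (fun t _ => by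
      have := hz 0
      simp only [ofReal_zero, zero_mul, exp_zero, mul_one] at this
      rw [exp_add, g2, g2, hz, this]) (a := 0) trivial (by simp)
  have e2 := e (mem_univ (2 * Real.pi))
  simp only [ofReal_mul, ofReal_ofNat, exp_two_pi_mul_I, mul_one] at e2
  exact two_pi_I_ne_zero (by linear_combination -e2)

/-- JAN -/
theorem jan {γ₁ γ₂ : ℝ → ℂ} (c1 : ContinuousOn γ₁ (Ici 0)) (c2 : ContinuousOn γ₂ (Ici 0))
    (i1 : InjOn γ₁ (Ici 0)) (i2 : InjOn γ₂ (Ici 0))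
    (t1 : Tendsto γ₁ atTop (Bornology.cobounded ℂ)) (t2 : Tendsto γ₂ atTop (Bornology.cobounded ℂ))
    (hd : Disjoint (γ₁ '' Ici 0) (γ₂ '' Ici 0)) {O : Set ℂ}
    (hO : frontier O ⊆ γ₁ '' Ici 0 ∪ γ₂ '' Ici 0) {x y : ℂ} (hx : x ∈ O) (hy : y ∉ O)
    (hx' : x ∉ γ₁ '' Ici 0 ∪ γ₂ '' Ici 0) (hy' : y ∉ γ₁ '' Ici 0 ∪ γ₂ '' Ici 0) : False := by
  classical
  set K₁ := γ₁ '' Ici 0
  set K₂ := γ₂ '' Ici 0
  set φ : ℂ → ℂ := fun z => (z - x) / (z - y) with hφ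
  have hc : ContinuousOn φ {y}ᶜ :=
    ContinuousOn.div (by fun_prop) (by fun_prop) fun z hz => sub_ne_zero.2 hz
  set R : ℝ := ‖y‖ + ‖y - x‖ + 1 with hR
  have far : ∀ z, R ≤ ‖z‖ → ‖y - x‖ < ‖z - y‖ := fun z hz => by
    linarith [norm_sub_norm_le z y]
  have fy : ∀ z, R ≤ ‖z‖ → z - y ≠ 0 := fun z hz =>
    norm_pos_iff.1 ((norm_nonneg _).trans_lt (far z hz))
  have hs : ∀ z, R ≤ ‖z‖ → φ z ∈ slitPlane := by
    intro z hz
    have : φ z = 1 + (y - x) / (z - y) := by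
      simp only [hφ]; field_simp [fy z hz]; ring
    rw [this]
    refine mem_slitPlane_of_norm_lt_one ?_
    rw [norm_div, div_lt_one (norm_pos_iff.2 (fy z hz))]
    exact far z hz
  have ny : ∀ z ∈ K₁ ∪ K₂, z ≠ y := fun z hz h => hy' (h ▸ hz)
  have n0 : ∀ z ∈ K₁ ∪ K₂, φ z ≠ 0 := fun z hz =>
    div_ne_zero (sub_ne_zero.2 fun h => hx' (h ▸ hz)) (sub_ne_zero.2 (ny z hz))
  obtain ⟨k1, L₁, a1, a2, R₁, a3⟩ := jan_arc c1 i1 t1 hc (fun z hz => ny z (Or.inl hz))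
    (fun z hz => n0 z (Or.inl hz)) hs
  obtain ⟨k2, L₂, b1, b2, R₂, b3⟩ := jan_arc c2 i2 t2 hc (fun z hz => ny z (Or.inr hz))
    (fun z hz => n0 z (Or.inr hz)) hs
  set S : ℝ := max R (max R₁ R₂) with hS
  have s0 : R ≤ S := le_max_left _ _
  have s1 : R₁ ≤ S := (le_max_left _ _).trans (le_max_right _ _)
  have s2 : R₂ ≤ S := (le_max_right _ _).trans (le_max_right _ _)
  set B : Set ℂ := {z | S ≤ ‖z‖} with hB
  have kB : IsClosed B := isClosed_le continuous_const continuous_norm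
  let l : ℂ → ℂ := fun z => if z ∈ K₁ then L₁ z else if z ∈ K₂ then L₂ z else log (φ z)
  have l1 : EqOn l L₁ K₁ := fun z hz => if_pos hz
  have l2 : EqOn l L₂ K₂ := fun z hz => by
    simp only [l, if_neg (fun h => disjoint_left.1 hd h hz), if_pos hz]
  have l3 : EqOn l (fun z => log (φ z)) B := fun z hz => by
    simp only [l]
    split_ifs with h1 h2
    · exact a3 z h1 (s1.trans hz)
    · exact b3 z h2 (s2.trans hz)
    · rfl
  have lc : ContinuousOn l (K₁ ∪ K₂ ∪ B) := by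
    refine ((a1.continuousOn.congr l1).union_of_isClosed (b1.continuousOn.congr l2) k1
      k2).union_of_isClosed (ContinuousOn.congr ?_ l3) (k1.union k2) kB
    exact (hc.mono fun z hz => sub_ne_zero.1 (fy z (s0.trans hz))).clog
      fun z hz => hs z (s0.trans hz)
  obtain ⟨L, hL⟩ := ContinuousMap.exists_restrict_eq ((k1.union k2).union kB)
    (⟨_, continuousOn_iff_continuous_domRestrict.1 lc⟩ : C(↥(K₁ ∪ K₂ ∪ B), ℂ))
  have hL' : ∀ z ∈ K₁ ∪ K₂ ∪ B, L z = l z := fun z hz => DFunLike.congr_fun hL ⟨z, hz⟩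
  have key : ∀ z ∈ K₁ ∪ K₂ ∪ B, z - y = (z - x) * exp (-L z) := by
    intro z hz
    have h1 : exp (L z) = φ z := by
      rw [hL' z hz]
      rcases hz with (h | h) | h
      · rw [l1 h, a2 z h]
      · rw [l2 h, b2 z h]
      · rw [l3 h, exp_log (slitPlane_ne_zero (hs z (s0.trans h)))]
    have h2 : z - y ≠ 0 := by
      rcases hz with h | h
      · exact sub_ne_zero.2 (ny z h)
      · exact fy z (s0.trans h)
    have h3 : z - x = exp (L z) * (z - y) := by rw [h1, hφ]; field_simp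
    rw [h3, mul_right_comm, ← exp_add, add_neg_cancel, exp_zero, one_mul]
  refine jan_wind (H := O.piecewise (fun z => z - y) fun z => (z - x) * exp (-L z))
    (Continuous.piecewise (fun z hz => key z (Or.inl (hO hz))) (by fun_prop) (by fun_prop))
    (fun z => ?_) (y := y) (R := S) (lt_of_lt_of_le (by positivity) s0) fun z hz => ?_
  · by_cases h : z ∈ O
    · rw [piecewise_eq_of_mem _ _ _ h]
      exact sub_ne_zero.2 fun e => hy (e ▸ h)
    · rw [piecewise_eq_of_notMem _ _ _ h]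
      exact mul_ne_zero (sub_ne_zero.2 fun e => h (e ▸ hx)) (exp_ne_zero _)
  · by_cases h : z ∈ O
    · rw [piecewise_eq_of_mem _ _ _ h]
    · rw [piecewise_eq_of_notMem _ _ _ h]
      exact (key z (Or.inr hz)).symm

/-- the closed arc as a path on `[0, ∞)` -/
theorem jan_path {α : ℝ → ℂ} {a : ℂ} (α1 : ContinuousOn α (Ioi 1)) (α2 : InjOn α (Ioi 1))
    (α3 : Tendsto α (𝓝[>] 1) (𝓝 a)) (α4 : a ∉ α '' Ioi 1)
    (α5 : Tendsto α atTop (Bornology.cobounded ℂ)) :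
    ∃ γ : ℝ → ℂ, ContinuousOn γ (Ici 0) ∧ InjOn γ (Ici 0) ∧
      Tendsto γ atTop (Bornology.cobounded ℂ) ∧ γ '' Ici 0 = insert a (α '' Ioi 1) := by
  classical
  have m1 : ∀ t : ℝ, 0 < t → t + 1 ∈ Ioi (1 : ℝ) := fun t h => mem_Ioi.2 (by linarith)
  let γ : ℝ → ℂ := fun t => if 0 < t then α (t + 1) else a
  have g0 : γ 0 = a := if_neg (lt_irrefl _)
  have g1 : ∀ t, 0 < t → γ t = α (t + 1) := fun t h => if_pos h
  refine ⟨γ, fun t ht => ?_, fun s hs t ht h => ?_, ?_, ?_⟩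
  · rcases (mem_Ici.1 ht).eq_or_lt with rfl | h
    · rw [← Ioi_insert, continuousWithinAt_insert_self, ContinuousWithinAt, g0]
      refine Tendsto.congr' (eventually_nhdsWithin_of_forall fun t h => (g1 t h).symm)
        (α3.comp (tendsto_nhdsWithin_iff.2 ⟨?_, eventually_nhdsWithin_of_forall m1⟩))
      have : Tendsto (fun t : ℝ => t + 1) (𝓝 0) (𝓝 (0 + 1)) :=
        (continuous_add_const 1).tendsto 0
      rw [zero_add] at this
      exact this.mono_left nhdsWithin_le_nhds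
    · have h1 : ContinuousAt (fun t => α (t + 1)) t :=
        ContinuousAt.comp (f := fun t => t + 1) (α1.continuousAt (Ioi_mem_nhds (m1 t h)))
          (continuous_add_const 1).continuousAt
      exact (h1.congr ((eventually_gt_nhds h).mono fun s hs => (g1 s hs).symm)).continuousWithinAt
  · rcases (mem_Ici.1 hs).eq_or_lt with rfl | h1 <;> rcases (mem_Ici.1 ht).eq_or_lt with rfl | h2
    · rfl
    · exact absurd ⟨_, m1 t h2, by rw [← g1 t h2, ← h, g0]⟩ α4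
    · exact absurd ⟨_, m1 s h1, by rw [← g1 s h1, h, g0]⟩ α4
    · rw [g1 s h1, g1 t h2] at h
      exact add_right_cancel (α2 (m1 s h1) (m1 t h2) h)
  · exact Tendsto.congr' ((eventually_gt_atTop 0).mono fun t h => (g1 t h).symm)
      (α5.comp (tendsto_atTop_add_const_right _ 1 tendsto_id))
  · ext z
    constructor
    · rintro ⟨t, ht, rfl⟩
      rcases (mem_Ici.1 ht).eq_or_lt with rfl | h
      · exact Or.inl g0
      · exact Or.inr ⟨_, m1 t h, (g1 t h).symm⟩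
    · rintro (rfl | ⟨t, ht, rfl⟩)
      · exact ⟨0, self_mem_Ici, g0⟩
      · have h : 0 < t - 1 := sub_pos.2 ht
        exact ⟨t - 1, h.le, by rw [g1 _ h, sub_add_cancel]⟩

theorem two_arcs {α β : ℝ → ℂ} {a b : ℂ} (α1 : ContinuousOn α (Ioi 1)) (α2 : InjOn α (Ioi 1))
    (α3 : Tendsto α (𝓝[>] 1) (𝓝 a)) (α4 : a ∉ α '' Ioi 1)
    (α5 : Tendsto α atTop (Bornology.cobounded ℂ))
    (β1 : ContinuousOn β (Ioi 1)) (β2 : InjOn β (Ioi 1))
    (β3 : Tendsto β (𝓝[>] 1) (𝓝 b)) (β4 : b ∉ β '' Ioi 1)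
    (β5 : Tendsto β atTop (Bornology.cobounded ℂ))
    (hd : Disjoint (insert a (α '' Ioi 1)) (insert b (β '' Ioi 1))) :
    IsPreconnected (insert a (α '' Ioi 1) ∪ insert b (β '' Ioi 1))ᶜ := by
  obtain ⟨γ₁, c1, i1, t1, e1⟩ := jan_path α1 α2 α3 α4 α5
  obtain ⟨γ₂, c2, i2, t2, e2⟩ := jan_path β1 β2 β3 β4 β5
  rw [← e1, ← e2] at hd ⊢
  have hK := ((jan_closed c1 i1 t1).union (jan_closed c2 i2 t2)).isOpen_compl
  rintro u v hu hv huv ⟨x, hx, hxu⟩ ⟨y, hy, hyv⟩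
  by_contra hne
  refine jan c1 c2 i1 i2 t1 t2 hd (O := (γ₁ '' Ici 0 ∪ γ₂ '' Ici 0)ᶜ ∩ u) (fun z hz => ?_)
    ⟨hx, hxu⟩ (fun h => hne ⟨y, hy, h.2, hyv⟩) hx hy
  by_contra hzK
  rw [(hK.inter hu).frontier_eq] at hz
  rcases huv hzK with h | h
  · exact hz.2 ⟨hzK, h⟩
  · obtain ⟨w, w1, w2, w3⟩ := mem_closure_iff.1 hz.1 v hv h
    exact hne ⟨w, w2, w3, w1⟩

end Pool.Agent.MP_28f8a1_an.Mlc

/-! A proper holomorphic map of degree one. -/

set_option autoImplicit false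

namespace Pool.Agent.MP_28f8a1_an.Mlc

open MeasureTheory Metric Set Real Filter Topology Pool.Agent.MP_28f8a1_an.H42
open Complex (I)

variable {e n p q N : ℕ} {θ : ℕ → ℝ} {A : Set ℂ} {c w : ℂ} {r r' : ℝ} {ψ ψ' : ℂ → ℂ}

theorem deg_inj {f : ℂ → ℂ} {a b : ℂ} (hf : AnalyticAt ℂ f a) (hd : HasDerivAt f b a) (hb : b ≠ 0) :
    (∃ V ∈ 𝓝 a, InjOn f V) ∧ map f (𝓝 a) = 𝓝 (f a) := by
  have h1 : HasStrictDerivAt f b a := by
    have := hf.contDiffAt (n := 1).hasStrictDerivAt (by simp)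
    rwa [hd.deriv] at this
  refine ⟨?_, h1.map_nhds_eq hb⟩
  have h2 := h1.eventually_left_inverse hb
  refine ⟨_, h2, fun x hx y hy hxy => ?_⟩
  have hx' : h1.localInverse f b a hb (f x) = x := hx
  have hy' : h1.localInverse f b a hb (f y) = y := hy
  rw [← hx', hxy, hy']

theorem deg_loc {f : ℂ → ℂ} {a : ℂ} (hf : AnalyticAt ℂ f a) (hn : ¬ ∀ᶠ z in 𝓝 a, f z = f a) :
    (∃ V ∈ 𝓝 a, InjOn f V) ∨
      ∀ V ∈ 𝓝 a, ∀ᶠ w in 𝓝 (f a), w ≠ f a → ∃ x ∈ V, ∃ y ∈ V, x ≠ y ∧ f x = w ∧ f y = w := by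
  have hf0 : AnalyticAt ℂ (fun z => f z - f a) a := hf.sub analyticAt_const
  obtain ⟨k, g, hg, hga, hfg⟩ := hf0.exists_eventuallyEq_pow_smul_nonzero_iff.2
    (fun h => hn (h.mono fun z hz => sub_eq_zero.1 hz))
  have hk : k ≠ 0 := by
    rintro rfl
    have := hfg.self_of_nhds
    simp only [sub_self, pow_zero, one_smul] at this
    exact hga this.symm
  obtain ⟨ρ, hρ⟩ := IsAlgClosed.exists_pow_nat_eq (g a) (Nat.pos_of_ne_zero hk)
  have hρ0 : ρ ≠ 0 := by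
    rintro rfl
    rw [zero_pow hk] at hρ
    exact hga hρ.symm
  have hkc : (k : ℂ) ≠ 0 := by exact_mod_cast hk
  set u : ℂ → ℂ := fun z => Complex.exp (Complex.log (g z / g a) / k) * ρ with hu
  have hsl : g a / g a ∈ Complex.slitPlane := by rw [div_self hga]; exact Complex.one_mem_slitPlane
  have hua : AnalyticAt ℂ u a :=
    (((hg.div_const (c := g a)).clog hsl).div_const (c := (k : ℂ))).cexp.mul analyticAt_const
  have hu0 : u a = ρ := by simp [hu, div_self hga]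
  set h : ℂ → ℂ := fun z => (z - a) * u z with hh
  have hha : AnalyticAt ℂ h a := (analyticAt_id.sub analyticAt_const).mul hua
  have hhd : HasDerivAt h ρ a := by
    have := ((hasDerivAt_id a).sub_const a).fun_mul hua.differentiableAt.hasDerivAt
    refine this.congr_deriv ?_
    simp [hu0]
  have hpow : ∀ᶠ z in 𝓝 a, f z = h z ^ k + f a := by
    filter_upwards [hfg, hg.continuousAt.eventually_ne hga] with z h1 h2
    have h3 : u z ^ k = g z := by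
      rw [hu]
      dsimp only
      rw [mul_pow, ← Complex.exp_nat_mul, mul_div_cancel₀ _ hkc,
        Complex.exp_log (div_ne_zero h2 hga), hρ, div_mul_cancel₀ _ hga]
    rw [hh]
    dsimp only
    rw [mul_pow, h3, ← smul_eq_mul, ← h1]
    ring
  obtain ⟨⟨V₀, hV₀, hinj⟩, hmap⟩ := deg_inj hha hhd hρ0
  have h0 : h a = 0 := by simp [hh]
  by_cases hk1 : k = 1
  · left
    subst hk1
    refine ⟨_, inter_mem hV₀ hpow, fun x hx y hy hxy => hinj hx.1 hy.1 ?_⟩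
    have h1 : f x = h x ^ 1 + f a := hx.2
    have h2 : f y = h y ^ 1 + f a := hy.2
    rw [pow_one] at h1 h2
    linear_combination hxy - h1 + h2
  · right
    intro V hV
    have h1 : h '' (V ∩ {z | f z = h z ^ k + f a}) ∈ 𝓝 (0 : ℂ) := by
      rw [← h0, ← hmap]
      exact image_mem_map (inter_mem hV hpow)
    obtain ⟨ε, hε, hb⟩ := Metric.mem_nhds_iff.1 h1
    have hprim := Complex.isPrimitiveRoot_exp k hk
    filter_upwards [ball_mem_nhds (f a) (pow_pos hε k)] with w hw hne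
    obtain ⟨ζ, hζ⟩ := IsAlgClosed.exists_pow_nat_eq (w - f a) (Nat.pos_of_ne_zero hk)
    have hζ0 : ζ ≠ 0 := by
      rintro rfl
      rw [zero_pow hk] at hζ
      exact hne (sub_eq_zero.1 hζ.symm)
    have hζn : ‖ζ‖ < ε := by
      refine lt_of_pow_lt_pow_left₀ k hε.le ?_
      rw [← norm_pow, hζ]
      exact mem_ball_iff_norm.1 hw
    set ω := Complex.exp (2 * π * I / k) with hω
    have hωn : ‖ω‖ = 1 := hprim.norm'_eq_one hk
    obtain ⟨x, hx, hx'⟩ := hb (show ζ ∈ ball (0 : ℂ) ε by simpa using hζn)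
    obtain ⟨y, hy, hy'⟩ := hb (show ζ * ω ∈ ball (0 : ℂ) ε by simpa [hωn] using hζn)
    refine ⟨x, hx.1, y, hy.1, fun hxy => ?_, ?_, ?_⟩
    · have h2 : ζ * ω = ζ * 1 := by rw [← hy', ← hxy, hx', mul_one]
      exact hprim.ne_one (by omega) (mul_left_cancel₀ hζ0 h2)
    · rw [show f x = h x ^ k + f a from hx.2, hx', hζ]
      ring
    · rw [show f y = h y ^ k + f a from hy.2, hy', mul_pow, hζ, hprim.pow_eq_one]
      ring

theorem deg_far {Ω : Set ℂ} (hΩ : IsOpen Ω) {Φ : ℂ → ℂ} (hΦ : DifferentiableOn ℂ Φ Ω)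
    (hb : Bornology.IsBounded Ωᶜ) (hm : ∀ c ∈ Ω, Φ c ≠ 0)
    (ha : Tendsto (fun c => Φ c / c) (Bornology.cobounded ℂ) (𝓝 1)) :
    ∃ R : ℝ, InjOn Φ {c | R < ‖c‖} := by
  classical
  set F : ℂ → ℂ := fun u => if u = 0 then 0 else (Φ u⁻¹)⁻¹ with hF
  have hinv : Tendsto (fun u : ℂ => u⁻¹) (𝓝[≠] 0) (Bornology.cobounded ℂ) :=
    Filter.tendsto_inv₀_nhdsNE_zero
  have hΩ' : ∀ᶠ c in Bornology.cobounded ℂ, c ∈ Ω := by
    have := Bornology.isBounded_def.1 hb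
    rwa [compl_compl] at this
  have h1 : Tendsto (fun u : ℂ => (Φ u⁻¹ / u⁻¹)⁻¹) (𝓝[≠] 0) (𝓝 1) := by
    simpa using (ha.comp hinv).inv₀ one_ne_zero
  have hd : HasDerivAt F 1 0 := by
    rw [hasDerivAt_iff_tendsto_slope]
    refine h1.congr' ?_
    filter_upwards [self_mem_nhdsWithin] with u hu
    have hu' : u ≠ 0 := hu
    simp [slope, hF, hu', div_eq_mul_inv]
  have han : AnalyticAt ℂ F 0 := by
    refine Complex.analyticAt_of_differentiable_on_punctured_nhds_of_continuousAt ?_ hd.continuousAt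
    filter_upwards [hinv.eventually hΩ', self_mem_nhdsWithin] with u hu hu0
    have hu' : u ≠ 0 := hu0
    have h2 : DifferentiableAt ℂ (fun v : ℂ => (Φ v⁻¹)⁻¹) u :=
      ((hΦ.differentiableAt (hΩ.mem_nhds hu)).comp u (differentiableAt_inv hu')).inv (hm _ hu)
    refine h2.congr_of_eventuallyEq ?_
    filter_upwards [isOpen_ne.mem_nhds hu'] with v hv
    simp [hF, hv]
  obtain ⟨⟨V, hV, hinj⟩, -⟩ := deg_inj han hd one_ne_zero
  obtain ⟨ε, hε, hV'⟩ := Metric.mem_nhds_iff.1 hV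
  have key : ∀ x : ℂ, ε⁻¹ < ‖x‖ → x ≠ 0 ∧ x⁻¹ ∈ V := by
    intro x hx
    have h2 : 0 < ‖x‖ := (inv_pos.2 hε).trans hx
    refine ⟨norm_pos_iff.1 h2, hV' ?_⟩
    rw [mem_ball_zero_iff, norm_inv]
    exact (inv_lt_comm₀ h2 hε).2 hx
  refine ⟨ε⁻¹, fun x hx y hy hxy => ?_⟩
  refine inv_injective (hinj (key x hx).2 (key y hy).2 ?_)
  simp [hF, (key x hx).1, (key y hy).1, hxy]

theorem deg_conn : IsPreconnected {w : ℂ | 1 < ‖w‖} := by
  have h : {w : ℂ | 1 < ‖w‖} = Complex.exp '' {z | 0 < z.re} := by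
    ext w
    constructor
    · intro hw
      have hw' : 1 < ‖w‖ := hw
      have h0 : w ≠ 0 := norm_pos_iff.1 (by linarith)
      exact ⟨Complex.log w, by simpa [Complex.log_re] using Real.log_pos hw', Complex.exp_log h0⟩
    · rintro ⟨z, hz, rfl⟩
      have hz' : 0 < z.re := hz
      simpa [Complex.norm_exp] using hz'
  rw [h]
  exact (convex_halfSpace_re_gt 0).isPreconnected.image _ Complex.continuous_exp.continuousOn

theorem deg_one {Ω : Set ℂ} (hΩ : IsOpen Ω) {Φ : ℂ → ℂ} (hΦ : DifferentiableOn ℂ Φ Ω)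
    (hm : ∀ c ∈ Ω, 1 < ‖Φ c‖)
    (hp : ∀ K : Set ℂ, IsCompact K → K ⊆ {w | 1 < ‖w‖} → IsCompact (Ω ∩ Φ ⁻¹' K))
    (hb : Bornology.IsBounded Ωᶜ) (ha : Tendsto (fun c => Φ c / c) (Bornology.cobounded ℂ) (𝓝 1))
    (hl : ∀ R : ℝ, ∃ B : ℝ, ∀ c ∈ Ω, ‖c‖ ≤ R → ‖Φ c‖ ≤ B) :
    ∃ Γ : ℂ → ℂ, ContinuousOn Γ {w | 1 < ‖w‖} ∧ (∀ w : ℂ, 1 < ‖w‖ → Γ w ∈ Ω ∧ Φ (Γ w) = w) ∧
      ∀ c ∈ Ω, Γ (Φ c) = c := by
  have han : AnalyticOnNhd ℂ Φ Ω := hΦ.analyticOnNhd hΩ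
  have hD : IsOpen {w : ℂ | 1 < ‖w‖} := isOpen_lt continuous_const continuous_norm
  have nc : ∀ c ∈ Ω, ¬ ∀ᶠ z in 𝓝 c, Φ z = Φ c := by
    intro c hc h
    have hK := hp {Φ c} isCompact_singleton (singleton_subset_iff.2 (hm c hc))
    set S : Set ℂ := {z | ∀ᶠ y in 𝓝 z, y ∈ Ω ∧ Φ y = Φ c} with hS
    have hSK : S ⊆ Ω ∩ Φ ⁻¹' {Φ c} := fun z hz => hz.self_of_nhds
    have hcl : IsClosed S := by
      refine isClosed_of_closure_subset fun z hz => ?_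
      have hz' := closure_minimal hSK hK.isClosed hz
      rcases (han z hz'.1).eventually_eq_or_eventually_ne (g := fun _ => Φ c) analyticAt_const
        with h1 | h1
      · exact (show ∀ᶠ y in 𝓝 z, y ∈ Ω from hΩ.mem_nhds hz'.1).and h1
      · obtain ⟨y, hy, hy'⟩ := mem_closure_iff_nhds.1 hz _ (eventually_nhdsWithin_iff.1 h1)
        by_cases hyz : y = z
        · rwa [← hyz]
        · exact absurd (hSK hy').2 (hy hyz)
    have hu : S = univ := IsClopen.eq_univ ⟨hcl, isOpen_setOfPred_eventually_nhds⟩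
      ⟨c, (show ∀ᶠ y in 𝓝 c, y ∈ Ω from hΩ.mem_nhds hc).and h⟩
    rw [hu] at hSK
    exact noncompact_univ ℂ (hK.of_isClosed_subset isClosed_univ hSK)
  have op : ∀ c ∈ Ω, ∀ V ∈ 𝓝 c, Φ '' V ∈ 𝓝 (Φ c) := fun c hc V hV =>
    ((han c hc).eventually_constant_or_nhds_le_map_nhds.resolve_left (nc c hc)) (image_mem_map hV)
  have pr : ∀ w : ℂ, 1 < ‖w‖ → ∀ V : Set ℂ, IsOpen V → (∀ c ∈ Ω, Φ c = w → c ∈ V) →
      ∀ᶠ v in 𝓝 w, ∀ c ∈ Ω, Φ c = v → c ∈ V := by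
    intro w hw V hV h
    obtain ⟨K, hK, hKD, hKc⟩ := local_compact_nhds (hD.mem_nhds hw)
    have h1 : IsCompact (Φ '' ((Ω ∩ Φ ⁻¹' K) \ V)) :=
      ((hp K hKc hKD).diff hV).image_of_continuousOn (hΦ.continuousOn.mono fun z hz => hz.1.1)
    have h2 : w ∈ (Φ '' ((Ω ∩ Φ ⁻¹' K) \ V))ᶜ := by
      rintro ⟨z, hz, hz'⟩
      exact hz.2 (h z hz.1.1 hz')
    filter_upwards [h1.isClosed.isOpen_compl.mem_nhds h2, hK] with v hv hvK c hc hcv
    by_contra hcV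
    exact hv ⟨c, ⟨⟨hc, by rwa [mem_preimage, hcv]⟩, hcV⟩, hcv⟩
  have surj : ∀ w : ℂ, 1 < ‖w‖ → ∃ c ∈ Ω, Φ c = w := by
    have hne : Ω.Nonempty := by
      by_contra h
      rw [not_nonempty_iff_eq_empty.1 h, compl_empty] at hb
      exact NormedSpace.unbounded_univ ℝ ℂ hb
    obtain ⟨c, hc⟩ := hne
    have ho : IsOpen (Φ '' Ω) := isOpen_iff_mem_nhds.2 (by
      rintro _ ⟨z, hz, rfl⟩
      exact op z hz Ω (hΩ.mem_nhds hz))
    refine fun w hw => deg_conn.subset_of_closure_inter_subset ho ⟨Φ c, hm c hc, c, hc, rfl⟩ ?_ hw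
    rintro v ⟨hv, hvD⟩
    by_contra hne
    obtain ⟨y, hy, z, hz, hzy⟩ := mem_closure_iff_nhds.1 hv _
      (pr v hvD ∅ isOpen_empty fun z hz hzv => hne ⟨z, hz, hzv⟩)
    exact hy z hz hzy
  set T : Set ℂ := {w | ∀ x ∈ Ω, ∀ y ∈ Ω, Φ x = w → Φ y = w → x = y} with hT
  have hTc : IsClosed T := by
    refine isClosed_of_closure_subset fun w hw x hx y hy hxw hyw => ?_
    by_contra hxy
    obtain ⟨U, V, hU, hV, hxU, hyV, hUV⟩ := t2_separation hxy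
    have h1 := op x hx (U ∩ Ω) ((hU.inter hΩ).mem_nhds ⟨hxU, hx⟩)
    have h2 := op y hy (V ∩ Ω) ((hV.inter hΩ).mem_nhds ⟨hyV, hy⟩)
    rw [hxw] at h1
    rw [hyw] at h2
    obtain ⟨v, ⟨⟨x', hx', e1⟩, y', hy', e2⟩, hv⟩ := mem_closure_iff_nhds.1 hw _ (inter_mem h1 h2)
    have h3 := hv x' hx'.2 y' hy'.2 e1 e2
    exact Set.disjoint_left.1 hUV hx'.1 (h3 ▸ hy'.1)
  have hall : {w : ℂ | 1 < ‖w‖} ⊆ interior T := by
    refine deg_conn.subset_of_closure_inter_subset isOpen_interior ?_ ?_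
    · obtain ⟨R, hR⟩ := deg_far hΩ hΦ hb
        (fun c hc => norm_pos_iff.1 (one_pos.trans (hm c hc))) ha
      obtain ⟨B, hB⟩ := hl R
      have h1 : {w : ℂ | B < ‖w‖} ⊆ T := by
        intro w hw x hx y hy hxw hyw
        have hw' : B < ‖w‖ := hw
        refine hR (show R < ‖x‖ from not_le.1 fun h => ?_) (show R < ‖y‖ from not_le.1 fun h => ?_)
          (hxw.trans hyw.symm)
        · have := hB x hx h
          rw [hxw] at this
          linarith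
        · have := hB y hy h
          rw [hyw] at this
          linarith
      have h2 : ‖((|B| + 2 : ℝ) : ℂ)‖ = |B| + 2 := by
        rw [Complex.norm_real, Real.norm_of_nonneg (by positivity)]
      refine ⟨((|B| + 2 : ℝ) : ℂ), ?_,
        interior_maximal h1 (isOpen_lt continuous_const continuous_norm) ?_⟩
      · rw [mem_ofPred_eq, h2]
        linarith [abs_nonneg B]
      · rw [mem_ofPred_eq, h2]
        linarith [le_abs_self B]
    · rintro w ⟨hw, hwD⟩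
      have hwT : w ∈ T := closure_minimal interior_subset hTc hw
      obtain ⟨c, hc, rfl⟩ := surj w hwD
      rcases deg_loc (han c hc) (nc c hc) with ⟨V, hV, hinj⟩ | h
      · refine mem_interior_iff_mem_nhds.2 ?_
        filter_upwards [pr _ hwD (interior V) isOpen_interior fun z hz hzc => by
          rw [hwT z hz c hc hzc rfl]
          exact mem_interior_iff_mem_nhds.2 hV] with v hv x hx y hy hxv hyv
        exact hinj (interior_subset (hv x hx hxv)) (interior_subset (hv y hy hyv))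
          (hxv.trans hyv.symm)
      · by_contra hne
        obtain ⟨v, hv, hv'⟩ := mem_closure_iff_nhds.1 hw _ (h Ω (hΩ.mem_nhds hc))
        obtain ⟨x, hx, y, hy, hxy, e1, e2⟩ := hv fun h' => hne (h' ▸ hv')
        exact hxy (interior_subset hv' x hx y hy e1 e2)
  choose! Γ hΓ hΓ' using surj
  have uq : ∀ w : ℂ, 1 < ‖w‖ → ∀ c ∈ Ω, Φ c = w → c = Γ w := fun w hw c hc h =>
    interior_subset (hall hw) c hc _ (hΓ w hw) h (hΓ' w hw)
  refine ⟨Γ, fun w hw => ContinuousAt.continuousWithinAt ?_, fun w hw => ⟨hΓ w hw, hΓ' w hw⟩,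
    fun c hc => (uq _ (hm c hc) c hc rfl).symm⟩
  refine (nhds_basis_opens (Γ w)).tendsto_right_iff.2 fun V hV => ?_
  filter_upwards [pr w hw V hV.2 fun c hc h => by rw [uq w hw c hc h]; exact hV.1,
    hD.mem_nhds hw] with v hv hvD
  exact hv _ (hΓ v hvD) (hΓ' v hvD)

end Pool.Agent.MP_28f8a1_an.Mlc

/-! The characteristic arc of a portrait. -/

set_option autoImplicit false

namespace Pool.Agent.MP_28f8a1_an.Mlc

open MeasureTheory Metric Set Real Filter Topology Pool.Agent.MP_28f8a1_an.H42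
open Complex (I)

variable {e n p q N : ℕ} {θ : ℕ → ℝ} {A : Set ℂ} {c w : ℂ} {r r' : ℝ} {ψ ψ' : ℂ → ℂ}

theorem ee_eq {s t : ℝ} : ee s = ee t ↔ ∃ m : ℤ, s = t + m := by
  rw [ee, ee, Complex.exp_eq_exp_iff_exists_int]
  refine exists_congr fun m => ⟨fun h => ?_, fun h => ?_⟩
  · have h2 : (2 * π * I : ℂ) ≠ 0 := Complex.two_pi_I_ne_zero
    have h3 : (s : ℂ) = t + m := mul_left_cancel₀ h2 (by linear_combination h)
    exact_mod_cast h3
  · rw [h]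
    push_cast
    ring

theorem ee_pow (t : ℝ) (k : ℕ) : ee t ^ k = ee (k * t) := by
  rw [ee, ee, ← Complex.exp_nat_mul]
  congr 1
  push_cast
  ring

theorem ang_add {t : ℝ} (h : t ∈ Ang e q θ) (m : ℤ) : t + m ∈ Ang e q θ := by
  obtain ⟨j, hj, k, l, rfl⟩ := h
  exact ⟨j, hj, k, l + m, by push_cast; ring⟩

theorem ang_of_add {t : ℝ} {m : ℤ} (h : t + m ∈ Ang e q θ) : t ∈ Ang e q θ := by
  simpa using ang_add h (-m)

theorem ang_mul {t : ℝ} (h : t ∈ Ang e q θ) : ((e + 1 : ℕ) : ℝ) * t ∈ Ang e q θ := by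
  obtain ⟨j, hj, k, l, rfl⟩ := h
  exact ⟨j, hj, k + 1, (e + 1 : ℕ) * l, by push_cast; ring⟩

theorem ee_mem {t : ℝ} : ee t ∈ ee '' Ang e q θ ↔ t ∈ Ang e q θ := by
  refine ⟨fun ⟨s, hs, h⟩ => ?_, fun h => ⟨t, h, rfl⟩⟩
  obtain ⟨m, rfl⟩ := ee_eq.1 h
  exact ang_of_add hs

theorem Port.perK (P : Port e n p q θ) {j : ℕ} (hj : j < q) (k l : ℕ) :
    ∃ m : ℤ, ((e + 1 : ℕ) : ℝ) ^ (k + n * q * l) * θ j = ((e + 1 : ℕ) : ℝ) ^ k * θ j + m := by
  induction l with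
  | zero => exact ⟨0, by simp⟩
  | succ l ih =>
    obtain ⟨m, hm⟩ := ih
    obtain ⟨m', hm'⟩ := P.rotN hj
    refine ⟨m + ((e + 1 : ℕ) : ℤ) ^ (k + n * q * l) * m', ?_⟩
    rw [Nat.mul_succ, ← add_assoc, pow_add, mul_assoc, hm']
    push_cast at hm ⊢
    linear_combination hm

theorem Port.red (P : Port e n p q θ) {j : ℕ} (hj : j < q) (k : ℕ) :
    ∃ m : ℤ, ((e + 1 : ℕ) : ℝ) ^ k * θ j = ((e + 1 : ℕ) : ℝ) ^ (k % (n * q)) * θ j + m := by
  have h := P.perK hj (k % (n * q)) (k / (n * q))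
  rwa [Nat.mod_add_div] at h

theorem Port.ang_per (P : Port e n p q θ) {t : ℝ} (h : t ∈ Ang e q θ) :
    ∃ m : ℤ, ((e + 1 : ℕ) : ℝ) ^ (n * q) * t = t + m := by
  obtain ⟨j, hj, k, l, rfl⟩ := h
  obtain ⟨m, hm⟩ := P.perK hj k 1
  refine ⟨m + ((e + 1 : ℕ) : ℤ) ^ (n * q) * l - l, ?_⟩
  rw [mul_one, pow_add] at hm
  push_cast at hm ⊢
  linear_combination hm

theorem Port.ang_succ (P : Port e n p q θ) {t : ℝ} (h : t ∈ Ang e q θ) :
    ∃ j < q, ∃ (k : ℕ) (m : ℤ), t = ((e + 1 : ℕ) : ℝ) ^ (k + 1) * θ j + m := by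
  obtain ⟨j, hj, k, l, rfl⟩ := h
  obtain ⟨m, hm⟩ := P.perK hj k 1
  have h1 := P.hN
  refine ⟨j, hj, k + n * q - 1, l - m, ?_⟩
  rw [show k + n * q - 1 + 1 = k + n * q * 1 by omega, hm]
  push_cast
  ring

theorem Port.dirs (P : Port e n p q θ) : Dirs e (n * q) (ee '' Ang e q θ) := by
  refine ⟨?_, ?_, ?_, ?_⟩
  · refine (((finite_Iio q).prod (finite_Iio (n * q))).image
      fun x => ee (((e + 1 : ℕ) : ℝ) ^ x.2 * θ x.1)).subset ?_
    rintro _ ⟨_, ⟨j, hj, k, l, rfl⟩, rfl⟩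
    obtain ⟨m, hm⟩ := P.red hj k
    refine ⟨(j, k % (n * q)), ⟨hj, Nat.mod_lt _ P.hN⟩, (ee_eq.2 ⟨m + l, ?_⟩).symm⟩
    rw [hm]
    push_cast
    ring
  · rintro _ ⟨t, -, rfl⟩
    exact ee_norm t
  · rintro _ ⟨t, ht, rfl⟩
    exact ⟨_, ang_mul ht, (ee_pow t _).symm⟩
  · rintro _ ⟨t, ht, rfl⟩
    obtain ⟨m, hm⟩ := P.ang_per ht
    rw [ee_pow]
    exact ee_eq.2 ⟨m, by rw [← hm]; push_cast; ring⟩

theorem Port.ang_fin (P : Port e n p q θ) (a b : ℝ) : (Ang e q θ ∩ Icc a b).Finite := by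
  have h : ∀ x : ℝ, ((fun m : ℤ => x + m) '' Icc ⌈a - x⌉ ⌊b - x⌋).Finite :=
    fun x => (finite_Icc _ _).image _
  refine (((finite_Iio q).prod (finite_Iio (n * q))).biUnion
    fun x _ => h (((e + 1 : ℕ) : ℝ) ^ x.2 * θ x.1)).subset ?_
  rintro _ ⟨⟨j, hj, k, l, rfl⟩, h1, h2⟩
  obtain ⟨m, hm⟩ := P.red hj k
  rw [hm] at h1 h2
  refine mem_biUnion (x := (j, k % (n * q))) ⟨hj, Nat.mod_lt _ P.hN⟩ ⟨m + l, ⟨?_, ?_⟩, ?_⟩
  · rw [Int.ceil_le]
    push_cast at h1 ⊢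
    linarith
  · rw [Int.le_floor]
    push_cast at h2 ⊢
    linarith
  · rw [hm]
    push_cast
    ring

theorem ang_gap (P : Port e n p q θ) {a b : ℝ} (h : a < b) : ∃ t ∈ Ioo a b, t ∉ Ang e q θ := by
  by_contra h1
  push Not at h1
  exact Ioo_infinite h ((P.ang_fin a b).subset fun t ht => ⟨h1 t ht, Ioo_subset_Icc_self ht⟩)

theorem Port.fract_pos (P : Port e n p q θ) {i j : ℕ} (hi : i < q) (hj : j < q) (h : i ≠ j)
    (k : ℕ) : 0 < Int.fract (((e + 1 : ℕ) : ℝ) ^ k * θ j - ((e + 1 : ℕ) : ℝ) ^ k * θ i) := by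
  refine (Int.fract_nonneg _).lt_of_ne fun h0 => ?_
  obtain ⟨m, hm⟩ : ∃ m : ℤ, ((e + 1 : ℕ) : ℝ) ^ k * θ j - ((e + 1 : ℕ) : ℝ) ^ k * θ i = m :=
    ⟨_, by rw [← Int.floor_add_fract (_ - _), ← h0, add_zero]⟩
  obtain ⟨a, ha⟩ := P.perK hi 0 k
  obtain ⟨b, hb⟩ := P.perK hj 0 k
  have h1 := P.hN
  obtain ⟨s, hs⟩ : ∃ s, 0 + n * q * k = s + k := ⟨n * q * k - k, by
    have := Nat.le_mul_of_pos_left k h1
    omega⟩
  rw [hs, pow_add, pow_zero, one_mul] at ha hb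
  have h2 : θ j - θ i = ((((e + 1 : ℕ) : ℤ) ^ s * m + a - b : ℤ) : ℝ) := by
    push_cast at ha hb hm ⊢
    linear_combination ha - hb + ((e : ℝ) + 1) ^ s * hm
  generalize (((e + 1 : ℕ) : ℤ) ^ s * m + a - b : ℤ) = z at h2
  have h3 := P.mem i hi
  have h4 := P.mem j hj
  have h5 : (z : ℝ) < 1 := by linarith [h3.1, h4.2]
  have h6 : (-1 : ℝ) < z := by linarith [h3.2, h4.1]
  have h7 : z = 0 := by
    have a1 : z < 1 := by exact_mod_cast h5
    have a2 : -1 < z := by exact_mod_cast h6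
    omega
  rw [h7, Int.cast_zero] at h2
  rcases lt_or_gt_of_ne h with h | h
  · linarith [P.mono i j h hj]
  · linarith [P.mono j i h hi]

theorem Port.min_gap (P : Port e n p q θ) : ∃ i < q, ∃ j < q, i ≠ j ∧ ∃ k : ℕ,
    ∀ i' < q, ∀ j' < q, i' ≠ j' → ∀ k' : ℕ,
      Int.fract (((e + 1 : ℕ) : ℝ) ^ (k + 1) * θ j - ((e + 1 : ℕ) : ℝ) ^ (k + 1) * θ i) ≤
        Int.fract (((e + 1 : ℕ) : ℝ) ^ k' * θ j' - ((e + 1 : ℕ) : ℝ) ^ k' * θ i') := by
  have hp := P.hp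
  have hpq := P.hpq
  have h1 := P.hN
  obtain ⟨⟨i, j, k⟩, ⟨⟨hi, hj, -⟩, hij⟩, H⟩ := Set.exists_min_image
    ((Iio q ×ˢ Iio q ×ˢ Iio (n * q)) ∩ {x | x.1 ≠ x.2.1})
    (fun x => Int.fract (((e + 1 : ℕ) : ℝ) ^ x.2.2 * θ x.2.1 - ((e + 1 : ℕ) : ℝ) ^ x.2.2 * θ x.1))
    (((finite_Iio q).prod ((finite_Iio q).prod (finite_Iio (n * q)))).inter_of_left _)
    ⟨(0, 1, 0), ⟨P.hq, show 1 < q by omega, h1⟩, show (0 : ℕ) ≠ 1 by omega⟩
  refine ⟨i, hi, j, hj, hij, k + n * q - 1, fun i' hi' j' hj' h k' => ?_⟩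
  have h2 := H (i', j', k' % (n * q)) ⟨⟨hi', hj', Nat.mod_lt _ h1⟩, h⟩
  obtain ⟨a, ha⟩ := P.perK hi k 1
  obtain ⟨b, hb⟩ := P.perK hj k 1
  obtain ⟨a', ha'⟩ := P.red hi' k'
  obtain ⟨b', hb'⟩ := P.red hj' k'
  have h3 : ∀ (x y : ℝ) (u v : ℤ), Int.fract (x + u - (y + v)) = Int.fract (x - y) := by
    intro x y u v
    rw [show x + u - (y + v) = x - y + ((u - v : ℤ) : ℝ) by push_cast; ring, Int.fract_add_intCast]
  rw [show k + n * q - 1 + 1 = k + n * q * 1 by omega, ha, hb, ha', hb', h3, h3]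
  exact h2

theorem itin_add {t : ℝ} (h : Itin e q θ t) (m : ℤ) : Itin e q θ (t + m) := by
  intro k i hi j hj
  have h1 := h k i hi j hj
  rw [← sub_sub, ← sub_sub, Int.floor_sub_intCast, Int.floor_sub_intCast]
  convert h1 using 1
  ring

theorem char_arc (he : 1 ≤ e) (P : Port e n p q θ) {t₀ : ℝ} (h₀ : t₀ ∉ Ang e q θ)
    (hI : Itin e q θ t₀) : ∃ a ∈ Ang e q θ, ∃ b ∈ Ang e q θ, a < b ∧ b < a + 1 ∧
      (∀ t ∈ Ioo a b, t ∉ Ang e q θ) ∧
      ∀ t ∉ Ang e q θ, Itin e q θ t → ∃ m : ℤ, t + m ∈ Ioo a b := by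
  obtain ⟨i, hi, j, hj, hij, k, H⟩ := P.min_gap
  have hδ := P.fract_pos hi hj hij (k + 1)
  have hδ1 := Int.fract_lt_one
    (((e + 1 : ℕ) : ℝ) ^ (k + 1) * θ j - ((e + 1 : ℕ) : ℝ) ^ (k + 1) * θ i)
  obtain ⟨m₀, hm₀⟩ : ∃ m₀ : ℤ, ((e + 1 : ℕ) : ℝ) ^ (k + 1) * θ j =
      ((e + 1 : ℕ) : ℝ) ^ (k + 1) * θ i + Int.fract
        (((e + 1 : ℕ) : ℝ) ^ (k + 1) * θ j - ((e + 1 : ℕ) : ℝ) ^ (k + 1) * θ i) + m₀ :=
    ⟨⌊((e + 1 : ℕ) : ℝ) ^ (k + 1) * θ j - ((e + 1 : ℕ) : ℝ) ^ (k + 1) * θ i⌋, by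
      rw [Int.fract]; ring⟩
  generalize Int.fract
    (((e + 1 : ℕ) : ℝ) ^ (k + 1) * θ j - ((e + 1 : ℕ) : ℝ) ^ (k + 1) * θ i) = δ at H hδ hδ1 hm₀
  have hα : ((e + 1 : ℕ) : ℝ) ^ (k + 1) * θ i ∈ Ang e q θ := ⟨i, hi, k + 1, 0, by simp⟩
  have hβ : ((e + 1 : ℕ) : ℝ) ^ (k + 1) * θ i + δ ∈ Ang e q θ :=
    ⟨j, hj, k + 1, -m₀, by rw [hm₀]; push_cast; ring⟩
  have hd : (2 : ℝ) ≤ ((e + 1 : ℕ) : ℝ) := by exact_mod_cast (show 2 ≤ e + 1 by omega)
  have LA : ∀ t ∉ Ang e q θ, Itin e q θ t → ∃ m : ℤ, t + m ∈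
      Ioo (((e + 1 : ℕ) : ℝ) ^ (k + 1) * θ i) (((e + 1 : ℕ) : ℝ) ^ (k + 1) * θ i + δ) := by
    intro t ht hI
    obtain ⟨s, hs⟩ := hI k j hj i hi
    rw [hm₀, add_sub_right_comm, Int.floor_add_intCast] at hs
    refine ⟨⌊((e + 1 : ℕ) : ℝ) ^ (k + 1) * θ i - t⌋ + 1, ?_, ?_⟩
    · have := Int.lt_floor_add_one (((e + 1 : ℕ) : ℝ) ^ (k + 1) * θ i - t)
      push_cast at this ⊢
      linarith
    · by_contra h
      rw [not_lt] at h
      have h1 : ((e + 1 : ℕ) : ℝ) ^ (k + 1) * θ i + δ ≠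
          t + ((⌊((e + 1 : ℕ) : ℝ) ^ (k + 1) * θ i - t⌋ + 1 : ℤ) : ℝ) :=
        fun h2 => ht (ang_of_add (h2 ▸ hβ))
      have h2 : ⌊((e + 1 : ℕ) : ℝ) ^ (k + 1) * θ i + δ - t⌋ =
          ⌊((e + 1 : ℕ) : ℝ) ^ (k + 1) * θ i - t⌋ := by
        rw [Int.floor_eq_iff]
        have a1 := Int.floor_le (((e + 1 : ℕ) : ℝ) ^ (k + 1) * θ i - t)
        have a2 := lt_of_le_of_ne h h1
        rw [Int.cast_add, Int.cast_one] at a2
        constructor <;> linarith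
      have h3 : (m₀ : ℝ) = ((e + 1 : ℕ) : ℝ) * s := by
        have : m₀ = ((e + 1 : ℕ) : ℤ) * s := by rw [← hs, h2]; ring
        exact_mod_cast this
      have h4 : ((e + 1 : ℕ) : ℝ) ^ k * θ j - ((e + 1 : ℕ) : ℝ) ^ k * θ i =
          δ / ((e + 1 : ℕ) : ℝ) + s := by
        refine mul_left_cancel₀ (show ((e + 1 : ℕ) : ℝ) ≠ 0 by positivity) ?_
        rw [mul_add, mul_div_cancel₀ _ (by positivity), ← h3]
        linear_combination hm₀
      have h5 : δ / ((e + 1 : ℕ) : ℝ) < δ := div_lt_self hδ (by linarith)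
      have h6 := H i hi j hj hij k
      rw [h4, Int.fract_add_intCast,
        Int.fract_eq_self.2 ⟨by positivity, by linarith⟩] at h6
      linarith
  have LB : ∀ t t' : ℝ, Itin e q θ t → Itin e q θ t' → t' - t < δ → ∀ γ ∈ Ang e q θ,
      t < γ → γ < t' → False := by
    intro t t' h1 h2 h3 γ hγ h4 h5
    obtain ⟨i', hi', k', m, rfl⟩ := P.ang_succ hγ
    obtain ⟨j', hj', hne⟩ : ∃ j' < q, i' ≠ j' := by
      by_cases h : i' = i
      · exact ⟨j, hj, h ▸ hij⟩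
      · exact ⟨i, hi, h⟩
    have a1 := h1 k' i' hi' j' hj'
    have a2 := h2 k' i' hi' j' hj'
    have b1 := H i' hi' j' hj' hne (k' + 1)
    have b2 := H j' hj' i' hi' hne.symm (k' + 1)
    generalize ((e + 1 : ℕ) : ℝ) ^ (k' + 1) * θ i' = x at h4 h5 a1 a2 b1 b2
    generalize ((e + 1 : ℕ) : ℝ) ^ (k' + 1) * θ j' = y at a1 a2 b1 b2
    have c1 : ⌊x - t⌋ = -m := by
      rw [Int.floor_eq_iff]
      push_cast
      constructor <;> linarith
    have c2 : ⌊x - t'⌋ = -m - 1 := by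
      rw [Int.floor_eq_iff]
      push_cast
      constructor <;> linarith
    have c3 : ⌊y - t'⌋ < ⌊y - t⌋ := by
      refine lt_of_le_of_ne (Int.floor_mono (by linarith)) fun h => ?_
      rw [c2, h] at a2
      rw [c1] at a1
      have a3 := dvd_sub a1 a2
      rw [show -m - ⌊y - t⌋ - (-m - 1 - ⌊y - t⌋) = 1 by ring] at a3
      have := Int.le_of_dvd one_pos a3
      omega
    have c4 : y - t' < ⌊y - t⌋ := Int.floor_lt.1 c3
    have c5 := Int.floor_le (y - t)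
    generalize ⌊y - t⌋ = u at c4 c5
    rcases le_total (y - u) (x + m) with h | h
    · rw [show x - y = (x + m - (y - u)) + ((-m - u : ℤ) : ℝ) by push_cast; ring,
        Int.fract_add_intCast, Int.fract_eq_self.2 ⟨by linarith, by linarith⟩] at b2
      linarith
    · rw [show y - x = (y - u - (x + m)) + ((m + u : ℤ) : ℝ) by push_cast; ring,
        Int.fract_add_intCast, Int.fract_eq_self.2 ⟨by linarith, by linarith⟩] at b1
      linarith
  generalize ((e + 1 : ℕ) : ℝ) ^ (k + 1) * θ i = α at hα hβ LA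
  obtain ⟨m₁, h1, h2⟩ := LA t₀ h₀ hI
  have h3 : t₀ + m₁ ∉ Ang e q θ := fun h => h₀ (ang_of_add h)
  have h4 := itin_add hI m₁
  generalize t₀ + m₁ = t₁ at h1 h2 h3 h4
  obtain ⟨a, ⟨a1, a2, a3⟩, a4⟩ := Set.exists_max_image _ id (P.ang_fin α t₁) ⟨α, hα, le_rfl, h1.le⟩
  obtain ⟨b, ⟨b1, b2, b3⟩, b4⟩ :=
    Set.exists_min_image _ id (P.ang_fin t₁ (α + δ)) ⟨α + δ, hβ, h2.le, le_rfl⟩
  have a5 : a < t₁ := lt_of_le_of_ne a3 fun h => h3 (h ▸ a1)
  have b5 : t₁ < b := lt_of_le_of_ne b2 fun h => h3 (h ▸ b1)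
  refine ⟨a, a1, b, b1, a5.trans b5, by linarith, fun t ht h => ?_, fun t ht h => ?_⟩
  · rcases le_total t t₁ with h5 | h5
    · exact absurd (a4 t ⟨h, a2.trans ht.1.le, h5⟩) (not_le.2 ht.1)
    · exact absurd (b4 t ⟨h, h5, ht.2.le.trans b3⟩) (not_le.2 ht.2)
  · obtain ⟨m, h5, h6⟩ := LA t ht h
    have h7 : t + m ∉ Ang e q θ := fun h => ht (ang_of_add h)
    refine ⟨m, ?_, ?_⟩
    · by_contra h8
      have h9 : t + m < a := lt_of_le_of_ne (not_lt.1 h8) fun h => h7 (h ▸ a1)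
      exact LB _ _ (itin_add h m) h4 (by linarith) a a1 h9 a5
    · by_contra h8
      have h9 : b < t + m := lt_of_le_of_ne (not_lt.1 h8) fun h => h7 (h ▸ b1)
      exact LB _ _ h4 (itin_add h m) (by linarith) b b1 b5 h9

end Pool.Agent.MP_28f8a1_an.Mlc
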