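import Pool.Agent.MP_28f8a1_an.Wk.Rays
import Pool.Agent.MP_28f8a1_an.Mlc.Arc
import Pool.Agent.MP_28f8a1_an.Mlc.Diam
import Pool.Agent.MP_28f8a1_an.Mlc.Conn
import Pool.Agent.MP_28f8a1_an.Mlc.Bump

/-! Itineraries for large parameters. -/

set_option autoImplicit false

namespace Pool.Agent.MP_28f8a1_an.Mlc

open MeasureTheory Metric Set Real Filter Topology Pool.Agent.MP_28f8a1_an.H42
open Complex (I)

variable {e n p q N : ℕ} {θ : ℕ → ℝ} {A : Set ℂ} {c w : ℂ} {r r' : ℝ} {ψ ψ' : ℂ → ℂ}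

/-- The root of unity that names the sector of `y`. -/
noncomputable def itH (e : ℕ) (t : ℝ) (y : ℂ) : ℂ :=
  y * Complex.exp (-((2 * π * I * t + (Complex.log (-y ^ (e + 1) / ee t) + π * I)) / (e + 1 : ℕ)))

theorem it_ee_ne (t : ℝ) : ee t ≠ 0 := Complex.exp_ne_zero _

theorem it_ee_pow (a : ℝ) (m : ℕ) : ee a ^ m = ee (m * a) := by
  rw [ee, ee, ← Complex.exp_nat_mul]
  congr 1
  push_cast
  ring

theorem itH_pow {t : ℝ} {y : ℂ} (h : -y ^ (e + 1) / ee t ≠ 0) : itH e t y ^ (e + 1) = 1 := by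
  have hd : ((e + 1 : ℕ) : ℂ) ≠ 0 := Nat.cast_ne_zero.2 (Nat.succ_ne_zero e)
  have hy : y ^ (e + 1) ≠ 0 := fun h0 => h (by rw [h0]; simp)
  have := it_ee_ne t
  rw [itH, mul_pow, ← Complex.exp_nat_mul, mul_neg, mul_div_cancel₀ _ hd, Complex.exp_neg,
    Complex.exp_add, Complex.exp_add, Complex.exp_log h, Complex.exp_pi_mul_I,
    show Complex.exp (2 * π * I * t) = ee t from rfl]
  field_simp

theorem itH_cont {t : ℝ} {y : ℂ} (h : -y ^ (e + 1) / ee t ∈ Complex.slitPlane) :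
    ContinuousAt (itH e t) y := by
  have h1 : ContinuousAt (fun y : ℂ => Complex.log (-y ^ (e + 1) / ee t)) y :=
    ContinuousAt.clog (f := fun y : ℂ => -y ^ (e + 1) / ee t) (by fun_prop) h
  exact continuousAt_id.mul (Complex.continuous_exp.continuousAt.comp
    (((continuousAt_const.add (h1.add continuousAt_const)).div_const _).neg))

theorem itH_scale {t σ : ℝ} {y : ℂ} (hσ : 0 < σ) (hy : y ≠ 0) : itH e t (σ * y) = itH e t y := by
  have hd : ((e + 1 : ℕ) : ℂ) ≠ 0 := Nat.cast_ne_zero.2 (Nat.succ_ne_zero e)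
  have h0 : -y ^ (e + 1) / ee t ≠ 0 := div_ne_zero (neg_ne_zero.2 (pow_ne_zero _ hy)) (it_ee_ne t)
  have h1 : -((σ : ℂ) * y) ^ (e + 1) / ee t = ((σ ^ (e + 1) : ℝ) : ℂ) * (-y ^ (e + 1) / ee t) := by
    push_cast; ring
  have h2 : Complex.exp (Real.log σ : ℂ) = σ := by rw [← Complex.ofReal_exp, Real.exp_log hσ]
  have h3 : (σ : ℂ) ≠ 0 := by exact_mod_cast hσ.ne'
  rw [itH, itH, h1, Complex.log_ofReal_mul (pow_pos hσ _) h0, Real.log_pow]
  have h4 : -((2 * π * I * t + ((((e + 1 : ℕ) : ℝ) * Real.log σ : ℝ) +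
      Complex.log (-y ^ (e + 1) / ee t) + π * I)) / (e + 1 : ℕ) : ℂ) =
      -((2 * π * I * t + (Complex.log (-y ^ (e + 1) / ee t) + π * I)) / (e + 1 : ℕ)) -
        (Real.log σ : ℂ) := by
    rw [Complex.ofReal_mul, Complex.ofReal_natCast]
    field_simp
    ring
  rw [h4, Complex.exp_sub, h2]
  field_simp

theorem itH_ee {t a : ℝ} (h : ∀ m : ℤ, ((e + 1 : ℕ) : ℝ) * a - t ≠ m) :
    -ee a ^ (e + 1) / ee t ∈ Complex.slitPlane ∧
      itH e t (ee a) = Complex.exp (2 * π * I * (⌊((e + 1 : ℕ) : ℝ) * a - t⌋ : ℤ) / (e + 1 : ℕ)) := by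
  have hd : ((e + 1 : ℕ) : ℂ) ≠ 0 := Nat.cast_ne_zero.2 (Nat.succ_ne_zero e)
  set x : ℝ := ((e + 1 : ℕ) : ℝ) * a - t with hx
  have f0 : 0 < Int.fract x := Int.fract_pos.2 (h _)
  have f1 := Int.fract_lt_one x
  have hfl : ((Int.fract x : ℝ) : ℂ) = (e + 1 : ℕ) * (a : ℂ) - t - (⌊x⌋ : ℤ) := by
    rw [Int.fract, Complex.ofReal_sub, Complex.ofReal_intCast]
    congr 1
    rw [hx]
    push_cast
    ring
  have h1 : -ee a ^ (e + 1) / ee t = Complex.exp (((2 * π * Int.fract x - π : ℝ) : ℂ) * I) := by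
    rw [it_ee_pow, ee, ee, neg_div, ← Complex.exp_sub, ← neg_one_mul, ← Complex.exp_pi_mul_I,
      ← Complex.exp_add]
    refine Complex.exp_eq_exp_iff_exists_int.2 ⟨⌊x⌋ + 1, ?_⟩
    rw [Complex.ofReal_sub, Complex.ofReal_mul (2 * π), hfl]
    push_cast
    ring
  have him : ((((2 * π * Int.fract x - π : ℝ) : ℂ) * I).im) = 2 * π * Int.fract x - π := by
    rw [Complex.mul_I_im, Complex.ofReal_re]
  have h2 : Complex.log (-ee a ^ (e + 1) / ee t) = ((2 * π * Int.fract x - π : ℝ) : ℂ) * I := by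
    rw [h1]
    exact Complex.log_exp (by rw [him]; nlinarith [pi_pos]) (by rw [him]; nlinarith [pi_pos])
  refine ⟨Complex.mem_slitPlane_iff_arg.2 ⟨?_, h1 ▸ Complex.exp_ne_zero _⟩, ?_⟩
  · rw [← Complex.log_im, h2, him]
    nlinarith [pi_pos]
  · rw [itH, h2, ee, ← Complex.exp_add]
    congr 1
    rw [Complex.ofReal_sub, Complex.ofReal_mul, hfl]
    push_cast
    push_cast at hd
    field_simp
    ring

theorem it_iter (he : 1 ≤ e) (hA : Dirs e N A) {g : ℂ → ℂ} (hg : Semi e c (Star A 1) g)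
    (hw : w ∈ Star A 1) (k : ℕ) :
    w ^ (e + 1) ^ k ∈ Star A 1 ∧ g (w ^ (e + 1) ^ k) = (fq e c)^[k] (g w) := by
  induction k with
  | zero => simpa using hw
  | succ k ih =>
    rw [pow_succ, pow_mul, Function.iterate_succ_apply', ← ih.2]
    exact ⟨star_pow he hA le_rfl ih.1, hg.semi _ ih.1⟩

theorem it_const (he : 1 ≤ e) (hA : Dirs e N A) {g : ℂ → ℂ} (hg : Semi e c (Star A 1) g) {t : ℝ}
    (hs : ∀ v ∈ Star A 1, (c - g v) / ee t ∈ Complex.slitPlane) {u : ℂ} (hu : u ∈ A)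
    (hu' : -u ^ (e + 1) / ee t ∈ Complex.slitPlane) {σ : ℝ} (hσ : 1 < σ) :
    itH e t (g (σ * u)) = itH e t u := by
  have h1 := hA.norm u hu
  have hu0 : u ≠ 0 := norm_ne_zero_iff.1 (by rw [h1]; exact one_ne_zero)
  have hm : ∀ s : ℝ, 1 < s → (s : ℂ) * u ∈ Star A 1 := fun s hs' => star_mem h1 hu zero_le_one hs'
  have hsl : ∀ s : ℝ, 1 < s → -g (s * u) ^ (e + 1) / ee t ∈ Complex.slitPlane := fun s hs' => by
    have := hs _ (star_pow he hA le_rfl (hm s hs'))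
    rwa [hg.semi _ (hm s hs'), fq, show c - (g (s * u) ^ (e + 1) + c) = -g (s * u) ^ (e + 1) by
      ring] at this
  have hc : ContinuousOn (fun s : ℝ => itH e t (g (s * u))) (Ioi 1) := fun s hs' =>
    ContinuousAt.comp_continuousWithinAt (f := fun s : ℝ => g (s * u)) (itH_cont (hsl s hs'))
      (ContinuousOn.comp (f := fun s : ℝ => (s : ℂ) * u) hg.cont (by fun_prop) hm s hs')
  have hfin : {z : ℂ | z ^ (e + 1) = 1}.Finite :=
    (Polynomial.nthRoots (e + 1) (1 : ℂ)).toFinset.finite_toSet.subset fun z hz => by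
      simpa [Polynomial.mem_nthRoots (Nat.succ_pos e)] using hz
  have hk : ∀ s : ℝ, 1 < s → itH e t (g (s * u)) = itH e t (g (σ * u)) := fun s hs' =>
    isPreconnected_Ioi.constant_of_mapsTo hfin.isDiscrete hc
      (fun s hs' => itH_pow (Complex.slitPlane_ne_zero (hsl s hs'))) hs' hσ
  obtain ⟨R, hR⟩ := hg.far
  have hn : ∀ s : ℝ, 0 < s → ‖(s : ℂ) * u‖ = s := fun s h0 => by
    rw [norm_mul, h1, mul_one, Complex.norm_real, Real.norm_of_nonneg h0.le]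
  have t1 : Tendsto (fun s : ℝ => (s : ℂ) * u) atTop (Bornology.cobounded ℂ) := by
    rw [← tendsto_norm_atTop_iff_cobounded]
    exact tendsto_id.congr' ((eventually_gt_atTop 0).mono fun s h0 => (hn s h0).symm)
  have t2 := ((psi_asy he c).comp t1).mul_const u
  rw [one_mul] at t2
  have t3 := (itH_cont hu').tendsto.comp t2
  refine tendsto_nhds_unique tendsto_const_nhds (t3.congr' ?_)
  filter_upwards [eventually_gt_atTop 1, eventually_gt_atTop R] with s s1 sR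
  have s0 : 0 < s := by linarith
  have s0' : (s : ℂ) ≠ 0 := by exact_mod_cast s0.ne'
  have e1 := hR _ (hm s s1) (by rwa [hn s s0])
  have e2 := hg.ne _ (hm s s1)
  simp only [Function.comp]
  rw [← hk s s1, ← e1, ← itH_scale s0 (mul_ne_zero (div_ne_zero e2 (mul_ne_zero s0' hu0)) hu0)]
  congr 1
  field_simp

theorem it_low (he : 1 ≤ e) (hA : Dirs e N A) {g : ℂ → ℂ} (hg : Semi e c (Star A 1) g) {t s : ℝ}
    (hs : 10000 ≤ s) (hc : ‖c - s * ee t‖ ≤ s / 10) {v : ℂ} (hv : v ∈ Star A 1) (h : ‖v‖ ≤ s / 3) :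
    ‖g v‖ ≤ 2 / 5 * s ∧ s / 2 ≤ ((c - g v) / ee t).re := by
  have hn : ‖(s : ℂ) * ee t‖ = s := by
    rw [norm_mul, ee_norm, mul_one, Complex.norm_real, Real.norm_of_nonneg (by linarith)]
  have h1 : ‖c‖ ≤ 2 * s := by
    have := norm_add_le (c - s * ee t) (s * ee t)
    rw [sub_add_cancel, hn] at this
    linarith
  have h2 : √‖c‖ ≤ s / 50 := Real.sqrt_le_iff.2 ⟨by linarith, by nlinarith⟩
  have h3 : ‖g v‖ ≤ 2 / 5 * s := by
    rcases hg.bound he (fun w hw => star_pow he hA le_rfl hw) hv hv.1 with h4 | h4 <;> linarith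
  refine ⟨h3, ?_⟩
  have h5 : (c - g v) / ee t = s + ((c - s * ee t) - g v) / ee t := by
    have := it_ee_ne t
    field_simp
    ring
  have h6 : ‖((c - s * ee t) - g v) / ee t‖ ≤ s / 2 := by
    rw [norm_div, ee_norm, div_one]
    exact (norm_sub_le _ _).trans (by linarith)
  have h7 := (abs_le.1 ((Complex.abs_re_le_norm _).trans h6)).1
  rw [h5, Complex.add_re, Complex.ofReal_re]
  linarith

theorem it_high {u τ y : ℂ} {a s δ ε : ℝ} (hu : ‖u‖ = 1) (hτ : ‖τ‖ = 1) (hδ : δ ≤ ‖u - τ‖)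
    (hεδ : 4 * ε < δ) (ha : 0 < a) (hs : 0 < s) (hc : ‖c - s * τ‖ ≤ ε * s)
    (hy : ‖y - a * u‖ ≤ ε * a) : (c - y) / τ ∈ Complex.slitPlane := by
  by_contra hn
  rw [Complex.mem_slitPlane_iff, not_or, not_lt, not_not] at hn
  have hτ0 : τ ≠ 0 := norm_ne_zero_iff.1 (by rw [hτ]; exact one_ne_zero)
  obtain ⟨ρ, hρ, h1⟩ : ∃ ρ : ℝ, 0 ≤ ρ ∧ y = c + ρ * τ := by
    refine ⟨-((c - y) / τ).re, by linarith [hn.1], ?_⟩
    have h2 : ((((c - y) / τ).re : ℝ) : ℂ) = (c - y) / τ :=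
      Complex.ext (by simp) (by rw [Complex.ofReal_im, hn.2])
    rw [Complex.ofReal_neg, h2]
    field_simp
    ring
  have nm : ∀ (b : ℝ) (z : ℂ), 0 ≤ b → ‖(b : ℂ) * z‖ = b * ‖z‖ := fun b z hb => by
    rw [norm_mul, Complex.norm_real, Real.norm_of_nonneg hb]
  have h3 : ‖(a : ℂ) * u - ((s + ρ : ℝ) : ℂ) * τ‖ ≤ ε * s + ε * a := by
    have : (a : ℂ) * u - ((s + ρ : ℝ) : ℂ) * τ = (c - s * τ) - (y - a * u) := by
      rw [h1]; push_cast; ring
    rw [this]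
    exact (norm_sub_le _ _).trans (add_le_add hc hy)
  have h4 := abs_norm_sub_norm_le ((a : ℂ) * u) (((s + ρ : ℝ) : ℂ) * τ)
  rw [nm _ _ ha.le, nm _ _ (by linarith), hu, hτ, mul_one, mul_one] at h4
  have h5 : (s + ρ) * ‖u - τ‖ ≤ ‖(a : ℂ) * u - ((s + ρ : ℝ) : ℂ) * τ‖ + |a - (s + ρ)| := by
    have e1 : ((s + ρ : ℝ) : ℂ) * (u - τ) =
        ((a : ℂ) * u - ((s + ρ : ℝ) : ℂ) * τ) - ((a - (s + ρ) : ℝ) : ℂ) * u := by
      push_cast; ring
    rw [← nm _ _ (by linarith), e1]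
    refine (norm_sub_le _ _).trans (le_of_eq ?_)
    rw [norm_mul, hu, mul_one, Complex.norm_real, Real.norm_eq_abs]
  have h6 : a * ‖u - τ‖ ≤ ‖(a : ℂ) * u - ((s + ρ : ℝ) : ℂ) * τ‖ + |a - (s + ρ)| := by
    have e1 : (a : ℂ) * (u - τ) =
        ((a : ℂ) * u - ((s + ρ : ℝ) : ℂ) * τ) - ((a - (s + ρ) : ℝ) : ℂ) * τ := by
      push_cast; ring
    rw [← nm _ _ ha.le, e1]
    refine (norm_sub_le _ _).trans (le_of_eq ?_)
    rw [norm_mul, hτ, mul_one, Complex.norm_real, Real.norm_eq_abs]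
  have h7 : (s + a) * δ ≤ (s + ρ) * ‖u - τ‖ + a * ‖u - τ‖ := by
    nlinarith [norm_nonneg (u - τ), mul_nonneg hρ (norm_nonneg (u - τ))]
  nlinarith

theorem it_same (he : 1 ≤ e) (hA : Dirs e N A) {g : ℂ → ℂ} (hg : Semi e c (Star A 1) g) {t s : ℝ}
    (hs : 10000 ≤ s) (hc : ‖c - s * ee t‖ ≤ s / 10) {u u' : ℂ} (hu : u ∈ A) (hu' : u' ∈ A)
    (hT : Tendsto (fun σ : ℝ => g (σ * u) - g (σ * u')) (𝓝[>] 1) (𝓝 0)) (k : ℕ) {ζ ζ' : ℂ}
    (h : ∀ σ : ℝ, 1 < σ → itH e t (g ((σ * u) ^ (e + 1) ^ k)) = ζ)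
    (h' : ∀ σ : ℝ, 1 < σ → itH e t (g ((σ * u') ^ (e + 1) ^ k)) = ζ') : ζ = ζ' := by
  have hf : Continuous (fq e c)^[k] := Continuous.iterate (by unfold fq; fun_prop) k
  set K : Set ℂ := closedBall 0 (2 / 5 * s) ∩
    {y | s / 2 ≤ (-((fq e c)^[k] y) ^ (e + 1) / ee t).re} with hK
  have hKc : IsCompact K := (isCompact_closedBall _ _).inter_right
    (isClosed_le continuous_const (by fun_prop))
  have hcont : ContinuousOn (fun y => itH e t ((fq e c)^[k] y)) K := fun y hy =>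
    (ContinuousAt.comp (f := (fq e c)^[k]) (itH_cont (Complex.mem_slitPlane_iff.2
      (Or.inl (lt_of_lt_of_le (by linarith) hy.2)))) hf.continuousAt).continuousWithinAt
  have hU := Metric.uniformContinuousOn_iff.1 (hKc.uniformContinuousOn_of_continuous hcont)
  have hev : ∀ᶠ σ : ℝ in 𝓝[>] 1, σ ^ (e + 1) ^ (k + 1) < 2 :=
    nhdsWithin_le_nhds ((continuous_pow _).continuousAt.eventually_lt continuousAt_const
      (by norm_num))
  have hmem : ∀ v ∈ A, ∀ σ : ℝ, 1 < σ → σ ^ (e + 1) ^ (k + 1) < 2 → g (σ * v) ∈ K ∧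
      g ((σ * v) ^ (e + 1) ^ k) = (fq e c)^[k] (g (σ * v)) := fun v hv σ h1 h2 => by
    have hm := star_mem (hA.norm v hv) hv zero_le_one h1
    have hn : ‖(σ : ℂ) * v‖ = σ := by
      rw [norm_mul, hA.norm v hv, mul_one, Complex.norm_real, Real.norm_of_nonneg (by linarith)]
    have h3 : σ ≤ σ ^ (e + 1) ^ (k + 1) := le_self_pow₀ h1.le (by positivity)
    obtain ⟨i1, i2⟩ := it_iter he hA hg hm (k + 1)
    have h4 := (it_low he hA hg hs hc i1 (by rw [norm_pow, hn]; linarith)).2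
    rw [i2, Function.iterate_succ_apply', fq, show c - ((fq e c)^[k] (g (σ * v)) ^ (e + 1) + c) =
      -(fq e c)^[k] (g (σ * v)) ^ (e + 1) by ring] at h4
    exact ⟨⟨mem_closedBall_zero_iff.2 (it_low he hA hg hs hc hm (by rw [hn]; linarith)).1, h4⟩,
      (it_iter he hA hg hm k).2⟩
  by_contra hne
  obtain ⟨δ, hδ, H⟩ := hU _ (dist_pos.2 hne)
  obtain ⟨σ, ⟨a1, a2⟩, a3⟩ := ((hev.and (Metric.tendsto_nhds.1 hT δ hδ)).and
    self_mem_nhdsWithin).exists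
  obtain ⟨b1, b2⟩ := hmem u hu σ a3 a1
  obtain ⟨b3, b4⟩ := hmem u' hu' σ a3 a1
  have := H _ b1 _ b3 (by rwa [dist_zero_right, ← dist_eq_norm] at a2)
  rw [← b2, ← b4, h σ a3, h' σ a3] at this
  exact lt_irrefl _ this

theorem itin (he : 1 ≤ e) (P : Port e n p q θ) {t : ℝ} (ht : t ∉ Ang e q θ) :
    ∃ s₀ : ℝ, ∀ (c : ℂ) (s : ℝ), s₀ ≤ s → Hit e c (s * ee t) → Tog e q θ c → Itin e q θ t := by
  have hA := P.dirs
  have htA : ee t ∉ ee '' Ang e q θ := fun h => ht (ee_mem.1 h)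
  obtain ⟨δ, hδ, hδA⟩ := Metric.isOpen_iff.1 hA.fin.isClosed.isOpen_compl _ htA
  have hsep : ∀ u ∈ ee '' Ang e q θ, δ ≤ ‖u - ee t‖ := fun u hu => by
    by_contra hc
    exact hδA (mem_ball_iff_norm.2 (not_le.1 hc)) hu
  obtain ⟨ε, hε, hε1, hε2⟩ : ∃ ε : ℝ, 0 < ε ∧ ε ≤ 1 / 10 ∧ 4 * ε < δ :=
    ⟨min (1 / 10) (δ / 8), lt_min (by norm_num) (by linarith), min_le_left _ _,
      by linarith [min_le_right (1 / 10) (δ / 8)]⟩
  obtain ⟨s₀, H⟩ := psi_near he hε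
  refine ⟨max s₀ 10000, fun c s hs hh hT k i hi j hj => ?_⟩
  have s1 : s₀ ≤ s := (le_max_left _ _).trans hs
  have s2 : 10000 ≤ s := (le_max_right _ _).trans hs
  have hn : ‖(s : ℂ) * ee t‖ = s := by
    rw [norm_mul, ee_norm, mul_one, Complex.norm_real, Real.norm_of_nonneg (by linarith)]
  have key : ∀ v y : ℂ, v ≠ 0 → ‖y / v - 1‖ ≤ ε → ‖y - v‖ ≤ ε * ‖v‖ := fun v y hv h => by
    rw [show y - v = (y / v - 1) * v by field_simp, norm_mul]
    exact mul_le_mul_of_nonneg_right h (norm_nonneg _)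
  have hc : ‖c - s * ee t‖ ≤ ε * s := by
    have h1 := (H c _ (s * ee t) hh (by rwa [hn]) (by rw [hn]; linarith)).2
    rw [hh.2] at h1
    have := key _ _ (norm_ne_zero_iff.1 (by rw [hn]; linarith)) h1
    rwa [hn] at this
  have hc' : ‖c - s * ee t‖ ≤ s / 10 := hc.trans (by nlinarith)
  have hG : c ∈ Good e (ee '' Ang e q θ) := Or.inr (by
    rwa [hh.phi he, hn, mul_div_cancel_left₀ _ (by exact_mod_cast (show s ≠ 0 by linarith))])
  have hg := gam_semi he hA hG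
  have hsl : ∀ v ∈ Star (ee '' Ang e q θ) 1,
      (c - Gam e (ee '' Ang e q θ) (c, v)) / ee t ∈ Complex.slitPlane := fun v hv => by
    rcases le_total ‖v‖ (s / 3) with h1 | h1
    · exact Complex.mem_slitPlane_iff.2
        (Or.inl (lt_of_lt_of_le (by linarith) (it_low he hA hg s2 hc' hv h1).2))
    · obtain ⟨h2, h3⟩ := H c _ v hh (by rwa [hn]) (by rwa [hn])
      have v0 : 0 < ‖v‖ := by linarith
      have h4 := key _ _ (norm_pos_iff.1 v0) h3
      rw [gam_psi he hA hG hv h2]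
      refine it_high (hA.norm _ hv.2) (ee_norm t) (hsep _ hv.2) hε2 v0 (by linarith) hc ?_
      rwa [mul_div_cancel₀ _ (by exact_mod_cast v0.ne')]
  have hang : ∀ l < q, ∀ m : ℕ, ee (((e + 1 : ℕ) : ℝ) ^ m * θ l) ∈ ee '' Ang e q θ := fun l hl m =>
    ⟨_, ⟨l, hl, m, 0, by simp⟩, rfl⟩
  have hval : ∀ l < q, ∀ σ : ℝ, 1 < σ →
      itH e t (Gam e (ee '' Ang e q θ) (c, (σ * ee (θ l)) ^ (e + 1) ^ k)) = Complex.exp
        (2 * π * I * (⌊((e + 1 : ℕ) : ℝ) ^ (k + 1) * θ l - t⌋ : ℤ) / (e + 1 : ℕ)) := by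
    intro l hl σ hσ
    have e1 : ((e + 1 : ℕ) : ℝ) * (((e + 1 : ℕ) : ℝ) ^ k * θ l) =
        ((e + 1 : ℕ) : ℝ) ^ (k + 1) * θ l := by ring
    obtain ⟨a1, a2⟩ := itH_ee (e := e) (t := t) (a := ((e + 1 : ℕ) : ℝ) ^ k * θ l) fun m hm =>
      ht ⟨l, hl, k + 1, -m, by rw [← e1, Int.cast_neg, ← hm]; ring⟩
    have a3 := it_const he hA hg hsl (hang l hl k) a1
      (one_lt_pow₀ hσ (by positivity : (e + 1) ^ k ≠ 0))
    rw [a2, e1] at a3
    rw [← a3, mul_pow, it_ee_pow, Nat.cast_pow, Complex.ofReal_pow]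
  have h0 : ∀ l < q, ee (θ l) ∈ ee '' Ang e q θ := fun l hl => by simpa using hang l hl 0
  obtain ⟨m, hm⟩ := Complex.exp_eq_exp_iff_exists_int.1
    (it_same he hA hg s2 hc' (h0 i hi) (h0 j hj) (hT i hi j hj) k (hval i hi) (hval j hj))
  refine ⟨m, ?_⟩
  have hd : ((e + 1 : ℕ) : ℂ) ≠ 0 := Nat.cast_ne_zero.2 (Nat.succ_ne_zero e)
  have h2 : (2 * π * I : ℂ) ≠ 0 := Complex.two_pi_I_ne_zero
  apply Int.cast_injective (α := ℂ)
  rw [Int.cast_sub, Int.cast_mul, Int.cast_natCast]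
  refine mul_left_cancel₀ (div_ne_zero h2 hd) ?_
  rw [mul_sub, div_mul_eq_mul_div, div_mul_eq_mul_div, hm]
  field_simp
  ring

end Pool.Agent.MP_28f8a1_an.Mlc

/-! No exceptional point inside the wake. -/

set_option autoImplicit false

namespace Pool.Agent.MP_28f8a1_an.Mlc

open MeasureTheory Metric Set Real Filter Topology Pool.Agent.MP_28f8a1_an.H42
open Complex (I)

variable {e n p q N : ℕ} {θ : ℕ → ℝ} {A : Set ℂ} {c w : ℂ} {r r' : ℝ} {ψ ψ' : ℂ → ℂ}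

theorem root_mem {j : ℕ} (hj : j < q) : ee (θ j) ∈ ee '' Ang e q θ :=
  ⟨θ j, ⟨j, hj, 0, 0, by simp⟩, rfl⟩

theorem root_star {j : ℕ} (hj : j < q) {s : ℝ} (hs : 1 < s) :
    (s : ℂ) * ee (θ j) ∈ Star (ee '' Ang e q θ) 1 :=
  star_mem (ee_norm _) (root_mem hj) zero_le_one hs

theorem root_gam (he : 1 ≤ e) (P : Port e n p q θ) (hψ : Bot e c ψ) {j : ℕ} (hj : j < q)
    {z : ℂ} : Lands ψ (θ j) z ↔
      Tendsto (fun s : ℝ => Gam e (ee '' Ang e q θ) (c, s * ee (θ j))) (𝓝[>] 1) (𝓝 z) := by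
  refine tendsto_congr' ?_
  filter_upwards [self_mem_nhdsWithin] with s hs
  have h1 := root_star (e := e) (θ := θ) hj (mem_Ioi.1 hs)
  rw [gam_psi he P.dirs (Or.inl (hψ.mem he)) h1 (M_dom he (hψ.mem he) h1.1),
    BotR.psi he hψ.botR h1.1]
  rfl

/-- the image of a landing ray -/
theorem root_map (he : 1 ≤ e) (h : Bot e c ψ) {t t' : ℝ} {m : ℤ}
    (ht : ((e + 1 : ℕ) : ℝ) ^ N * t = t' + m) {z : ℂ} (hl : Lands ψ t z) :
    Lands ψ t' ((fq e c)^[N] z) := by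
  have huD : ee t ^ (e + 1) ^ N = ee t' := by
    have h1 : (((e + 1) ^ N : ℕ) : ℂ) * t = t' + m := by exact_mod_cast ht
    rw [ee, ee, ← Complex.exp_nat_mul, show (((e + 1) ^ N : ℕ) : ℂ) * (2 * π * I * t) =
      2 * π * I * t' + m * (2 * π * I) by linear_combination (2 * π * I) * h1, Complex.exp_add,
      Complex.exp_int_mul_two_pi_mul_I, mul_one]
  have hD : (e + 1) ^ N ≠ 0 := by positivity
  have hp : Tendsto (fun r : ℝ => r ^ ((((e + 1) ^ N : ℕ) : ℝ)⁻¹)) (𝓝[>] 1) (𝓝[>] 1) := by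
    refine tendsto_nhdsWithin_iff.mpr ⟨?_, ?_⟩
    · have := (Real.continuousAt_rpow_const 1 ((((e + 1) ^ N : ℕ) : ℝ)⁻¹)
        (Or.inl one_ne_zero)).tendsto
      rw [Real.one_rpow] at this
      exact this.mono_left nhdsWithin_le_nhds
    · filter_upwards [self_mem_nhdsWithin] with r hr
      exact Real.one_lt_rpow (mem_Ioi.mp hr) (by positivity)
  have h2 := (((iter_diff (e := e) (c := c) N).continuous.tendsto z).comp hl).comp hp
  refine h2.congr' ?_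
  filter_upwards [self_mem_nhdsWithin, hp.eventually self_mem_nhdsWithin] with r hr hr'
  have h3 : 1 < ‖((r ^ ((((e + 1) ^ N : ℕ) : ℝ)⁻¹) : ℝ) : ℂ) * ee t‖ := by
    rw [norm_mul, ee_norm, mul_one, Complex.norm_real,
      Real.norm_of_nonneg (zero_le_one.trans (mem_Ioi.1 hr').le)]
    exact hr'
  show (fq e c)^[N] (ψ (_ * ee t)) = ψ (r * ee t')
  rw [← h.iter he N h3, mul_pow, huD, ← Complex.ofReal_pow,
    Real.rpow_inv_natCast_pow (zero_le_one.trans (mem_Ioi.1 hr).le) hD]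

/-- the rays land together at a fixed point -/
theorem root_land (he : 1 ≤ e) (P : Port e n p q θ) (hψ : Bot e c ψ) (hT : Tog e q θ c) :
    ∃ z, (fq e c)^[n] z = z ∧ ∀ j < q, Lands ψ (θ j) z := by
  obtain ⟨m, hm⟩ := P.rotN P.hq
  obtain ⟨z, -, hz⟩ := ray_land he (M_norm he (hψ.mem he)) hψ P.hN hm
  have h : ∀ j < q, Lands ψ (θ j) z := by
    intro j hj
    have h1 := (hT j hj 0 P.hq).add ((root_gam he P hψ P.hq).1 hz)
    rw [zero_add] at h1
    exact (root_gam he P hψ hj).2 (by simpa using h1)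
  obtain ⟨m', hm'⟩ := P.rot 0 P.hq
  exact ⟨z, tendsto_nhds_unique (root_map he hψ hm' hz) (h _ (Nat.mod_lt _ P.hq)), h⟩

/-- the rays depend on the parameter in a uniformly Lipschitz way -/
theorem root_lip (he : 1 ≤ e) (P : Port e n p q θ) {O : Set ℂ} (hO : IsOpen O)
    (hG : O ⊆ Good e (ee '' Ang e q θ)) (hc : c ∈ O) :
    ∃ L : ℝ, ∀ᶠ c' in 𝓝 c, ∀ (ψ ψ' : ℂ → ℂ) (z z' : ℂ), Bot e c ψ → Bot e c' ψ' →
      Lands ψ (θ 0) z → Lands ψ' (θ 0) z' → dist z' z ≤ L * dist c' c := by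
  obtain ⟨ρ, hρ, hb⟩ := Metric.isOpen_iff.1 hO c hc
  set B : ℝ := 3 + 10 * (√(‖c‖ + ρ) + 1) with hB
  refine ⟨2 * B / ρ, ?_⟩
  filter_upwards [ball_mem_nhds c hρ] with c' hc' ψ ψ' z z' h1 h2 h3 h4
  have hbd : ∀ s ∈ Ioo (1 : ℝ) 2, ∀ x ∈ ball c ρ,
      ‖Gam e (ee '' Ang e q θ) (x, s * ee (θ 0))‖ ≤ B := by
    intro s hs x hx
    have h5 := root_star (e := e) (θ := θ) P.hq hs.1
    have h6 : ‖(s : ℂ) * ee (θ 0)‖ = s := by
      rw [norm_mul, ee_norm, mul_one, Complex.norm_real, Real.norm_of_nonneg (by linarith [hs.1])]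
    have h7 : √‖x‖ ≤ √(‖c‖ + ρ) := by
      apply Real.sqrt_le_sqrt
      have := norm_le_norm_add_norm_sub' x c
      rw [mem_ball, dist_eq_norm] at hx
      linarith
    have h8 := Real.sqrt_nonneg (‖c‖ + ρ)
    rcases Semi.bound he (gam_semi he P.dirs (hG (hb hx)))
      (fun w hw => star_pow he P.dirs le_rfl hw) h5 h5.1 with h | h
    · rw [h6] at h
      linarith [hs.2]
    · linarith
  refine le_of_tendsto (((root_gam he P h2 P.hq).1 h4).dist ((root_gam he P h1 P.hq).1 h3)) ?_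
  filter_upwards [Ioo_mem_nhdsGT (show (1 : ℝ) < 2 by norm_num)] with s hs
  refine Complex.dist_le_div_mul_dist_of_mapsTo_ball
    (f := fun x => Gam e (ee '' Ang e q θ) (x, s * ee (θ 0)))
    ((gam_diff he P.dirs (root_star P.hq hs.1)).mono
      (hb.trans (interior_maximal hG hO))) (fun x hx => ?_) hc'
  rw [mem_closedBall, dist_eq_norm]
  refine (norm_sub_le _ _).trans ?_
  linarith [hbd s hs x hx, hbd s hs c (mem_ball_self hρ)]

theorem root_small {ρ : ℂ → ℂ} {s : ℂ} (hs : s ≠ 0) (h : HasDerivAt ρ s c) (h1 : ‖ρ c‖ = 1) :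
    ∃ᶠ c' in 𝓝 c, ‖ρ c'‖ < 1 := by
  have hs' : 0 < ‖s‖ := norm_pos_iff.2 hs
  have h2 := (hasDerivAt_iff_isLittleO.1 h).bound (half_pos hs')
  have ht : Tendsto (fun t : ℝ => c + t * (-(ρ c) / s)) (𝓝[>] 0) (𝓝 c) := by
    have : Continuous fun t : ℝ => c + t * (-(ρ c) / s) := by fun_prop
    simpa using (this.tendsto 0).mono_left nhdsWithin_le_nhds
  refine ht.frequently (Eventually.frequently ?_)
  filter_upwards [ht.eventually h2, Ioo_mem_nhdsGT (zero_lt_one' ℝ)] with t h3 h4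
  rw [add_sub_cancel_left, norm_mul, norm_div, norm_neg, h1, Complex.norm_real,
    Real.norm_of_nonneg h4.1.le] at h3
  have e1 : ρ (c + t * (-(ρ c) / s)) = ((1 - t : ℝ) : ℂ) * ρ c +
      (ρ (c + t * (-(ρ c) / s)) - ρ c - (t * (-(ρ c) / s)) • s) := by
    rw [smul_eq_mul]
    push_cast
    field_simp
    ring
  rw [e1]
  refine (norm_add_le _ _).trans_lt ?_
  rw [norm_mul, h1, Complex.norm_real, Real.norm_of_nonneg (by linarith [h4.2])]
  have e2 : ‖s‖ / 2 * (t * (1 / ‖s‖)) = t / 2 := by field_simp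
  linarith [h4.1]

theorem in_wake (he : 1 ≤ e) (P : Port e n p q θ) (hq : n * (2 * Real.log (e + 1 : ℕ)) ≤ q)
    {O : Set ℂ} (hO : IsOpen O) (hG : O ⊆ Good e (ee '' Ang e q θ)) (hT : ∀ c ∈ O, Tog e q θ c)
    {y : ℂ × ℂ} (hy : y ∈ closure (Lam e n q θ)) (hE : y ∈ Ec e n) (h1 : mu e n y ≠ 1)
    (hyO : y.1 ∈ O) : y ∈ Lam e n q θ := by
  have hper : y ∈ Per e n := hE.2.2.resolve_left h1
  have hM : y.1 ∈ Mset e := closure_minimal (t := Prod.fst ⁻¹' Mset e)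
    (fun x hx => Lam.mem he hx) ((M_closed he).preimage continuous_fst) hy
  have hge : ∀ x : ℂ × ℂ, Ray e q θ x → (fq e x.1)^[n] x.2 = x.2 → 1 ≤ ‖mu e n x‖ :=
    fun x hx hf => (Hor.near P.hp P.hpq (by positivity) hq (Ray.hor he P hx hf)).2.1
  obtain ⟨ψ, hψ⟩ := bot_exists he hM
  obtain ⟨z, -, hz⟩ := root_land he P hψ (hT _ hyO)
  obtain ⟨L, hL⟩ := root_lip he P hO hG hyO
  have hzy : z = y.2 := by
    have h2 : ∃ᶠ x in 𝓝 y, dist x.2 z ≤ L * dist x.1 y.1 := by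
      refine ((mem_closure_iff_frequently.1 hy).and_eventually
        ((continuous_fst.tendsto y).eventually hL)).mono fun x hx => ?_
      obtain ⟨ψ', a, b⟩ := hx.1.2.2
      exact hx.2 ψ ψ' z x.2 hψ a (hz 0 P.hq) (b 0 P.hq)
    have h3 : IsClosed {x : ℂ × ℂ | dist x.2 z ≤ L * dist x.1 y.1} :=
      isClosed_le (by fun_prop) (by fun_prop)
    have h4 : dist y.2 z ≤ L * dist y.1 y.1 :=
      h3.closure_subset (mem_closure_iff_frequently.2 h2)
    rw [dist_self, mul_zero] at h4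
    exact (dist_le_zero.1 h4).symm
  subst hzy
  have hR : Ray e q θ y := ⟨ψ, hψ, hz⟩
  refine ⟨hper, lt_of_le_of_ne (hge y hR hE.1) fun h0 => ?_, hR⟩
  obtain ⟨g, d, g0, g1, g2⟩ := t1055_follow hE.1 h1
  obtain ⟨s, hs, hd⟩ := li_trans he P.hn g1 (by rw [g0]; exact hper) g2
    (by rw [g0]; exact h0.symm) (by rw [g0]; exact h1)
  obtain ⟨Q, q1, q2, q3⟩ := div_smooth e n
  have hQ : ∀ᶠ x in 𝓝 (y.1, y.2, y.2), Q x ≠ 1 :=
    q1.continuous.continuousAt.eventually_ne (by rw [q3]; exact h1)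
  rw [nhds_prod_eq, nhds_prod_eq] at hQ
  obtain ⟨p1, a1, p2, a2, hQ⟩ := eventually_prod_iff.1 hQ
  obtain ⟨p3, a3, p4, a4, hQ'⟩ := eventually_prod_iff.1 a2
  obtain ⟨δ, hδ, a5⟩ := Metric.eventually_nhds_iff.1 a4
  have a6 : ∀ᶠ c' in 𝓝 y.1, L * dist c' y.1 < δ := by
    have : Continuous fun c' : ℂ => L * dist c' y.1 := by fun_prop
    exact (this.tendsto y.1).eventually (gt_mem_nhds (by simpa using hδ))
  have a7 : ∀ᶠ c' in 𝓝 y.1, p3 (g c') := by
    have := g1.hasDerivAt.continuousAt.tendsto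
    rw [g0] at this
    exact this.eventually a3
  obtain ⟨c', b1, b2, b3, b4, b5, b6, b7⟩ := ((root_small hs hd (by rw [g0]; exact h0.symm)).and_eventually
    (g2.and (hL.and (a1.and (a6.and (a7.and (hO.mem_nhds hyO))))))).exists
  obtain ⟨m, m1, m2, m3⟩ := arc_min P.hn b2 b1
  obtain ⟨ψ', hψ'⟩ := bot_exists he (arc_mem he m1 m2 m3)
  obtain ⟨z', f1, f2⟩ := root_land he P hψ' (hT _ b7)
  have h5 := b3 ψ ψ' y.2 z' hψ hψ' (hz 0 P.hq) (f2 0 P.hq)
  have h6 : Q (c', g c', z') ≠ 1 := hQ b4 (hQ' b6 (a5 (h5.trans_lt b5)))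
  have h7 := q2 c' (g c') z'
  rw [f1, b2] at h7
  have h8 : z' = g c' := by
    by_contra h9
    exact h6 (mul_right_cancel₀ (sub_ne_zero.2 h9) (by rw [one_mul]; exact h7.symm))
  have h10 := hge (c', z') ⟨ψ', hψ', f2⟩ f1
  rw [h8] at h10
  exact absurd b1 (not_lt.2 h10)

end Pool.Agent.MP_28f8a1_an.Mlc

/-! The wake of a portrait has one root. -/

set_option autoImplicit false

namespace Pool.Agent.MP_28f8a1_an.Mlc

open MeasureTheory Metric Set Real Filter Topology Pool.Agent.MP_28f8a1_an.H42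
open Complex (I)

variable {e n p q N : ℕ} {θ : ℕ → ℝ} {A : Set ℂ} {c w : ℂ} {r r' : ℝ} {ψ ψ' : ℂ → ℂ}

theorem wk_ee_int (t : ℝ) (m : ℤ) : ee (t + m) = ee t := by
  rw [ee, ee, show (2 * π * I * ((t + m : ℝ) : ℂ)) = 2 * π * I * t + m * (2 * π * I) by
    push_cast; ring, Complex.exp_add, Complex.exp_int_mul_two_pi_mul_I, mul_one]

theorem wk_ee_cont : Continuous ee := by
  unfold ee
  fun_prop

theorem wk_norm {s : ℝ} (hs : 1 < s) (t : ℝ) : ‖(s : ℂ) * ee t‖ = s := by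
  rw [norm_mul, ee_norm, mul_one, Complex.norm_real, Real.norm_of_nonneg (by linarith)]

theorem wk_dir {s : ℝ} (hs : 1 < s) (t : ℝ) : (s : ℂ) * ee t / ‖(s : ℂ) * ee t‖ = ee t := by
  rw [wk_norm hs, mul_div_cancel_left₀ _ (by exact_mod_cast (show s ≠ 0 by linarith))]

theorem wk_polar (hw : w ≠ 0) : ∃ t : ℝ, w / ‖w‖ = ee t := by
  refine ⟨Complex.arg w / (2 * π), ?_⟩
  have h : (π : ℂ) ≠ 0 := by exact_mod_cast Real.pi_ne_zero
  rw [ee, div_eq_iff (by exact_mod_cast norm_ne_zero_iff.2 hw), mul_comm,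
    show (2 * π * I * ((Complex.arg w / (2 * π) : ℝ) : ℂ)) = Complex.arg w * I by
      push_cast; field_simp, Complex.norm_mul_exp_arg_mul_I]

theorem wk_lands (he : 1 ≤ e) (h : Bot e c ψ) {t : ℝ} {z : ℂ} (hl : Lands ψ t z) (k : ℕ) (m : ℤ) :
    Tendsto (fun s : ℝ => ψ (s * ee (((e + 1 : ℕ) : ℝ) ^ k * t + m))) (𝓝[>] 1)
      (𝓝 ((fq e c)^[k] z)) := by
  have hD : (e + 1) ^ k ≠ 0 := by positivity
  have hD' : (0 : ℝ) < (((e + 1) ^ k : ℕ) : ℝ)⁻¹ := by positivity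
  have h1 : Tendsto (fun s : ℝ => s ^ (((e + 1) ^ k : ℕ) : ℝ)⁻¹) (𝓝[>] 1) (𝓝[>] 1) := by
    refine tendsto_nhdsWithin_iff.2 ⟨?_, ?_⟩
    · have := (Real.continuousAt_rpow_const 1 (((e + 1) ^ k : ℕ) : ℝ)⁻¹ (Or.inl one_ne_zero)).tendsto
      rw [Real.one_rpow] at this
      exact this.mono_left nhdsWithin_le_nhds
    · filter_upwards [self_mem_nhdsWithin] with s hs
      exact Real.one_lt_rpow hs hD'
  refine (((iter_diff k z).continuousAt.tendsto.comp hl).comp h1).congr' ?_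
  filter_upwards [self_mem_nhdsWithin] with s hs
  have hs' : (1 : ℝ) < s := hs
  have h2 := h.iter he k (w := (s ^ (((e + 1) ^ k : ℕ) : ℝ)⁻¹ : ℝ) * ee t)
    (by rw [wk_norm (Real.one_lt_rpow hs hD')]; exact Real.one_lt_rpow hs hD')
  refine h2.symm.trans ?_
  rw [mul_pow, ← Complex.ofReal_pow, Real.rpow_inv_natCast_pow (by linarith) hD, wk_ee_int, ee, ee,
    ← Complex.exp_nat_mul]
  congr 3
  push_cast
  ring

theorem wk_start (he : 1 ≤ e) (P : Port e n p q θ) {x : ℂ × ℂ} (hx : x ∈ Lam e n q θ) :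
    x.1 ∈ interior (Good e (ee '' Ang e q θ)) ∧ ∀ᶠ c in 𝓝 x.1, Tog e q θ c := by
  obtain ⟨ψ, hψ, hl⟩ := hx.2.2
  have h0 : 1 < ‖Pd e x.1 x.2 (n * q)‖ := by
    rw [t57_pow (Per.fix hx.1), norm_pow]
    exact one_lt_pow₀ hx.2.1 P.hq.ne'
  have h : ∀ u ∈ ee '' Ang e q θ, ∃ z, Tendsto (fun s : ℝ => ψ (s * u)) (𝓝[>] 1) (𝓝 z) ∧
      1 < ‖Pd e x.1 z (n * q)‖ := by
    rintro _ ⟨_, ⟨j, hj, k, m, rfl⟩, rfl⟩
    refine ⟨_, wk_lands he hψ (hl j hj) k m, ?_⟩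
    rwa [t57_shift P.hN (fixN (Per.fix hx.1) q) (norm_pos_iff.1 (by linarith))]
  choose! z z1 z2 using h
  obtain ⟨h1, h2⟩ := stab_good he P.dirs P.hN hψ z1 z2
  have hm : ∀ j < q, ee (θ j) ∈ ee '' Ang e q θ := fun j hj =>
    mem_image_of_mem _ ⟨j, hj, 0, 0, by simp⟩
  have h3 : ∀ j < q, z (ee (θ j)) = x.2 := fun j hj =>
    tendsto_nhds_unique (z1 _ (hm j hj)) (hl j hj)
  refine ⟨h1, ?_⟩
  have h4 : ∀ i ∈ Finset.range q, ∀ᶠ c in 𝓝 x.1, ∀ j ∈ Finset.range q, _ := fun i hi =>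
    (eventually_all_finset _).2 fun j hj => h2 _ (hm i (Finset.mem_range.1 hi)) _
      (hm j (Finset.mem_range.1 hj))
      ((h3 i (Finset.mem_range.1 hi)).trans (h3 j (Finset.mem_range.1 hj)).symm)
  filter_upwards [(eventually_all_finset _).2 h4] with c hc i hi j hj
  exact hc i (Finset.mem_range.2 hi) j (Finset.mem_range.2 hj)

theorem wk_tog (he : 1 ≤ e) (P : Port e n p q θ) {x : ℂ × ℂ} (hx : x ∈ Lam e n q θ) :
    ∀ c ∈ connectedComponentIn (interior (Good e (ee '' Ang e q θ))) x.1, Tog e q θ c := by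
  obtain ⟨h1, h2⟩ := wk_start he P hx
  intro c hc i hi j hj
  have hO := (isOpen_interior (s := Good e (ee '' Ang e q θ))).connectedComponentIn (x := x.1)
  have hs := connectedComponentIn_subset (interior (Good e (ee '' Ang e q θ))) x.1
  have hm : ∀ j < q, ∀ s ∈ Ioo (1 : ℝ) 2, (s : ℂ) * ee (θ j) ∈ Star (ee '' Ang e q θ) 1 :=
    fun j hj s hs => star_mem (ee_norm _)
      (ee_mem.2 ⟨j, hj, 0, 0, by simp⟩) zero_le_one hs.1
  refine vitali hO isPreconnected_connectedComponentIn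
    (h := fun s c => Gam e (ee '' Ang e q θ) (c, s * ee (θ i)) -
      Gam e (ee '' Ang e q θ) (c, s * ee (θ j)))
    (fun s h => ((gam_diff he P.dirs (hm i hi s h)).sub (gam_diff he P.dirs (hm j hj s h))).mono hs)
    (fun a ha => ⟨2 * (10 * (√(‖a‖ + 1) + 1)), ?_⟩) (mem_connectedComponentIn h1)
    (h2.mono fun c hc => hc i hi j hj) c hc
  filter_upwards [hO.mem_nhds ha, ball_mem_nhds a one_pos] with b hb hb' s h
  have h3 : √‖b‖ ≤ √(‖a‖ + 1) := Real.sqrt_le_sqrt (norm_le_of_mem_closedBall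
    (ball_subset_closedBall hb'))
  have h4 : ∀ j < q, ‖Gam e (ee '' Ang e q θ) (b, s * ee (θ j))‖ ≤ 10 * (√(‖a‖ + 1) + 1) := by
    intro j hj
    have := (gam_semi he P.dirs (interior_subset (hs hb))).bound he
      (fun w hw => star_pow he P.dirs le_rfl hw) (hm j hj s h) (hm j hj s h).1
    rw [wk_norm h.1] at this
    rcases this with h5 | h5
    · linarith [h.2, Real.sqrt_nonneg (‖a‖ + 1)]
    · linarith
  linarith [norm_sub_le (Gam e (ee '' Ang e q θ) (b, s * ee (θ i)))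
    (Gam e (ee '' Ang e q θ) (b, s * ee (θ j))), h4 i hi, h4 j hj]

theorem wk_front {G : Set ℂ} (hG : IsOpen G) {x a : ℂ}
    (ha : a ∈ frontier (connectedComponentIn G x)) : a ∉ G := by
  intro h
  have hO := hG.connectedComponentIn (x := x)
  rw [hO.frontier_eq] at ha
  obtain ⟨b, h1, h2⟩ := mem_closure_iff.1 ha.1 _ (hG.connectedComponentIn (x := a))
    (mem_connectedComponentIn h)
  refine ha.2 ?_
  rw [connectedComponentIn_eq h2, ← connectedComponentIn_eq h1]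
  exact mem_connectedComponentIn h

theorem wk_good (he : 1 ≤ e) (hA : Dirs e N A) (h : Hit e c w) (hw : w / ‖w‖ ∉ A) :
    c ∈ interior (Good e A) := by
  have h1 := (M_closed he).isOpen_compl.mem_nhds (h.not_mem he)
  have h2 := ((phi_diff he).continuousOn.continuousAt h1)
  have h3 : ContinuousAt (fun c => Phi e c / ‖Phi e c‖) c :=
    h2.div (Complex.continuous_ofReal.continuousAt.comp h2.norm) (by
      rw [h.phi he]
      exact_mod_cast (one_pos.trans (dom_one h.1)).ne')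
  refine mem_interior_iff_mem_nhds.2 ?_
  filter_upwards [h3 (hA.fin.isClosed.isOpen_compl.mem_nhds (by
    show Phi e c / ‖Phi e c‖ ∉ A
    rwa [h.phi he]))] with b hb
  exact Or.inr hb

theorem wk_closed {α : ℝ → ℂ} {a : ℂ} (α1 : ContinuousOn α (Ioi 1)) (α3 : Tendsto α (𝓝[>] 1) (𝓝 a))
    (α5 : Tendsto α atTop (Bornology.cobounded ℂ)) : IsClosed (insert a (α '' Ioi 1)) := by
  refine isClosed_of_closure_subset fun b hb => ?_
  by_contra h
  have hab : b ≠ a := fun h' => h (Or.inl h')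
  obtain ⟨U, V, hU, hV, hUV⟩ := t2_separation_nhds hab
  obtain ⟨s, hs, h1⟩ := (mem_nhdsGT_iff_exists_Ioo_subset).1 (α3 hV)
  obtain ⟨R, h2⟩ := eventually_atTop.1 (α5.eventually (isBounded_ball (x := b) (r := 1)))
  have hK : IsClosed (α '' Icc s R) := (isCompact_Icc.image_of_continuousOn
    (α1.mono fun t ht => lt_of_lt_of_le hs ht.1)).isClosed
  have h3 : b ∉ α '' Icc s R := fun ⟨t, ht, h4⟩ => h (Or.inr ⟨t, lt_of_lt_of_le hs ht.1, h4⟩)
  obtain ⟨y, ⟨⟨y1, y2⟩, y3⟩, y4⟩ := mem_closure_iff_nhds.1 hb _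
    (inter_mem (inter_mem hU (ball_mem_nhds b one_pos)) (hK.isOpen_compl.mem_nhds h3))
  rcases y4 with rfl | ⟨t, ht, rfl⟩
  · exact disjoint_left.1 hUV y1 (mem_of_mem_nhds hV)
  · rcases lt_or_ge t s with h4 | h4
    · exact disjoint_left.1 hUV y1 (h1 ⟨ht, h4⟩)
    · rcases le_total t R with h5 | h5
      · exact y3 ⟨t, ⟨h4, h5⟩, rfl⟩
      · exact h2 t h5 y2

theorem wake (he : 1 ≤ e) (P : Port e n p q θ) (hq : n * (2 * Real.log (e + 1 : ℕ)) ≤ q)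
    (hE : closure (Lam e n q θ) ⊆ Ec e n) (h1 : ∀ y ∈ closure (Lam e n q θ), mu e n y ≠ 1) :
    ∃ c₀ : ℂ, ∀ y ∈ closure (Lam e n q θ), y ∉ Lam e n q θ → y.1 = c₀ := by
  rcases (Lam e n q θ).eq_empty_or_nonempty with h0 | ⟨x₀, hx₀⟩
  · exact ⟨0, by simp [h0]⟩
  obtain ⟨Γ, Γ1, Γ2, Γ3, Γ4⟩ := gam_exists he
  have hA := P.dirs
  obtain ⟨G, hG⟩ : ∃ G, G = interior (Good e (ee '' Ang e q θ)) := ⟨_, rfl⟩
  have hGo : IsOpen G := hG ▸ isOpen_interior
  have hfin := t1323_fin he P.hN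
  have Γ5 : ∀ s : ℝ, 1 < s → ∀ t, Hit e (Γ (s * ee t)) (s * ee t) := fun s hs t =>
    Γ2 _ (by rwa [wk_norm hs])
  have Γ6 : ContinuousOn (fun x : ℝ × ℝ => Γ (x.1 * ee x.2)) (Ioi 1 ×ˢ univ) :=
    Γ1.comp ((Complex.continuous_ofReal.comp continuous_fst).mul
      (wk_ee_cont.comp continuous_snd)).continuousOn fun x hx => by
        show 1 < ‖(x.1 : ℂ) * ee x.2‖
        rw [wk_norm hx.1]
        exact hx.1
  have Γ7 : ∀ t, ContinuousOn (fun s : ℝ => Γ (s * ee t)) (Ioi 1) := fun t =>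
    Γ6.comp (f := fun s : ℝ => (s, t)) (by fun_prop) fun s hs => ⟨hs, trivial⟩
  have hin : ∀ s : ℝ, 1 < s → ∀ t ∉ Ang e q θ, Γ (s * ee t) ∈ G := fun s hs t ht =>
    hG ▸ wk_good he hA (Γ5 s hs t) (by rwa [wk_dir hs, ee_mem])
  have hout : ∀ s : ℝ, 1 < s → ∀ t ∈ Ang e q θ, Γ (s * ee t) ∉ G := fun s hs t ht h => by
    rcases interior_subset (hG ▸ h) with h | h
    · exact (Γ5 s hs t).not_mem he h
    · rw [(Γ5 s hs t).phi he, wk_dir hs] at h
      exact h (mem_image_of_mem _ ht)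
  have hpol : ∀ c ∉ Mset e, ∀ t, Phi e c / ‖Phi e c‖ = ee t →
      1 < ‖Phi e c‖ ∧ Γ (‖Phi e c‖ * ee t) = c := fun c hc t ht => by
    have h := dom_one (hit_phi he hc).1
    refine ⟨h, ?_⟩
    rw [← ht, mul_div_cancel₀ _ (by exact_mod_cast (one_pos.trans h).ne')]
    exact Γ3 _ _ (hit_phi he hc)
  have hM : ∀ x a, a ∈ frontier (connectedComponentIn G x) → a ∈ Mset e →
      a ∈ {c : ℂ | ∃ z, (fq e c)^[n * q] z = z ∧ Pd e c z (n * q) = 1} := fun x a ha ha' =>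
    bad_par he hA P.hN ha' (hG ▸ wk_front hGo ha)
  have hI : ∀ x ∈ Lam e n q θ, ∀ s : ℝ, 1 < s → ∀ t ∉ Ang e q θ,
      Γ (s * ee t) ∈ connectedComponentIn G x.1 → Itin e q θ t := by
    intro x hx s hs t ht h
    obtain ⟨s₀, h2⟩ := itin he P ht
    have h3 := (isPreconnected_Ioi.image _ (Γ7 t)).subset_connectedComponentIn
      (mem_image_of_mem _ hs) (forall_mem_image.2 fun s hs => hin s hs t ht)
    rw [← connectedComponentIn_eq h] at h3
    have h4 : (1 : ℝ) < max s₀ 2 := lt_max_of_lt_right one_lt_two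
    exact h2 _ _ (le_max_left _ _) (Γ5 _ h4 t)
      (wk_tog he P hx _ (hG ▸ h3 (mem_image_of_mem _ h4)))
  have hJ : ∀ x ∈ Lam e n q θ, ∀ c ∈ connectedComponentIn G x.1, c ∉ Mset e →
      ∃ s : ℝ, 1 < s ∧ ∃ t ∉ Ang e q θ, Itin e q θ t ∧ Γ (s * ee t) = c := by
    intro x hx c hc hc'
    obtain ⟨t, ht⟩ := wk_polar (w := Phi e c)
      (norm_pos_iff.1 (one_pos.trans (dom_one (hit_phi he hc').1)))
    obtain ⟨a1, a2⟩ := hpol c hc' t ht
    have a3 : t ∉ Ang e q θ := fun h =>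
      hout _ a1 t h (a2.symm ▸ connectedComponentIn_subset _ _ hc)
    exact ⟨_, a1, t, a3, hI x hx _ a1 t a3 (a2.symm ▸ hc), a2⟩
  have hxG : ∀ x ∈ Lam e n q θ, x.1 ∈ connectedComponentIn G x.1 := fun x hx =>
    mem_connectedComponentIn (hG ▸ (wk_start he P hx).1)
  have hne : ∀ x ∈ Lam e n q θ, ∃ c ∈ connectedComponentIn G x.1, c ∉ Mset e := by
    intro x hx
    by_contra h
    push Not at h
    refine fin_frontier hGo.connectedComponentIn ⟨_, hxG x hx⟩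
      ((isBounded_closedBall (x := (0 : ℂ)) (r := 2)).subset fun c hc =>
        mem_closedBall_zero_iff.2 (M_norm he (h c hc))) (hfin.subset fun a ha => hM _ a ha ?_)
    exact closure_minimal h (M_closed he) (frontier_subset_closure ha)
  obtain ⟨c₁, c1, c2⟩ := hne x₀ hx₀
  obtain ⟨-, -, t₀, t1, t2, -⟩ := hJ x₀ hx₀ c₁ c1 c2
  obtain ⟨a, ha, b, hb, hab, hba, hgap, hall⟩ := char_arc he P t1 t2
  have hS : ∀ x ∈ Lam e n q θ, ∀ c ∈ connectedComponentIn G x.1, c ∉ Mset e →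
      c ∈ (fun x : ℝ × ℝ => Γ (x.1 * ee x.2)) '' (Ioi 1 ×ˢ Ioo a b) := by
    intro x hx c hc hc'
    obtain ⟨s, hs, t, a1, a2, a3⟩ := hJ x hx c hc hc'
    obtain ⟨m, hm⟩ := hall t a1 a2
    exact ⟨(s, t + m), ⟨hs, hm⟩, by simpa only [wk_ee_int] using a3⟩
  have hSO : ∀ x ∈ Lam e n q θ, connectedComponentIn G x.1 = connectedComponentIn G c₁ := by
    intro x hx
    obtain ⟨c, a1, a2⟩ := hne x hx
    have a3 := ((isPreconnected_Ioi.prod isPreconnected_Ioo).image _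
      (Γ6.mono (prod_mono_right (subset_univ (Ioo a b))))).subset_connectedComponentIn
      (hS x₀ hx₀ c₁ c1 c2) (forall_mem_image.2 fun y hy => hin _ hy.1 _ (hgap _ hy.2))
    rw [connectedComponentIn_eq a1, connectedComponentIn_eq (a3 (hS x hx c a1 a2))]
  obtain ⟨O, hO⟩ : ∃ O, O = connectedComponentIn G x₀.1 := ⟨_, rfl⟩
  have hOo : IsOpen O := hO ▸ hGo.connectedComponentIn
  have hOG : O ⊆ G := hO ▸ connectedComponentIn_subset _ _
  obtain ⟨ca, a1, a2, a3⟩ := par_land he hA P.hN Γ1 Γ2 (mem_image_of_mem ee ha)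
  obtain ⟨cb, b1, b2, b3⟩ := par_land he hA P.hN Γ1 Γ2 (mem_image_of_mem ee hb)
  rw [← hG] at a2 b2
  have hinf : ∀ t, Tendsto (fun s : ℝ => Γ (s * ee t)) atTop (Bornology.cobounded ℂ) := fun t =>
    Γ4.comp (tendsto_norm_atTop_iff_cobounded.1 (tendsto_id.congr' (by
      filter_upwards [eventually_gt_atTop 1] with s hs
      exact (wk_norm hs t).symm)))
  have hnM : ∀ t, ∀ c ∈ Mset e, c ∉ (fun s : ℝ => Γ (s * ee t)) '' Ioi 1 := by
    rintro t _ hc ⟨s, hs, rfl⟩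
    exact (Γ5 s hs t).not_mem he hc
  have hF1 : ∀ c ∈ frontier O, c ∉ Mset e → c ∈ (fun s : ℝ => Γ (s * ee a)) '' Ioi 1 ∨
      c ∈ (fun s : ℝ => Γ (s * ee b)) '' Ioi 1 := by
    intro c hc hc'
    have h2 := (M_closed he).isOpen_compl.mem_nhds hc'
    have h3 := (phi_diff he).continuousOn.continuousAt h2
    have h4 : ContinuousAt (fun c => Phi e c / ‖Phi e c‖) c :=
      h3.div (Complex.continuous_ofReal.continuousAt.comp h3.norm)
        (by exact_mod_cast (one_pos.trans (dom_one (hit_phi he hc').1)).ne')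
    have h5 : Phi e c / ‖Phi e c‖ ∈ ee '' Icc a b := by
      refine (isCompact_Icc.image wk_ee_cont).isClosed.mem_of_frequently_of_tendsto
        (((mem_closure_iff_frequently.1 (frontier_subset_closure hc)).and_eventually h2).mono
          fun y hy => ?_) h4
      obtain ⟨v, hv, rfl⟩ := hS x₀ hx₀ y (hO ▸ hy.1) hy.2
      rw [(Γ5 _ hv.1 _).phi he, wk_dir hv.1]
      exact mem_image_of_mem _ (Ioo_subset_Icc_self hv.2)
    obtain ⟨t, ht, h6⟩ := h5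
    obtain ⟨h7, h8⟩ := hpol c hc' t h6.symm
    rcases ht.1.eq_or_lt with rfl | h9
    · exact Or.inl ⟨_, h7, h8⟩
    rcases ht.2.eq_or_lt with rfl | h10
    · exact Or.inr ⟨_, h7, h8⟩
    exact absurd (h8 ▸ hin _ h7 t (hgap t ⟨h9, h10⟩)) (wk_front hGo (hO ▸ hc))
  have hF : frontier O ⊆ insert ca ((fun s : ℝ => Γ (s * ee a)) '' Ioi 1) ∪
      insert cb ((fun s : ℝ => Γ (s * ee b)) '' Ioi 1) := by
    intro c hc
    by_contra h
    have hc' : c ∈ Mset e := by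
      by_contra hc'
      exact (hF1 c hc hc').elim (fun h' => h (Or.inl (Or.inr h'))) fun h' => h (Or.inr (Or.inr h'))
    have h2 := punct hOo hc (by
      filter_upwards [((wk_closed (Γ7 a) a3 (hinf a)).union
        (wk_closed (Γ7 b) b3 (hinf b))).isOpen_compl.mem_nhds h,
        (hfin.subset (sdiff_subset (t := {c}))).isClosed.isOpen_compl.mem_nhds fun h' => h'.2 rfl]
        with y y1 y2 y3
      by_contra y4
      by_cases y5 : y ∈ Mset e
      · exact y2 ⟨hM _ y (hO ▸ y3) y5, y4⟩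
      · exact (hF1 y y3 y5).elim (fun h' => y1 (Or.inl (Or.inr h')))
          fun h' => y1 (Or.inr (Or.inr h')))
    refine wk_front hGo (hO ▸ hc) (hG ▸ mem_interior_iff_mem_nhds.2 ?_)
    filter_upwards [h2] with y hy
    by_cases h3 : y = c
    · exact Or.inl (h3 ▸ hc')
    · exact interior_subset (hG ▸ hOG (hy h3))
  have hinj : ∀ s s' t t' : ℝ, 1 < s → 1 < s' → Γ (s * ee t) = Γ (s' * ee t') →
      s = s' ∧ ee t = ee t' := by
    intro s s' t t' hs hs' h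
    have h2 : (s : ℂ) * ee t = s' * ee t' := by
      rw [← (Γ5 s hs t).phi he, h, (Γ5 s' hs' t').phi he]
    exact ⟨by rw [← wk_norm hs t, h2, wk_norm hs'], by rw [← wk_dir hs t, h2, wk_dir hs']⟩
  have hc : ca = cb := by
    by_contra hne'
    have h2 := two_arcs (Γ7 a) (fun s hs s' hs' h => (hinj _ _ _ _ hs hs' h).1) a3 (hnM a ca a1)
      (hinf a) (Γ7 b) (fun s hs s' hs' h => (hinj _ _ _ _ hs hs' h).1) b3 (hnM b cb b1) (hinf b) (by
        rw [disjoint_left]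
        rintro y (rfl | ⟨s, hs, rfl⟩) (h | ⟨s', hs', h⟩)
        · exact hne' h
        · exact hnM b _ a1 ⟨s', hs', h⟩
        · exact hnM a _ b1 ⟨s, hs, h⟩
        · obtain ⟨m, hm⟩ := Complex.exp_eq_exp_iff_exists_int.1 (hinj _ _ _ _ hs' hs h).2
          have h3 : (b : ℂ) = a + m := mul_left_cancel₀ Complex.two_pi_I_ne_zero
            (by linear_combination hm)
          have h4 : b = a + m := by exact_mod_cast h3
          have h5 : (0 : ℤ) < m := by exact_mod_cast (show (0 : ℝ) < m by linarith)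
          have h6 : m < 1 := by exact_mod_cast (show (m : ℝ) < 1 by linarith)
          omega)
    have hK : ∀ y ∈ G, y ∈ (insert ca ((fun s : ℝ => Γ (s * ee a)) '' Ioi 1) ∪
        insert cb ((fun s : ℝ => Γ (s * ee b)) '' Ioi 1))ᶜ := by
      rintro y hy ((rfl | ⟨s, hs, rfl⟩) | (rfl | ⟨s, hs, rfl⟩))
      exacts [a2 hy, hout s hs a ha hy, b2 hy, hout s hs b hb hy]
    have h3 := h2.subset_of_closure_inter_subset hOo
      ⟨_, hK _ (hOG (hO ▸ hxG x₀ hx₀)), hO ▸ hxG x₀ hx₀⟩ fun y hy => by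
        by_contra h
        exact hy.2 (hF (hOo.frontier_eq ▸ ⟨hy.1, h⟩))
    obtain ⟨t, ht, ht'⟩ := ang_gap P hba
    obtain ⟨m, hm⟩ := hall t ht' (hI x₀ hx₀ 2 one_lt_two t ht'
      (hO ▸ h3 (hK _ (hin 2 one_lt_two t ht'))))
    have h5 : (-1 : ℤ) < m := by exact_mod_cast (show (-1 : ℝ) < m by linarith [hm.1, ht.2])
    have h6 : m < 0 := by exact_mod_cast (show (m : ℝ) < 0 by linarith [hm.2, ht.1])
    omega
  refine ⟨ca, fun y hy hy' => ?_⟩
  have h2 : y.1 ∈ closure O := map_mem_closure continuous_fst hy fun x hx => by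
    rw [hO, hSO x₀ hx₀, ← hSO x hx]
    exact hxG x hx
  have h3 : y.1 ∈ Mset e :=
    closure_minimal (fun y hy => Lam.mem he hy) ((M_closed he).preimage continuous_fst) hy
  have h4 : y.1 ∉ O := fun h => hy' (in_wake he P hq hOo
    (fun c hc => interior_subset (hG ▸ hOG hc)) (fun c hc => wk_tog he P hx₀ c (hG ▸ hO ▸ hc))
    hy (hE hy) (h1 y hy) h)
  have h5 : y.1 ∈ frontier O := hOo.frontier_eq ▸ ⟨h2, h4⟩
  rcases hF h5 with (h | h) | (h | h)
  exacts [h, absurd h (hnM a _ h3), h.trans hc.symm, absurd h (hnM b _ h3)]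

end Pool.Agent.MP_28f8a1_an.Mlc

/-! The size of whole limbs. -/

set_option autoImplicit false

namespace Pool.Agent.MP_28f8a1_an.Mlc

open MeasureTheory Metric Set Real Filter Topology Pool.Agent.MP_28f8a1_an.H42
open Complex (I)

variable {e n p q : ℕ} {θ : ℕ → ℝ}

theorem whole_core (he : 1 ≤ e) : ∃ K > (0 : ℝ), ∃ η : ℕ → ℝ, (∀ n, 0 ≤ η n) ∧
    Tendsto η atTop (𝓝 0) ∧ ∀ (n p q : ℕ) (θ : ℕ → ℝ), Port e n p q θ → K * n ≤ q →
      (Lam e n q θ).Nonempty → ∃ c₀ : ℂ, (∃ z, (fq e c₀)^[n * q] z = z ∧ Pd e c₀ z (n * q) = 1) ∧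
        ∀ x ∈ Lam e n q θ, ∃ X : Set ℂ, IsPreconnected X ∧ c₀ ∈ X ∧ X ∈ 𝓝[Mset e] x.1 ∧
          ∀ a ∈ X, a ∈ Mset e ∧ ‖a - c₀‖ ≤ η n * n / q := by
  obtain ⟨s, hs, hs1, L, hL, hL0, H⟩ := diam_lip he
  set l := 2 * Real.log (e + 1 : ℕ) with hl
  have hl0 : 0 ≤ l := by positivity
  refine ⟨2 * l / s + 1 + l, by positivity, fun n => 4 * l * L n,
    fun n => mul_nonneg (by positivity) (hL n), by simpa using hL0.const_mul (4 * l),
    fun n p q θ P hK ⟨x₀, hx₀⟩ => ?_⟩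
  have hq : (0 : ℝ) < q := by exact_mod_cast P.hq
  have hn : (1 : ℝ) ≤ n := by exact_mod_cast P.hn
  have h1 : 0 ≤ 2 * l / s * n := by positivity
  have h3 : 0 ≤ l * n := by positivity
  have h4 : 2 * (n * l / q) < s := by
    rw [← mul_div_assoc, div_lt_iff₀ hq, ← div_lt_iff₀' hs]
    calc _ = 2 * l / s * n := by ring
      _ < _ := by linarith
  have near := fun w => Hor.near P.hp P.hpq (a := n * l) (by positivity) (by linarith) (w := w)
  have hH : ∀ y ∈ closure (Lam e n q θ), mu e n y ∈ Complex.exp '' Hor p q (n * l) :=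
    closure_minimal (fun y hy => Ray.hor he P hy.2.2 (Per.fix hy.1))
      ((Hor.closed P.hq (by positivity)).preimage (mu_cont e n))
  have hE : closure (Lam e n q θ) ⊆ Ec e n := by
    refine closure_minimal (fun y hy => ⟨Per.fix hy.1, ?_, Or.inr hy.1⟩)
      (Ec_compact he P.hn).isClosed
    have a1 := (near _ (hH y (subset_closure hy))).2.2.1
    have a2 := norm_sub_norm_le (mu e n y) (Complex.exp (2 * π * I * p / q))
    rw [rot_norm] at a2
    linarith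
  have hM : ∀ y ∈ closure (Lam e n q θ), y.1 ∈ Mset e :=
    closure_minimal (fun y hy => Lam.mem he hy) ((M_closed he).preimage continuous_fst)
  have hB : ∀ y ∈ closure (Lam e n q θ), y ∉ Lam e n q θ →
      ∃ z, (fq e y.1)^[n * q] z = z ∧ Pd e y.1 z (n * q) = 1 := fun y hy hy' =>
    Lam.bdry he P hy (hM y hy) ((hE hy).2.2.resolve_left (near _ (hH y hy)).1) hy'
  have hF : (closure (Lam e n q θ) \ Lam e n q θ).Finite :=
    ((t1323_fin he P.hN).biUnion fun c _ => (t1323_roots he P.hn c).image fun z => (c, z)).subset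
      fun y hy => mem_biUnion (hB y hy.1 hy.2) ⟨y.2, (hE hy.1).1, rfl⟩
  have hb := fun x (hx : x ∈ Lam e n q θ) => bump (M_conn he)
    ((Ec_compact he P.hn).of_isClosed_subset isClosed_closure hE) hF (fun y hy => Lam.mem he hy)
    (fun y hy N hN => Lam.open he P hy hN) M_zero
    (fun y hy => Ec_zero he P.hn (hE hy) (near _ (hH y hy)).2.1) hx
  obtain ⟨c₀, hc₀⟩ := wake he P (by linarith) hE fun y hy => (near _ (hH y hy)).1
  have hs := fun x => connectedComponentIn_subset (closure (Lam e n q θ)) x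
  refine ⟨c₀, ?_, fun x hx => ?_⟩
  · obtain ⟨-, y, b2, b3⟩ := hb x₀ hx₀
    exact hc₀ y (hs _ b2) b3 ▸ hB y (hs _ b2) b3
  obtain ⟨b1, y, b2, b3⟩ := hb x hx
  refine ⟨_, isPreconnected_connectedComponentIn.image _ continuous_fst.continuousOn,
    ⟨y, b2, hc₀ y (hs _ b2) b3⟩, b1, forall_mem_image.2 fun v hv => ⟨hM v (hs _ hv), ?_⟩⟩
  have a1 := H n P.hn _ (rot_norm p q) _ isPreconnected_connectedComponentIn (fun y hy =>
    ⟨hE (hs x hy), (near _ (hH y (hs x hy))).2.2.1.trans_lt h4, (near _ (hH y (hs x hy))).1⟩)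
    v hv y b2
  have a2 := norm_sub_le_norm_sub_add_norm_sub (mu e n v) (Complex.exp (2 * π * I * p / q))
    (mu e n y)
  rw [norm_sub_rev (Complex.exp _) (mu e n y)] at a2
  rw [← hc₀ y (hs _ b2) b3]
  calc _ ≤ L n * (2 * (n * l / q) + 2 * (n * l / q)) := a1.trans (mul_le_mul_of_nonneg_left
        (by linarith [(near _ (hH v (hs x hv))).2.2.1, (near _ (hH y (hs x b2))).2.2.1]) (hL n))
    _ = _ := by ring

theorem whole_limb (he : 1 ≤ e) : ∃ (K : ℝ) (η : ℕ → ℝ), Tendsto η atTop (𝓝 0) ∧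
    ∀ (n p q : ℕ) (θ : ℕ → ℝ), Port e n p q θ → ∃ X : Set ℂ, IsConnected X ∧ X ⊆ Mset e ∧
      (∀ a ∈ X, ∀ b ∈ X, ‖a - b‖ ≤ K * n / q ∧ (K * n ≤ q → ‖a - b‖ ≤ η n * n / q)) ∧
      (∃ c' ∈ X, ∃ (m : ℕ) (z' : ℂ), 0 < m ∧ Function.minimalPeriod (fq e c') z' = m ∧
        ‖Pd e c' z' m‖ < 1 ∧ Tendsto (fun k : ℕ => (fq e c')^[m * k] 0) atTop (𝓝 z')) ∧
      ∀ x ∈ Lam e n q θ, X ∈ 𝓝[Mset e] x.1 := by
  obtain ⟨K, hK, η, hη, hη0, H⟩ := whole_core he
  have hη1 : Tendsto (fun n : ℕ => 2 * (η n + 1 / n)) atTop (𝓝 0) := by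
    simpa using (hη0.add tendsto_one_div_atTop_nhds_zero_nat).const_mul 2
  obtain ⟨A, hA⟩ := hη1.bddAbove_range
  refine ⟨4 * K + |A|, _, hη1, fun n p q θ P => ?_⟩
  have hq0 : (0 : ℝ) < q := by exact_mod_cast P.hq
  have hn : (0 : ℝ) < n := by exact_mod_cast P.hn
  have hA0 : 0 ≤ |A| * n := by positivity
  have h0 : fq e 0 0 = 0 := by simp [fq]
  have hz : ∃ (m : ℕ) (z' : ℂ), 0 < m ∧ Function.minimalPeriod (fq e 0) z' = m ∧
      ‖Pd e 0 z' m‖ < 1 ∧ Tendsto (fun k : ℕ => (fq e 0)^[m * k] 0) atTop (𝓝 z') := by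
    refine ⟨1, 0, one_pos, Function.minimalPeriod_eq_one_iff_isFixedPt.2 h0, ?_, ?_⟩
    · rw [Pd_one, zero_pow (by omega), mul_zero, norm_zero]
      exact one_pos
    · simp only [Function.iterate_fixed h0]
      exact tendsto_const_nhds
  have h4 : 0 ≤ η n * n / q := by have := hη n; positivity
  have h3 : 2 * (η n + 1 / n) * n / q = 2 * (η n * n / q + 1 / q) := by field_simp
  have h5 := one_div_pos.2 hq0
  have h6 : 2 * (η n + 1 / n) * n / q ≤ (4 * K + |A|) * n / q := by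
    gcongr
    linarith [hA (mem_range_self n), le_abs_self A]
  rcases le_or_gt (K * n) q with hq | hq
  · rcases (Lam e n q θ).eq_empty_or_nonempty with hL | hL
    · refine ⟨{0}, isConnected_singleton, singleton_subset_iff.2 M_zero, ?_, ⟨0, rfl, hz⟩,
        by simp [hL]⟩
      rintro _ rfl _ rfl
      rw [sub_zero, norm_zero]
      exact ⟨by linarith, fun _ => by linarith⟩
    obtain ⟨c₀, ⟨z, z1, z2⟩, hc⟩ := H n p q θ P hq hL
    obtain ⟨Z, a1, a2, a3, c', a4, m, z', a5, a6, a7⟩ := par_arc he P.hN z1 z2 h5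
    obtain ⟨w, w1, w2, w3⟩ := fatou' he a5 a6 a7
    have hX : ∀ a ∈ ⋃₀ {X : Set ℂ | IsPreconnected X ∧ c₀ ∈ X ∧
        ∀ a ∈ X, a ∈ Mset e ∧ ‖a - c₀‖ ≤ η n * n / q + 1 / q},
        a ∈ Mset e ∧ ‖a - c₀‖ ≤ η n * n / q + 1 / q := fun a ⟨X, h, ha⟩ => h.2.2 a ha
    have hZ := subset_sUnion_of_mem (S := {X : Set ℂ | IsPreconnected X ∧ c₀ ∈ X ∧
        ∀ a ∈ X, a ∈ Mset e ∧ ‖a - c₀‖ ≤ η n * n / q + 1 / q}) (t := Z)
      ⟨a1, a2, fun a ha => ⟨(a3 ha).1, by linarith [mem_ball_iff_norm.1 (a3 ha).2]⟩⟩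
    refine ⟨_, ⟨⟨_, hZ a2⟩, isPreconnected_sUnion c₀ _ (fun X h => h.2.1) fun X h => h.1⟩,
      fun a ha => (hX a ha).1, fun a ha b hb => ?_, ⟨c', hZ a4, m, w, a5, w1, w2 ▸ a7, w3⟩,
      fun x hx => ?_⟩
    · have := norm_sub_le_norm_sub_add_norm_sub a c₀ b
      rw [norm_sub_rev c₀ b] at this
      exact ⟨by linarith [(hX a ha).2, (hX b hb).2], fun _ => by linarith [(hX a ha).2, (hX b hb).2]⟩
    · obtain ⟨X, x1, x2, x3, x4⟩ := hc x hx
      exact mem_of_superset x3 (subset_sUnion_of_mem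
        ⟨x1, x2, fun a ha => ⟨(x4 a ha).1, by linarith [(x4 a ha).2]⟩⟩)
  · refine ⟨Mset e, ⟨⟨_, M_zero⟩, M_conn he⟩, Subset.rfl, fun a ha b hb => ⟨?_, fun h => ?_⟩,
      ⟨0, M_zero, hz⟩, fun _ _ => self_mem_nhdsWithin⟩
    · rw [le_div_iff₀ hq0]
      nlinarith [norm_sub_le a b, M_norm he ha, M_norm he hb]
    · nlinarith

end Pool.Agent.MP_28f8a1_an.Mlc
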