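import Pool.Agent.MP_28f8a1_an.Wk.Base

/-! Uniqueness and injectivity of inverse Boettcher maps. -/

set_option autoImplicit false

namespace Pool.Agent.MP_28f8a1_an.Mlc

open MeasureTheory Metric Set Real Filter Topology Pool.Agent.MP_28f8a1_an.H42
open Complex (I)

variable {e : ℕ} {c w : ℂ} {r r' : ℝ} {ψ ψ' : ℂ → ℂ}

theorem u50_conn (hr : 0 < r) : IsPreconnected {w : ℂ | r < ‖w‖} := by
  have h : {w : ℂ | r < ‖w‖} = Complex.exp '' {z | Real.log r < z.re} := by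
    ext w
    constructor
    · intro hw
      have hw' : r < ‖w‖ := hw
      have h0 : w ≠ 0 := norm_pos_iff.1 (by linarith)
      exact ⟨Complex.log w, by simpa [Complex.log_re] using Real.log_lt_log hr hw',
        Complex.exp_log h0⟩
    · rintro ⟨z, hz, rfl⟩
      have hz' : Real.log r < z.re := hz
      have := Real.exp_lt_exp.2 hz'
      rw [Real.exp_log hr] at this
      simpa [Complex.norm_exp] using this
  rw [h]
  exact (convex_halfSpace_re_gt _).isPreconnected.image _ Complex.continuous_exp.continuousOn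

theorem u50_id (hr : 0 < r) {f g : ℂ → ℂ} (hf : DifferentiableOn ℂ f {w | r < ‖w‖})
    (hg : DifferentiableOn ℂ g {w | r < ‖w‖}) {R : ℝ} (h : ∀ w : ℂ, R < ‖w‖ → f w = g w)
    (hw : r < ‖w‖) : f w = g w := by
  have ho : ∀ s : ℝ, IsOpen {w : ℂ | s < ‖w‖} := fun s => isOpen_lt continuous_const continuous_norm
  have h2 : ‖((|R| + r + 1 : ℝ) : ℂ)‖ = |R| + r + 1 := by
    rw [Complex.norm_real, Real.norm_of_nonneg (by positivity)]
  refine (hf.analyticOnNhd (ho r)).eqOn_of_preconnected_of_eventuallyEq (hg.analyticOnNhd (ho r))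
    (u50_conn hr) (z₀ := ((|R| + r + 1 : ℝ) : ℂ)) ?_ ?_ hw
  · show r < _
    rw [h2]
    linarith [abs_nonneg R]
  · refine Filter.eventually_of_mem ((ho R).mem_nhds ?_) h
    show R < _
    rw [h2]
    linarith [le_abs_self R]

theorem u50_near (ha : Tendsto (fun w => ψ w / w) (Bornology.cobounded ℂ) (𝓝 1)) {ρ : ℝ}
    (hρ : 0 < ρ) : ∃ R : ℝ, ∀ w : ℂ, R < ‖w‖ → ‖ψ w / w - 1‖ < ρ := by
  have h := Metric.tendsto_nhds.1 ha ρ hρ
  obtain ⟨R, hR⟩ := (Bornology.isBounded_def.2 (by rwa [compl_compl]) :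
    Bornology.IsBounded {w : ℂ | dist (ψ w / w) 1 < ρ}ᶜ).exists_norm_le
  refine ⟨R, fun w hw => ?_⟩
  by_contra h1
  have := hR w (by rwa [mem_compl_iff, mem_ofPred_eq, dist_eq_norm])
  linarith

theorem u50_pow (hr : 1 ≤ r) (hw : r < ‖w‖) {k : ℕ} (hk : k ≠ 0) : r < ‖w ^ k‖ := by
  rw [norm_pow]
  exact hw.trans_le (le_self_pow₀ (by linarith) hk)

theorem u50_uniq (he : 1 ≤ e) (h : BotR e c r ψ) (h' : BotR e c r' ψ') (hw : r < ‖w‖)
    (hw' : r' < ‖w‖) : ψ w = ψ' w := by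
  obtain ⟨ρ, hρ, hs⟩ := b37_sum he
  obtain ⟨R, hR⟩ := u50_near h.asy hρ
  obtain ⟨R', hR'⟩ := u50_near h'.asy hρ
  set S := max (max r r') (max R R') with hS
  have s1 : r ≤ S := (le_max_left _ _).trans (le_max_left _ _)
  have s2 : r' ≤ S := (le_max_right _ _).trans (le_max_left _ _)
  have s3 : R ≤ S := (le_max_left _ _).trans (le_max_right _ _)
  have s4 : R' ≤ S := (le_max_right _ _).trans (le_max_right _ _)
  have all : ∀ k : ℕ, ∀ v : ℂ, S < ‖v‖ → ‖ψ v / v - ψ' v / v‖ ≤ 2 * ρ * (2 / 3) ^ k := by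
    intro k
    induction k with
    | zero =>
      intro v hv
      have h1 := norm_sub_le (ψ v / v - 1) (ψ' v / v - 1)
      rw [sub_sub_sub_cancel_right] at h1
      linarith [hR v (s3.trans_lt hv), hR' v (s4.trans_lt hv)]
    | succ k ih =>
      intro v hv
      have h1 := hs _ _ (hR v (s3.trans_lt hv)) (hR' v (s4.trans_lt hv))
      have h2 := ih (v ^ (e + 1)) (u50_pow (h.one.trans s1) hv (by omega))
      have h3 : (ψ v / v) ^ (e + 1) - (ψ' v / v) ^ (e + 1) =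
          ψ (v ^ (e + 1)) / v ^ (e + 1) - ψ' (v ^ (e + 1)) / v ^ (e + 1) := by
        rw [h.semi v (s1.trans_lt hv), h'.semi v (s2.trans_lt hv), fq, fq, div_pow, div_pow]
        ring
      rw [h3] at h1
      rw [pow_succ]
      linarith
  have lim : Tendsto (fun k : ℕ => 2 * ρ * (2 / 3 : ℝ) ^ k) atTop (𝓝 (2 * ρ * 0)) :=
    (tendsto_pow_atTop_nhds_zero_of_lt_one (by norm_num) (by norm_num)).const_mul _
  rw [mul_zero] at lim
  refine u50_id (r := max r r') (R := S) (one_pos.trans_le (h.one.trans (le_max_left _ _)))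
    (h.diff.mono fun v hv => (le_max_left r r').trans_lt hv)
    (h'.diff.mono fun v hv => (le_max_right r r').trans_lt hv) (fun v hv => ?_) (max_lt hw hw')
  have h1 := norm_le_zero_iff.1 (ge_of_tendsto' lim fun k => all k v hv)
  have h0 : v ≠ 0 := norm_pos_iff.1 (by linarith [h.one])
  exact (div_left_inj' h0).1 (sub_eq_zero.1 h1)

theorem u50_psi (he : 1 ≤ e) (h : BotR e c r ψ) (hw : r < ‖w‖) : Psi e (c, w) = ψ w := by
  obtain ⟨r', ψ', h1, h2, h3⟩ := Classical.epsilon_spec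
    (p := fun y => ∃ r ψ, BotR e c r ψ ∧ r < ‖w‖ ∧ ψ w = y) ⟨ψ w, r, ψ, h, hw, rfl⟩
  exact h3.symm.trans (u50_uniq he h1 h h2 hw)

theorem u50_sym (he : 1 ≤ e) (h1 : 1 ≤ r) (hd : DifferentiableOn ℂ ψ {w | r < ‖w‖})
    (hs : ∀ w : ℂ, r < ‖w‖ → ψ (w ^ (e + 1)) = fq e c (ψ w))
    (ha : Tendsto (fun w => ψ w / w) (Bornology.cobounded ℂ) (𝓝 1)) {ζ : ℂ}
    (hζ : ζ ^ (e + 1) = 1) (hw : r < ‖w‖) : ψ (ζ * w) = ζ * ψ w := by
  have hn : ‖ζ‖ = 1 := Complex.norm_eq_one_of_pow_eq_one hζ (by omega)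
  have hζ0 : ζ ≠ 0 := norm_pos_iff.1 (by rw [hn]; exact one_pos)
  have hm : ∀ v : ℂ, ‖ζ * v‖ = ‖v‖ := fun v => by rw [norm_mul, hn, one_mul]
  obtain ⟨ρ, hρ, hb⟩ := b37_sum he
  obtain ⟨R, hR⟩ := u50_near ha hρ
  refine u50_id (f := fun v => ψ (ζ * v)) (g := fun v => ζ * ψ v) (R := max r R)
    (one_pos.trans_le h1) (hd.comp (by fun_prop) fun v hv => ?_) (hd.const_mul ζ)
    (fun v hv => ?_) hw
  · show r < _
    rw [hm]
    exact hv
  · have v1 : r < ‖v‖ := (le_max_left _ _).trans_lt hv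
    have v2 : R < ‖v‖ := (le_max_right _ _).trans_lt hv
    have v0 : v ≠ 0 := norm_pos_iff.1 (by linarith)
    have h2 := hb _ _ (hR (ζ * v) (by rwa [hm])) (hR v v2)
    have h3 := hs (ζ * v) (by rwa [hm])
    rw [mul_pow, hζ, one_mul, hs v v1, fq, fq, add_left_inj] at h3
    rw [div_pow, div_pow, mul_pow, hζ, one_mul, ← h3, sub_self, norm_zero] at h2
    have h4 : ψ (ζ * v) / (ζ * v) = ψ v / v :=
      sub_eq_zero.1 (norm_le_zero_iff.1 (by linarith))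
    field_simp at h4
    exact h4

theorem u50_of (he : 1 ≤ e) (h1 : 1 ≤ r) (hd : DifferentiableOn ℂ ψ {w | r < ‖w‖})
    (h0 : ∀ w : ℂ, r < ‖w‖ → ψ w ≠ 0)
    (hs : ∀ w : ℂ, r < ‖w‖ → ψ (w ^ (e + 1)) = fq e c (ψ w))
    (ha : Tendsto (fun w => ψ w / w) (Bornology.cobounded ℂ) (𝓝 1)) : BotR e c r ψ := by
  refine ⟨h1, hd, fun w hw v hv h => ?_, hs, ha⟩
  have down : ∀ k : ℕ, ∀ w v : ℂ, r < ‖w‖ → r < ‖v‖ → ψ w = ψ v →
      w ^ (e + 1) ^ k = v ^ (e + 1) ^ k → w = v := by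
    intro k
    induction k with
    | zero => intro w v _ _ _ h; simpa using h
    | succ k ih =>
      intro w v hw hv h h2
      have v0 : v ≠ 0 := norm_pos_iff.1 (by linarith)
      have h3 := ih _ _ (u50_pow h1 hw (Nat.succ_ne_zero e)) (u50_pow h1 hv (Nat.succ_ne_zero e))
        (by rw [hs w hw, hs v hv, h]) (by rwa [← pow_mul, ← pow_mul, ← pow_succ'])
      have h4 := u50_sym he h1 hd hs ha (ζ := w / v)
        (by rw [div_pow, h3, div_self (pow_ne_zero _ v0)]) hv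
      rw [div_mul_cancel₀ _ v0, h] at h4
      exact (div_eq_one_iff_eq v0).1 (mul_right_cancel₀ (h0 v hv) (h4.symm.trans (one_mul _).symm))
  have hw' : r < ‖w‖ := hw
  have hv' : r < ‖v‖ := hv
  have w0 : w ≠ 0 := norm_pos_iff.1 (by linarith)
  have v0 : v ≠ 0 := norm_pos_iff.1 (by linarith)
  have hk : ∀ k : ℕ, (e + 1) ^ k ≠ 0 := fun k => by positivity
  have it : ∀ k : ℕ, ψ (w ^ (e + 1) ^ k) = ψ (v ^ (e + 1) ^ k) := by
    intro k
    induction k with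
    | zero => simpa using h
    | succ k ih =>
      rw [pow_succ, pow_mul, pow_mul, hs _ (u50_pow h1 hw' (hk k)), hs _ (u50_pow h1 hv' (hk k)), ih]
  have lim : Tendsto (fun k : ℕ => (w / v) ^ (e + 1) ^ k) atTop (𝓝 1) := by
    have h2 := (ha.comp (b37_pow he (h1.trans_lt hv'))).div (ha.comp (b37_pow he (h1.trans_lt hw')))
      one_ne_zero
    rw [div_one] at h2
    refine h2.congr fun k => ?_
    have h3 := h0 _ (u50_pow h1 hv' (hk k))
    simp only [Pi.div_apply, Function.comp, it k]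
    rw [div_pow]
    field_simp
  obtain ⟨ρ, hρ, hb⟩ := b37_sum he
  obtain ⟨k, hk₀⟩ := Metric.tendsto_atTop.1 lim ρ hρ
  have mono : ∀ j, k ≤ j → ‖(w / v) ^ (e + 1) ^ k - 1‖ ≤ ‖(w / v) ^ (e + 1) ^ j - 1‖ := by
    intro j hj
    induction j, hj using Nat.le_induction with
    | base => exact le_rfl
    | succ j hj ih =>
      have h2 := hb _ 1 (by rw [← dist_eq_norm]; exact hk₀ j hj) (by simpa using hρ)
      rw [one_pow, ← pow_mul, ← pow_succ] at h2
      linarith [norm_nonneg ((w / v) ^ (e + 1) ^ j - 1)]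
  have h2 : ‖(w / v) ^ (e + 1) ^ k - 1‖ ≤ 0 := by
    have h3 := (lim.sub_const 1).norm
    rw [sub_self, norm_zero] at h3
    exact ge_of_tendsto h3 (eventually_atTop.2 ⟨k, mono⟩)
  have h3 := sub_eq_zero.1 (norm_le_zero_iff.1 h2)
  rw [div_pow, div_eq_one_iff_eq (pow_ne_zero _ v0)] at h3
  exact down k w v hw' hv' h h3

end Pool.Agent.MP_28f8a1_an.Mlc

/-! Uniqueness of inverse Boettcher maps. -/

set_option autoImplicit false

namespace Pool.Agent.MP_28f8a1_an.Mlc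

open MeasureTheory Metric Set Real Filter Topology Pool.Agent.MP_28f8a1_an.H42
open Complex (I)

variable {e n p q N : ℕ} {θ : ℕ → ℝ} {A : Set ℂ} {c w : ℂ} {r r' : ℝ} {ψ ψ' : ℂ → ℂ}

theorem BotR.uniq (he : 1 ≤ e) (h : BotR e c r ψ) (h' : BotR e c r' ψ') (hw : r < ‖w‖)
    (hw' : r' < ‖w‖) : ψ w = ψ' w := by
  exact u50_uniq he h h' hw hw'

theorem BotR.psi (he : 1 ≤ e) (h : BotR e c r ψ) (hw : r < ‖w‖) : Psi e (c, w) = ψ w := by
  exact u50_psi he h hw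

theorem botR_of (he : 1 ≤ e) (h1 : 1 ≤ r) (hd : DifferentiableOn ℂ ψ {w | r < ‖w‖})
    (h0 : ∀ w : ℂ, r < ‖w‖ → ψ w ≠ 0)
    (hs : ∀ w : ℂ, r < ‖w‖ → ψ (w ^ (e + 1)) = fq e c (ψ w))
    (ha : Tendsto (fun w => ψ w / w) (Bornology.cobounded ℂ) (𝓝 1)) : BotR e c r ψ := by
  exact u50_of he h1 hd h0 hs ha

theorem dom_one (h : (c, w) ∈ Dom e) : 1 < ‖w‖ := by
  obtain ⟨r, ψ, h1, h2⟩ := h
  exact h1.one.trans_lt h2

theorem dom_mono {v : ℂ} (h : (c, w) ∈ Dom e) (hv : ‖w‖ ≤ ‖v‖) : (c, v) ∈ Dom e := by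
  obtain ⟨r, ψ, h1, h2⟩ := h
  exact ⟨r, ψ, h1, h2.trans_le hv⟩

theorem dom_semi (he : 1 ≤ e) (h : (c, w) ∈ Dom e) :
    (c, w ^ (e + 1)) ∈ Dom e ∧ Psi e (c, w ^ (e + 1)) = fq e c (Psi e (c, w)) := by
  have h0 := dom_one h
  obtain ⟨r, ψ, h1, h2⟩ := h
  have h3 : r < ‖w ^ (e + 1)‖ := by
    rw [norm_pow]
    exact lt_of_lt_of_le h2 (le_self_pow₀ h0.le (by omega))
  refine ⟨⟨r, ψ, h1, h3⟩, ?_⟩
  rw [BotR.psi he h1 h3, BotR.psi he h1 h2]
  exact h1.semi w h2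

theorem dom_inj (he : 1 ≤ e) {v : ℂ} (h : (c, w) ∈ Dom e) (h' : (c, v) ∈ Dom e)
    (hv : Psi e (c, w) = Psi e (c, v)) : w = v := by
  rcases le_total ‖w‖ ‖v‖ with hle | hle
  · obtain ⟨r, ψ, h1, h2⟩ := h
    have h3 : r < ‖v‖ := h2.trans_le hle
    rw [BotR.psi he h1 h2, BotR.psi he h1 h3] at hv
    exact h1.inj h2 h3 hv
  · obtain ⟨r, ψ, h1, h2⟩ := h'
    have h3 : r < ‖w‖ := h2.trans_le hle
    rw [BotR.psi he h1 h2, BotR.psi he h1 h3] at hv
    exact h1.inj h3 h2 hv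

theorem dom_ne (he : 1 ≤ e) (h : (c, w) ∈ Dom e) : Psi e (c, w) ≠ 0 := by
  have h0 := dom_one h
  obtain ⟨r, ψ, h1, h2⟩ := h
  rw [BotR.psi he h1 h2]
  intro hz
  have hζ := Complex.isPrimitiveRoot_exp (e + 1) (by omega)
  set ζ := Complex.exp (2 * π * I / ((e + 1 : ℕ) : ℂ)) with hζd
  have hn : ‖ζ‖ = 1 := hζ.norm'_eq_one (by omega)
  have h3 : r < ‖ζ * w‖ := by rwa [norm_mul, hn, one_mul]
  have h4 := h1.semi _ h3
  rw [mul_pow, hζ.pow_eq_one, one_mul, h1.semi w h2, hz] at h4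
  have h5 : ψ (ζ * w) = 0 := by
    have : ψ (ζ * w) ^ (e + 1) = 0 := by simpa [fq] using h4.symm
    exact pow_eq_zero_iff (by omega) |>.1 this
  have h6 : ζ * w = w := h1.inj h3 h2 (h5.trans hz.symm)
  have hw : w ≠ 0 := by
    rintro rfl
    norm_num at h0
  exact hζ.ne_one (by omega) (mul_left_eq_self₀.1 h6 |>.resolve_right hw)

theorem orb_bound (he : 1 ≤ e) {x : ℂ} {s : ℝ} (hs : 1 ≤ s)
    (h : Tendsto (fun k : ℕ => ‖(fq e c)^[k] x‖ / s ^ (e + 1) ^ k) atTop (𝓝 1)) :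
    ‖x‖ ≤ 6 / 5 * s ∨ ‖x‖ ≤ 10 * (√‖c‖ + 1) := by
  by_contra hcon
  push Not at hcon
  obtain ⟨a1, a2⟩ := hcon
  set y : ℝ := 5 / 6 * ‖x‖ with hy
  have hys : s ≤ y := by linarith
  have hy1 : 1 ≤ y := hs.trans hys
  have hsq : 0 ≤ √‖c‖ := Real.sqrt_nonneg _
  have hc : ‖c‖ ≤ 6 / 25 * y ^ 2 := by
    have := Real.sq_sqrt (norm_nonneg c)
    nlinarith
  have key : ∀ k : ℕ, 6 / 5 * y ^ (e + 1) ^ k ≤ ‖(fq e c)^[k] x‖ := by
    intro k
    induction k with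
    | zero => simp only [pow_zero, pow_one, Function.iterate_zero, id]; linarith
    | succ k ih =>
      rw [Function.iterate_succ_apply']
      set u := (fq e c)^[k] x
      have b1 : ‖u ^ (e + 1)‖ ≤ ‖fq e c u‖ + ‖c‖ := by
        have := norm_sub_le (fq e c u) c
        rwa [fq, add_sub_cancel_right] at this
      rw [norm_pow] at b1
      have b2 : (6 / 5 * y ^ (e + 1) ^ k) ^ (e + 1) ≤ ‖u‖ ^ (e + 1) :=
        pow_le_pow_left₀ (by positivity) ih _
      rw [mul_pow, ← pow_mul, ← pow_succ] at b2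
      have b3 : (6 / 5 : ℝ) ^ 2 ≤ (6 / 5) ^ (e + 1) := pow_le_pow_right₀ (by norm_num) (by omega)
      have b4 : y ^ 2 ≤ y ^ (e + 1) ^ (k + 1) := pow_le_pow_right₀ hy1 (by
        have : 1 ≤ (e + 1) ^ k := Nat.one_le_pow _ _ (by omega)
        rw [pow_succ]
        nlinarith)
      have b5 : 0 ≤ y ^ (e + 1) ^ (k + 1) := by positivity
      nlinarith [mul_le_mul_of_nonneg_right b3 b5]
  have h2 : (6 / 5 : ℝ) ≤ 1 := ge_of_tendsto' h fun k => by
    rw [le_div_iff₀ (by positivity)]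
    refine le_trans ?_ (key k)
    gcongr
  norm_num at h2

end Pool.Agent.MP_28f8a1_an.Mlc

/-! The inverse Boettcher map near infinity. -/

set_option autoImplicit false

namespace Pool.Agent.MP_28f8a1_an.Mlc

open MeasureTheory Metric Set Real Filter Topology Pool.Agent.MP_28f8a1_an.H42
open Complex (I)

variable {e n p q N : ℕ} {θ : ℕ → ℝ} {A : Set ℂ} {c w : ℂ} {r r' : ℝ} {ψ ψ' : ℂ → ℂ}

/-- The principal root. -/
noncomputable def farRt (e : ℕ) (x : ℂ) : ℂ := Complex.exp (Complex.log x / (e + 1 : ℕ))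

/-- The approximations of `Psi / w`. -/
noncomputable def farH (e : ℕ) : ℕ → ℂ × ℂ → ℂ
  | 0 => fun _ => 1
  | k + 1 => fun x => farRt e (farH e k (x.1, x.2 ^ (e + 1)) - x.1 / x.2 ^ (e + 1))

theorem far_slit {x : ℂ} (h : ‖x - 1‖ ≤ 1 / 32) : x ∈ Complex.slitPlane := by
  have := Complex.mem_slitPlane_of_norm_lt_one (z := x - 1) (by linarith)
  rwa [add_sub_cancel] at this

theorem farRt_pow {x : ℂ} (h : ‖x - 1‖ ≤ 1 / 32) : farRt e x ^ (e + 1) = x := by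
  rw [farRt, ← Complex.exp_nat_mul, mul_div_cancel₀ _ (Nat.cast_ne_zero.2 (by omega)),
    Complex.exp_log (Complex.slitPlane_ne_zero (far_slit h))]

theorem farRt_near (he : 1 ≤ e) {x : ℂ} (h : ‖x - 1‖ ≤ 1 / 32) :
    ‖farRt e x - 1‖ ≤ 3 / 2 * ‖x - 1‖ := by
  have h1 := Complex.norm_log_one_add_half_le_self (z := x - 1) (by linarith)
  rw [add_sub_cancel] at h1
  have h2 : (2 : ℝ) ≤ ((e + 1 : ℕ) : ℝ) := by exact_mod_cast (show 2 ≤ e + 1 by omega)
  have h3 : ‖Complex.log x / (e + 1 : ℕ)‖ ≤ 3 / 4 * ‖x - 1‖ := by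
    rw [norm_div, Complex.norm_natCast, div_le_iff₀ (by linarith)]
    nlinarith [norm_nonneg (x - 1)]
  exact (Complex.norm_exp_sub_one_le (by linarith)).trans (by linarith)

theorem farRt_der {x : ℂ} (h : ‖x - 1‖ ≤ 1 / 32) :
    HasDerivAt (farRt e) (farRt e x * (x⁻¹ / (e + 1 : ℕ))) x :=
  ((Complex.hasDerivAt_log (far_slit h)).div_const _).cexp

theorem farRt_lip (he : 1 ≤ e) {x y : ℂ} (hx : ‖x - 1‖ ≤ 1 / 32) (hy : ‖y - 1‖ ≤ 1 / 32) :
    ‖farRt e x - farRt e y‖ ≤ 3 / 5 * ‖x - y‖ := by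
  refine (convex_closedBall (1 : ℂ) (1 / 32)).norm_image_sub_le_of_norm_hasDerivWithin_le
    (f' := fun z => farRt e z * (z⁻¹ / (e + 1 : ℕ)))
    (fun z hz => (farRt_der (mem_closedBall_iff_norm.1 hz)).hasDerivWithinAt) (fun z hz => ?_)
    (mem_closedBall_iff_norm.2 hy) (mem_closedBall_iff_norm.2 hx)
  have h := mem_closedBall_iff_norm.1 hz
  have h1 := farRt_near he h
  have h2 : (2 : ℝ) ≤ ((e + 1 : ℕ) : ℝ) := by exact_mod_cast (show 2 ≤ e + 1 by omega)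
  have h3 := norm_sub_norm_le (farRt e z) 1
  have h4 := norm_sub_norm_le 1 z
  rw [norm_sub_rev] at h4
  rw [norm_one] at h3 h4
  have h5 : 0 < ‖z‖ := by linarith
  rw [norm_mul, norm_div, norm_inv, Complex.norm_natCast, ← mul_div_assoc, div_le_iff₀ (by linarith),
    ← div_eq_mul_inv, div_le_iff₀ h5]
  nlinarith

theorem far_pow (he : 1 ≤ e) (h : TT c < ‖w‖) : 8 < ‖w‖ ∧ 8 * ‖w‖ ≤ ‖w ^ (e + 1)‖ := by
  have h1 : 8 < ‖w‖ := by
    have := norm_nonneg c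
    unfold TT at h
    linarith
  refine ⟨h1, ?_⟩
  rw [norm_pow]
  have : ‖w‖ ^ 2 ≤ ‖w‖ ^ (e + 1) := pow_le_pow_right₀ (by linarith) (by omega)
  nlinarith

theorem far_up (he : 1 ≤ e) (h : TT c < ‖w‖) : TT c < ‖w ^ (e + 1)‖ := by
  linarith [(far_pow he h).1, (far_pow he h).2]

theorem far_arg (he : 1 ≤ e) (h : TT c < ‖w‖) {y : ℂ}
    (hy : ‖y - 1‖ ≤ TT c / ‖w ^ (e + 1)‖ / 8) :
    ‖y - c / w ^ (e + 1) - 1‖ ≤ TT c / ‖w‖ / 32 ∧ ‖y - c / w ^ (e + 1) - 1‖ ≤ 1 / 32 := by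
  obtain ⟨h1, h2⟩ := far_pow he h
  have h0 : 0 ≤ TT c := by unfold TT; positivity
  have h3 : TT c / ‖w ^ (e + 1)‖ ≤ TT c / ‖w‖ / 8 := by
    rw [div_div, mul_comm]
    exact div_le_div_of_nonneg_left h0 (by linarith) h2
  have h4 : ‖c / w ^ (e + 1)‖ ≤ TT c / ‖w ^ (e + 1)‖ / 8 := by
    rw [norm_div, div_right_comm]
    refine div_le_div_of_nonneg_right ?_ (norm_nonneg _)
    unfold TT
    linarith
  have h5 := norm_sub_le (y - 1) (c / w ^ (e + 1))
  rw [sub_right_comm] at h5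
  have h6 : TT c / ‖w‖ ≤ 1 := (div_le_one (by linarith)).2 h.le
  constructor <;> linarith

theorem farH_near (he : 1 ≤ e) (k : ℕ) : ∀ c w : ℂ, TT c < ‖w‖ →
    ‖farH e k (c, w) - 1‖ ≤ TT c / ‖w‖ / 8 := by
  induction k with
  | zero =>
    intro c w _
    simp only [farH, sub_self, norm_zero]
    unfold TT; positivity
  | succ k ih =>
    intro c w h
    obtain ⟨h1, h2⟩ := far_arg he h (ih c _ (far_up he h))
    have := farRt_near he h2
    have h3 := norm_nonneg (farH e k (c, w ^ (e + 1)) - c / w ^ (e + 1) - 1)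
    simp only [farH]
    linarith

theorem farH_step (he : 1 ≤ e) (k : ℕ) : ∀ c w : ℂ, TT c < ‖w‖ →
    dist (farH e k (c, w)) (farH e (k + 1) (c, w)) ≤ 1 * (3 / 5) ^ k := by
  induction k with
  | zero =>
    intro c w h
    have h1 := farH_near he 1 c w h
    have h6 : TT c / ‖w‖ ≤ 1 := (div_le_one (by linarith [(far_pow he h).1])).2 h.le
    rw [dist_comm, dist_eq_norm]
    change ‖farH e 1 (c, w) - 1‖ ≤ _
    linarith
  | succ k ih =>
    intro c w h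
    have h1 := farRt_lip he (far_arg he h (farH_near he k c _ (far_up he h))).2
      (far_arg he h (farH_near he (k + 1) c _ (far_up he h))).2
    have h2 := ih c _ (far_up he h)
    rw [dist_eq_norm] at h2 ⊢
    rw [sub_sub_sub_cancel_right] at h1
    rw [pow_succ]
    exact h1.trans (by linarith)

theorem far_open : IsOpen {x : ℂ × ℂ | TT x.1 < ‖x.2‖} :=
  isOpen_lt (by unfold TT; fun_prop) (by fun_prop)

theorem farH_diff (he : 1 ≤ e) (k : ℕ) :
    DifferentiableOn ℂ (farH e k) {x : ℂ × ℂ | TT x.1 < ‖x.2‖} := by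
  induction k with
  | zero => exact differentiableOn_const _
  | succ k ih =>
    intro x hx
    have h0 : x.2 ^ (e + 1) ≠ 0 :=
      pow_ne_zero _ (norm_pos_iff.1 (by linarith [(far_pow he hx).1]))
    have h1 : DifferentiableAt ℂ (fun x : ℂ × ℂ => farH e k (x.1, x.2 ^ (e + 1))) x :=
      DifferentiableAt.comp (f := fun x : ℂ × ℂ => (x.1, x.2 ^ (e + 1))) x
        (ih.differentiableAt (far_open.mem_nhds (far_up he hx))) (by fun_prop)
    have h2 : DifferentiableAt ℂ (fun x : ℂ × ℂ => farH e k (x.1, x.2 ^ (e + 1)) -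
        x.1 / x.2 ^ (e + 1)) x := h1.sub (by
      simp only [div_eq_mul_inv]
      exact differentiableAt_fst.mul ((differentiableAt_snd.pow (e + 1)).inv h0))
    exact ((farRt_der (far_arg he hx (farH_near he k _ _ (far_up he hx))).2).differentiableAt.comp
      x h2).differentiableWithinAt

theorem far_main (he : 1 ≤ e) : ∃ H : ℂ × ℂ → ℂ, ContinuousOn H {x | TT x.1 < ‖x.2‖} ∧
    (∀ w, DifferentiableOn ℂ (fun c => H (c, w)) {c | TT c < ‖w‖}) ∧
    (∀ c w : ℂ, TT c < ‖w‖ → ‖H (c, w) - 1‖ ≤ TT c / ‖w‖ / 8) ∧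
    ∀ c, BotR e c (TT c) fun w => w * H (c, w) := by
  set H : ℂ × ℂ → ℂ := fun x => limUnder atTop fun k => farH e k x with hH
  have conv : ∀ c w : ℂ, TT c < ‖w‖ → Tendsto (fun k => farH e k (c, w)) atTop (𝓝 (H (c, w))) :=
    fun c w h => (cauchySeq_of_le_geometric (3 / 5) 1 (by norm_num)
      fun k => farH_step he k c w h).tendsto_limUnder
  have hU : TendstoUniformlyOn (farH e) H atTop {x | TT x.1 < ‖x.2‖} := by
    rw [Metric.tendstoUniformlyOn_iff]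
    intro ε hε
    have h3 : Tendsto (fun n : ℕ => 1 * (3 / 5 : ℝ) ^ n / (1 - 3 / 5)) atTop (𝓝 0) := by
      simpa using ((tendsto_pow_atTop_nhds_zero_of_lt_one (r := (3 / 5 : ℝ)) (by norm_num)
        (by norm_num)).const_mul 1).div_const (1 - 3 / 5)
    filter_upwards [h3.eventually (gt_mem_nhds hε)] with n hn x hx
    rw [dist_comm]
    exact lt_of_le_of_lt (dist_le_of_le_geometric_of_tendsto (3 / 5) 1 (by norm_num)
      (fun k => farH_step he k x.1 x.2 hx) (conv x.1 x.2 hx) n) hn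
  have sl : ∀ {f : ℂ → ℂ × ℂ}, Differentiable ℂ f →
      DifferentiableOn ℂ (fun t => H (f t)) (f ⁻¹' {x | TT x.1 < ‖x.2‖}) := fun {f} hf =>
    (hU.comp f).tendstoLocallyUniformlyOn.differentiableOn (Eventually.of_forall fun k =>
      (farH_diff he k).comp hf.differentiableOn fun _ h => h) (far_open.preimage hf.continuous)
  have near : ∀ c w : ℂ, TT c < ‖w‖ → ‖H (c, w) - 1‖ ≤ TT c / ‖w‖ / 8 := fun c w h =>
    le_of_tendsto' ((conv c w h).sub_const 1).norm fun k => farH_near he k c w h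
  refine ⟨H, hU.continuousOn (Frequently.of_forall fun k => (farH_diff he k).continuousOn),
    fun w => sl (f := fun c => (c, w)) (by fun_prop), near, fun c => ?_⟩
  have h0 : ∀ w : ℂ, TT c < ‖w‖ → w ≠ 0 := fun w h =>
    norm_pos_iff.1 (by linarith [(far_pow he h).1])
  refine botR_of he (by unfold TT; linarith [norm_nonneg c])
    (differentiableOn_id.mul (sl (f := fun w => (c, w)) (by fun_prop))) (fun w h => ?_)
    (fun w h => ?_) ?_
  · refine mul_ne_zero (h0 w h) fun h1 => ?_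
    have h2 := near c w h
    have h6 : TT c / ‖w‖ ≤ 1 := (div_le_one (by linarith [(far_pow he h).1])).2 h.le
    rw [h1, zero_sub, norm_neg, norm_one] at h2
    linarith
  · have h1 : H (c, w) ^ (e + 1) = H (c, w ^ (e + 1)) - c / w ^ (e + 1) :=
      tendsto_nhds_unique (((tendsto_add_atTop_iff_nat 1).2 (conv c w h)).pow (e + 1))
        (((conv c _ (far_up he h)).sub_const _).congr fun k =>
          (farRt_pow (far_arg he h (farH_near he k c _ (far_up he h))).2).symm)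
    have h2 := pow_ne_zero (e + 1) (h0 w h)
    rw [fq, mul_pow, h1]
    field_simp
    ring
  · have hn : Tendsto (fun w : ℂ => ‖w‖) (Bornology.cobounded ℂ) atTop :=
      tendsto_norm_cobounded_atTop (E := ℂ)
    rw [tendsto_iff_norm_sub_tendsto_zero]
    refine squeeze_zero' (Eventually.of_forall fun _ => norm_nonneg _) ?_
      (by simpa using (hn.const_div_atTop (TT c)).div_const 8)
    filter_upwards [hn.eventually_gt_atTop (TT c)] with w h
    rw [mul_div_cancel_left₀ _ (h0 w h)]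
    exact near c w h

theorem far_exists (he : 1 ≤ e) (c : ℂ) : ∃ ψ, BotR e c (TT c) ψ := by
  obtain ⟨H, -, -, -, h⟩ := far_main he
  exact ⟨_, h c⟩

theorem far_near' (he : 1 ≤ e) (h : TT c < ‖w‖) : ‖Psi e (c, w) / w - 1‖ ≤ TT c / ‖w‖ / 8 := by
  obtain ⟨H, -, -, h1, h2⟩ := far_main he
  rw [(h2 c).psi he h, mul_div_cancel_left₀ _ (norm_pos_iff.1 (by linarith [(far_pow he h).1]))]
  exact h1 c w h

theorem far_near (he : 1 ≤ e) (h : TT c < ‖w‖) : ‖Psi e (c, w) / w - 1‖ ≤ 1 / 8 := by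
  have h6 : TT c / ‖w‖ ≤ 1 := (div_le_one (by linarith [(far_pow he h).1])).2 h.le
  linarith [far_near' he h]

theorem far_cont (he : 1 ≤ e) : ContinuousOn (Psi e) {x | TT x.1 < ‖x.2‖} := by
  obtain ⟨H, h1, -, -, h2⟩ := far_main he
  exact (continuous_snd.continuousOn.mul h1).congr fun x hx => (h2 x.1).psi he hx

theorem far_diff (he : 1 ≤ e) (w : ℂ) :
    DifferentiableOn ℂ (fun c => Psi e (c, w)) {c | TT c < ‖w‖} := by
  obtain ⟨H, -, h1, -, h2⟩ := far_main he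
  exact ((h1 w).const_mul w).congr fun c hc => (h2 c).psi he hc

theorem psi_asy (he : 1 ≤ e) (c : ℂ) :
    Tendsto (fun w => Psi e (c, w) / w) (Bornology.cobounded ℂ) (𝓝 1) := by
  obtain ⟨φ, h⟩ := far_exists he c
  refine h.asy.congr' ?_
  filter_upwards [(tendsto_norm_cobounded_atTop (E := ℂ)).eventually_gt_atTop (TT c)] with w hw
  rw [h.psi he hw]

theorem Semi.iter {D : Set ℂ} {g : ℂ → ℂ} (h : Semi e c D g)
    (hp : ∀ w ∈ D, w ^ (e + 1) ∈ D) (hw : w ∈ D) (k : ℕ) :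
    w ^ (e + 1) ^ k ∈ D ∧ g (w ^ (e + 1) ^ k) = (fq e c)^[k] (g w) := by
  induction k with
  | zero => simpa using hw
  | succ k ih =>
    rw [Function.iterate_succ_apply', ← ih.2, pow_succ, pow_mul]
    exact ⟨hp _ ih.1, h.semi _ ih.1⟩

theorem Semi.bound (he : 1 ≤ e) {D : Set ℂ} {g : ℂ → ℂ} (h : Semi e c D g)
    (hp : ∀ w ∈ D, w ^ (e + 1) ∈ D) (hw : w ∈ D) (h1 : 1 < ‖w‖) :
    ‖g w‖ ≤ 6 / 5 * ‖w‖ ∨ ‖g w‖ ≤ 10 * (√‖c‖ + 1) := by
  obtain ⟨R, hR⟩ := h.far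
  have big : Tendsto (fun k : ℕ => ‖w ^ (e + 1) ^ k‖) atTop atTop := by
    simp only [norm_pow]
    exact (tendsto_pow_atTop_atTop_of_one_lt h1).comp
      (tendsto_pow_atTop_atTop_of_one_lt (by omega))
  have h2 := ((psi_asy he c).comp (tendsto_norm_atTop_iff_cobounded.1 big)).norm
  rw [norm_one] at h2
  refine orb_bound he h1.le (h2.congr' ?_)
  filter_upwards [big.eventually_gt_atTop R] with k hk
  simp only [Function.comp]
  rw [norm_div, norm_pow, ← hR _ (h.iter hp hw k).1 hk, (h.iter hp hw k).2]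

end Pool.Agent.MP_28f8a1_an.Mlc

/-! The maximal disc of the inverse Boettcher map. -/

set_option autoImplicit false

namespace Pool.Agent.MP_28f8a1_an.Mlc

open MeasureTheory Metric Set Real Filter Topology Pool.Agent.MP_28f8a1_an.H42
open Complex (I)

variable {e n p q N : ℕ} {θ : ℕ → ℝ} {A : Set ℂ} {c w : ℂ} {r r' : ℝ} {ψ ψ' : ℂ → ℂ}

theorem x61_conn (hr : 0 < r) : IsPreconnected {w : ℂ | r < ‖w‖} := by
  have h : {w : ℂ | r < ‖w‖} = Complex.exp '' {ζ : ℂ | Real.log r < ζ.re} := by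
    ext w
    constructor
    · intro hw
      have hw' : r < ‖w‖ := hw
      refine ⟨Complex.log w, ?_, Complex.exp_log (norm_pos_iff.1 (hr.trans hw'))⟩
      show Real.log r < (Complex.log w).re
      rw [Complex.log_re]
      exact Real.log_lt_log hr hw'
    · rintro ⟨ζ, hζ, rfl⟩
      show r < ‖Complex.exp ζ‖
      rw [Complex.norm_exp, ← Real.exp_log hr]
      exact Real.exp_lt_exp.2 hζ
  rw [h]
  exact (convex_halfSpace_re_gt _).isPreconnected.image _ Complex.continuous_exp.continuousOn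

theorem x61_root (he : 1 ≤ e) (hr : 1 ≤ r) : ∃ s : ℝ, 1 ≤ s ∧ s ^ (e + 1) = r ∧ (1 < r → s < r) := by
  have h1 : (r ^ (((e + 1 : ℕ) : ℝ)⁻¹)) ^ (e + 1) = r :=
    Real.rpow_inv_natCast_pow (by linarith) (by omega)
  have h2 : 1 ≤ r ^ (((e + 1 : ℕ) : ℝ)⁻¹) := Real.one_le_rpow hr (by positivity)
  refine ⟨_, h2, h1, fun h => ?_⟩
  generalize r ^ (((e + 1 : ℕ) : ℝ)⁻¹) = s at h1 h2
  have h3 : 1 < s := lt_of_le_of_ne h2 fun h4 => by
    rw [← h4, one_pow] at h1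
    linarith
  rw [← h1]
  exact lt_self_pow₀ h3 (by omega)

theorem BotR.ext (he : 1 ≤ e) (h : BotR e c r ψ) (h1 : 1 ≤ r') (h2 : r ≤ r' ^ (e + 1))
    (h3 : ∀ w : ℂ, r' ^ (e + 1) < ‖w‖ → ψ w ≠ c) : ∃ ψ', BotR e c r' ψ' := by
  classical
  have hd : ((e + 1 : ℕ) : ℂ) ≠ 0 := Nat.cast_ne_zero.mpr (Nat.succ_ne_zero e)
  have hρ : r' ≤ r' ^ (e + 1) := le_self_pow₀ h1 (by omega)
  have hpw : ∀ w : ℂ, r' < ‖w‖ → r' ^ (e + 1) < ‖w ^ (e + 1)‖ := fun w hw => by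
    rw [norm_pow]
    exact pow_lt_pow_left₀ hw (by linarith) (by omega)
  generalize r' ^ (e + 1) = ρ at h2 h3 hρ hpw
  have ρ0 : 0 < ρ := by linarith
  set g : ℂ → ℂ := Function.update (fun u => ψ u⁻¹ / u⁻¹) 0 1 with hg
  have g0 : g 0 = 1 := Function.update_self ..
  have gu : ∀ u : ℂ, u ≠ 0 → g u = ψ u⁻¹ / u⁻¹ := fun u hu => Function.update_of_ne hu ..
  have hin : ∀ u : ℂ, u ∈ ball (0 : ℂ) ρ⁻¹ → u ≠ 0 → ρ < ‖u⁻¹‖ := by
    intro u hu h0
    rw [mem_ball_zero_iff] at hu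
    rwa [norm_inv, lt_inv_comm₀ ρ0 (norm_pos_iff.2 h0)]
  have hout : ∀ w : ℂ, ρ < ‖w‖ → w⁻¹ ∈ ball (0 : ℂ) ρ⁻¹ := fun w hw => by
    rw [mem_ball_zero_iff, norm_inv]
    exact inv_strictAnti₀ ρ0 hw
  have gd : DifferentiableOn ℂ g (ball 0 ρ⁻¹) := by
    rw [← Complex.differentiableOn_compl_singleton_and_continuousAt_iff
      (ball_mem_nhds (0 : ℂ) (inv_pos.2 ρ0))]
    refine ⟨?_, ?_⟩
    · refine DifferentiableOn.congr (f := fun u => ψ u⁻¹ / u⁻¹) ?_ fun u hu => gu u hu.2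
      have hi : DifferentiableOn ℂ (fun u : ℂ => u⁻¹) (ball 0 ρ⁻¹ \ {0}) :=
        differentiableOn_id.inv fun u hu => hu.2
      exact (h.diff.comp hi fun u hu => h2.trans_lt (hin u hu.1 hu.2)).div hi
        fun u hu => inv_ne_zero hu.2
    · rw [hg, continuousAt_update_same]
      exact h.asy.comp tendsto_inv₀_nhdsNE_zero
  obtain ⟨L, hL, hLe⟩ := exists_log (F := fun v => g v - c * v) (x := 0) (R := ρ⁻¹)
    (gd.sub (by fun_prop)) fun v hv h0 => by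
      by_cases hv0 : v = 0
      · simp [hv0, g0] at h0
      refine h3 _ (hin v hv hv0) ?_
      rw [gu v hv0, div_inv_eq_mul, ← sub_mul] at h0
      exact sub_eq_zero.1 ((mul_eq_zero.1 h0).resolve_right hv0)
  have hL0 : Complex.exp (L 0) = 1 := by simpa [g0] using hLe 0 (mem_ball_self (inv_pos.2 ρ0))
  set φ : ℂ → ℂ := fun w => w * Complex.exp ((L (w ^ (e + 1))⁻¹ - L 0) / (e + 1 : ℕ)) with hφ
  have w0 : ∀ w : ℂ, r' < ‖w‖ → w ≠ 0 := fun w hw => norm_pos_iff.1 (by linarith)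
  have φp : ∀ w : ℂ, r' < ‖w‖ → φ w ^ (e + 1) = ψ (w ^ (e + 1)) - c := fun w hw => by
    have h0 : w ^ (e + 1) ≠ 0 := pow_ne_zero _ (w0 w hw)
    rw [hφ]
    dsimp only
    rw [mul_pow, ← Complex.exp_nat_mul, mul_div_cancel₀ _ hd, Complex.exp_sub, hL0, div_one,
      hLe _ (hout _ (hpw w hw)), gu _ (inv_ne_zero h0), inv_inv]
    field_simp
  have φd : DifferentiableOn ℂ φ {w | r' < ‖w‖} := by
    have hi : DifferentiableOn ℂ (fun w : ℂ => (w ^ (e + 1))⁻¹) {w | r' < ‖w‖} :=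
      (differentiableOn_id.pow _).inv fun w hw => pow_ne_zero _ (w0 w hw)
    exact differentiableOn_id.mul
      (((hL.comp hi fun w hw => hout _ (hpw w hw)).sub_const _).div_const _).cexp
  have big : ∀ s : ℝ, ∀ᶠ w : ℂ in Bornology.cobounded ℂ, s < ‖w‖ := fun s =>
    (tendsto_norm_cobounded_atTop (E := ℂ)).eventually (eventually_gt_atTop s)
  have φa : Tendsto (fun w => φ w / w) (Bornology.cobounded ℂ) (𝓝 1) := by
    have a1 : Tendsto (fun w : ℂ => (w ^ (e + 1))⁻¹) (Bornology.cobounded ℂ) (𝓝 0) := by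
      have := (tendsto_inv₀_cobounded (α := ℂ)).pow (e + 1)
      simpa [inv_pow] using this
    have a2 : ContinuousAt L 0 :=
      hL.continuousOn.continuousAt (ball_mem_nhds _ (inv_pos.2 ρ0))
    have a3 := (((a2.tendsto.comp a1).sub_const (L 0)).div_const ((e + 1 : ℕ) : ℂ)).cexp
    rw [sub_self, zero_div, Complex.exp_zero] at a3
    refine a3.congr' ?_
    filter_upwards [big r'] with w hw
    rw [hφ]
    dsimp only [Function.comp]
    rw [mul_div_cancel_left₀ _ (w0 w hw)]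
  have op : ∀ s : ℝ, IsOpen {w : ℂ | s < ‖w‖} := fun s => isOpen_lt continuous_const continuous_norm
  have eqn : EqOn φ ψ {w | ρ < ‖w‖} := by
    obtain ⟨η, hη, hs⟩ := b37_sum he
    have a1 : ∀ᶠ w : ℂ in Bornology.cobounded ℂ, φ w = ψ w := by
      filter_upwards [big ρ, φa.eventually (ball_mem_nhds 1 hη), h.asy.eventually (ball_mem_nhds 1 hη)]
        with w b1 b2 b3
      have b4 := hs _ _ (mem_ball_iff_norm.1 b2) (mem_ball_iff_norm.1 b3)
      rw [div_pow, div_pow, φp w (hρ.trans_lt b1), h.semi w (h2.trans_lt b1), fq,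
        add_sub_cancel_right, sub_self, norm_zero] at b4
      have b5 : φ w / w - ψ w / w = 0 := norm_le_zero_iff.1 (by linarith)
      exact (div_left_inj' (w0 w (hρ.trans_lt b1))).1 (sub_eq_zero.1 b5)
    obtain ⟨s, -, hs'⟩ := (Metric.hasBasis_cobounded_compl_closedBall (0 : ℂ)).eventually_iff.1 a1
    have b1 : ‖((max ρ s + 1 : ℝ) : ℂ)‖ = max ρ s + 1 := by
      rw [Complex.norm_real, Real.norm_of_nonneg (by linarith [le_max_left ρ s])]
    refine AnalyticOnNhd.eqOn_of_preconnected_of_eventuallyEq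
      ((φd.mono fun w hw => hρ.trans_lt hw).analyticOnNhd (op ρ))
      ((h.diff.mono fun w hw => h2.trans_lt hw).analyticOnNhd (op ρ)) (x61_conn ρ0)
      (z₀ := ((max ρ s + 1 : ℝ) : ℂ)) (show ρ < _ by rw [b1]; linarith [le_max_left ρ s]) ?_
    filter_upwards [(op s).mem_nhds (show s < ‖((max ρ s + 1 : ℝ) : ℂ)‖ by
      rw [b1]; linarith [le_max_right ρ s])] with w hw
    exact hs' (by simpa using hw)
  refine ⟨φ, botR_of he h1 φd (fun w hw => mul_ne_zero (w0 w hw) (Complex.exp_ne_zero _))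
    (fun w hw => ?_) φa⟩
  rw [eqn (hpw w hw), fq, φp w hw, sub_add_cancel]

theorem M_dom (he : 1 ≤ e) (hc : c ∈ Mset e) (hw : 1 < ‖w‖) : (c, w) ∈ Dom e := by
  obtain ⟨ψ, h⟩ := bot_exists he hc
  exact ⟨1, ψ, h.botR, hw⟩

theorem x61_inf (he : 1 ≤ e) (c : ℂ) : ∃ R : ℝ, (BotR e c R fun w => Psi e (c, w)) ∧
    ∀ (r : ℝ) (ψ : ℂ → ℂ), BotR e c r ψ → R ≤ r := by
  have hne : {r : ℝ | ∃ ψ, BotR e c r ψ}.Nonempty := ⟨_, far_exists he c⟩
  have hb : BddBelow {r : ℝ | ∃ ψ, BotR e c r ψ} := ⟨1, fun r ⟨_, h⟩ => h.one⟩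
  have key : ∀ w : ℂ, sInf {r : ℝ | ∃ ψ, BotR e c r ψ} < ‖w‖ → ∃ r ψ, BotR e c r ψ ∧ r < ‖w‖ := by
    intro w hw
    obtain ⟨r, ⟨ψ, h⟩, hr⟩ := exists_lt_of_csInf_lt hne hw
    exact ⟨r, ψ, h, hr⟩
  refine ⟨_, ⟨le_csInf hne fun r ⟨_, h⟩ => h.one, fun w hw => ?_,
    fun w hw v hv h => dom_inj he (key w hw) (key v hv) h, fun w hw => (dom_semi he (key w hw)).2,
    psi_asy he c⟩, fun r ψ h => csInf_le hb ⟨ψ, h⟩⟩
  obtain ⟨r, ψ, h, hr⟩ := key w hw
  have ho : {w : ℂ | r < ‖w‖} ∈ 𝓝 w := (isOpen_lt continuous_const continuous_norm).mem_nhds hr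
  refine ((h.diff.differentiableAt ho).congr_of_eventuallyEq ?_).differentiableWithinAt
  filter_upwards [ho] with v hv
  exact h.psi he hv

theorem hit_phi (he : 1 ≤ e) (hc : c ∉ Mset e) : Hit e c (Phi e c) := by
  refine Classical.epsilon_spec (p := Hit e c) ?_
  by_contra hn
  obtain ⟨R, h, hR⟩ := x61_inf he c
  have h1 : 1 < R := lt_of_le_of_ne h.one fun h2 => hc (Bot.mem he (h2 ▸ h).bot)
  obtain ⟨s, s1, s2, s3⟩ := x61_root he h.one
  obtain ⟨ψ', h'⟩ := h.ext he s1 s2.ge fun w hw h3 => hn ⟨w, ⟨R, _, h, by rwa [s2] at hw⟩, h3⟩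
  exact absurd (hR _ _ h') (not_le.2 (s3 h1))

theorem x61_pre (he : 1 ≤ e) (h : Hit e c w) {u : ℂ} (hu : u ^ (e + 1) = w) : (c, u) ∉ Dom e := by
  intro hd
  have h1 := (dom_semi he hd).2
  rw [hu, h.2, fq, right_eq_add] at h1
  exact dom_ne he hd (pow_eq_zero_iff (by omega) |>.1 h1)

theorem Hit.not_mem (he : 1 ≤ e) (h : Hit e c w) : c ∉ Mset e := by
  intro hc
  obtain ⟨u, hu⟩ := IsAlgClosed.exists_pow_nat_eq w e.succ_pos
  have h1 := dom_one h.1
  rw [← hu, norm_pow] at h1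
  exact x61_pre he h hu
    (M_dom he hc ((one_lt_pow_iff_of_nonneg (norm_nonneg _) e.succ_ne_zero).1 h1))

theorem Hit.phi (he : 1 ≤ e) (h : Hit e c w) : Phi e c = w := by
  have h' := hit_phi he (h.not_mem he)
  exact dom_inj he h'.1 h.1 (h'.2.trans h.2.symm)

theorem Hit.dom (he : 1 ≤ e) (h : Hit e c w) (v : ℂ) : (c, v) ∈ Dom e ↔ ‖w‖ < ‖v‖ ^ (e + 1) := by
  constructor
  · intro hv
    by_contra hn
    obtain ⟨u, hu⟩ := IsAlgClosed.exists_pow_nat_eq w e.succ_pos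
    refine x61_pre he h hu (dom_mono hv ?_)
    rw [← hu, norm_pow, not_lt] at hn
    exact le_of_pow_le_pow_left₀ e.succ_ne_zero (norm_nonneg _) hn
  · intro hv
    obtain ⟨r, ψ, h1, h2⟩ := h.1
    have h3 : r < ‖w‖ := h2
    obtain ⟨s, s1, s2, -⟩ := x61_root he (h1.one.trans h3.le)
    obtain ⟨ψ', h'⟩ := h1.ext he s1 (s2 ▸ h3.le) fun x hx h4 => by
      rw [s2] at hx
      have h5 : x = w := h1.inj (h3.trans hx) h3 (by rw [h4, ← h1.psi he h3, h.2])
      exact lt_irrefl _ (h5 ▸ hx)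
    refine ⟨s, ψ', h', lt_of_pow_lt_pow_left₀ (e + 1) (norm_nonneg _) ?_⟩
    rwa [s2]

end Pool.Agent.MP_28f8a1_an.Mlc

/-! Continuations depend holomorphically on the parameter. -/

set_option autoImplicit false

namespace Pool.Agent.MP_28f8a1_an.Mlc

open MeasureTheory Metric Set Real Filter Topology Pool.Agent.MP_28f8a1_an.H42
open Complex (I)

variable {e n p q N : ℕ} {θ : ℕ → ℝ} {A : Set ℂ} {c w : ℂ} {r r' : ℝ} {ψ ψ' : ℂ → ℂ}

theorem lift_pow {a : ℂ} (ha : a ≠ 0) : ∃ D : ℂ, D ≠ 0 ∧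
    HasStrictDerivAt (fun z : ℂ => z ^ (e + 1)) D a :=
  ⟨_, mul_ne_zero (Nat.cast_ne_zero.2 (by omega)) (pow_ne_zero _ ha), hasStrictDerivAt_pow (e + 1) a⟩

/-- A continuous root of a differentiable function is differentiable. -/
theorem lift_root {f F : ℂ → ℂ} {x : ℂ} (hf : ContinuousAt f x) (h0 : f x ≠ 0)
    (hF : DifferentiableAt ℂ F x) (h : ∀ᶠ y in 𝓝 x, f y ^ (e + 1) = F y) :
    DifferentiableAt ℂ f x := by
  obtain ⟨D, hD, hs⟩ := lift_pow (e := e) h0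
  have h1 := (hs.to_localInverse hD).hasDerivAt.differentiableAt
  have h2 := hf.eventually (hs.hasStrictFDerivAt_equiv hD).eventually_left_inverse
  simp only [h.self_of_nhds] at h1
  refine (h1.comp x hF).congr_of_eventuallyEq ?_
  filter_upwards [h, h2] with y a b
  simp only [Function.comp, ← a]
  exact b.symm

theorem lift_inj (e : ℕ) : ∃ ρ > 0, ∀ a b : ℂ, ‖a - 1‖ < ρ → ‖b - 1‖ < ρ →
    a ^ (e + 1) = b ^ (e + 1) → a = b := by
  obtain ⟨D, hD, hs⟩ := lift_pow (e := e) (one_ne_zero (α := ℂ))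
  obtain ⟨ρ, hρ, h⟩ := Metric.eventually_nhds_iff.1
    (hs.hasStrictFDerivAt_equiv hD).eventually_left_inverse
  refine ⟨ρ, hρ, fun a b ha hb hab => ?_⟩
  have h1 := h (y := a) (by rwa [dist_eq_norm])
  have h2 := h (y := b) (by rwa [dist_eq_norm])
  simp only [hab] at h1
  exact h1.symm.trans h2

theorem lift_tube {F : ℂ × ℂ → ℂ} {K : Set ℂ} {δ ρ : ℝ} (hK : IsCompact K) (hδ : 0 < δ) (hρ : 0 < ρ)
    (hF : ContinuousOn F (closedBall c δ ×ˢ K)) (h1 : ∀ w ∈ K, F (c, w) = 1) :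
    ∃ δ' > 0, δ' ≤ δ ∧ ∀ c' ∈ closedBall c δ', ∀ w ∈ K, ‖F (c', w) - 1‖ < ρ := by
  obtain ⟨η, hη, h⟩ := Metric.uniformContinuousOn_iff.1
    (((isCompact_closedBall c δ).prod hK).uniformContinuousOn_of_continuous hF) ρ hρ
  refine ⟨min δ (η / 2), by positivity, min_le_left _ _, fun c' hc' w hw => ?_⟩
  rw [← h1 w hw, ← dist_eq_norm]
  refine h _ ⟨closedBall_subset_closedBall (min_le_left _ _) hc', hw⟩ _
    ⟨mem_closedBall_self hδ.le, hw⟩ ?_
  rw [Prod.dist_eq, dist_self, max_eq_left dist_nonneg]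
  exact (mem_closedBall.1 hc').trans_lt ((min_le_right _ _).trans_lt (by linarith))

theorem lift_TT {c' : ℂ} (h : c' ∈ closedBall c 1) : TT c' ≤ TT c + 8 := by
  have := norm_sub_norm_le c' c
  rw [mem_closedBall, dist_eq_norm] at h
  unfold TT
  linarith

/-- The continuation on finitely many levels. -/
theorem lift_level (he : 1 ≤ e) {D : Set ℂ} {g₀ : ℂ → ℂ} (hD : IsClosed D)
    (hD1 : ∀ w ∈ D, 1 ≤ ‖w‖) (hp : ∀ w ∈ D, w ^ (e + 1) ∈ D) (h : Semi e c D g₀) {R : ℝ}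
    (hR : TT c + 8 < R) (hf : ∀ w ∈ D, R ≤ ‖w‖ → g₀ w = Psi e (c, w)) (k : ℕ) :
    ∃ δ > 0, δ ≤ 1 ∧ ∃ g : ℂ × ℂ → ℂ,
      ContinuousOn g (closedBall c δ ×ˢ {w ∈ D | R ≤ ‖w‖ ^ (e + 1) ^ k}) ∧
      (∀ w ∈ D, R ≤ ‖w‖ ^ (e + 1) ^ k → g (c, w) = g₀ w) ∧
      ∀ c' ∈ closedBall c δ, ∀ w ∈ D, R ≤ ‖w‖ ^ (e + 1) ^ k → g (c', w) ≠ 0 ∧
        g (c', w ^ (e + 1)) = g (c', w) ^ (e + 1) + c' ∧ (R ≤ ‖w‖ → g (c', w) = Psi e (c', w)) := by
  classical
  induction k with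
  | zero =>
    simp only [pow_zero, pow_one]
    refine ⟨1, one_pos, le_rfl, Psi e, (far_cont he).mono fun x hx => ?_,
      fun w hw h1 => (hf w hw h1).symm, fun c' hc' w _ h1 => ?_⟩
    · exact ((lift_TT hx.1).trans_lt hR).trans_le hx.2.2
    · obtain ⟨φ, hφ⟩ := far_exists he c'
      have hd : (c', w) ∈ Dom e := ⟨_, φ, hφ, ((lift_TT hc').trans_lt hR).trans_le h1⟩
      exact ⟨dom_ne he hd, (dom_semi he hd).2, fun _ => rfl⟩
  | succ k ih =>
    obtain ⟨δ, hδ, hδ1, g, g1, g2, g3⟩ := ih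
    obtain ⟨ρ, hρ, hinj⟩ := lift_inj e
    set L : Set ℂ := {w ∈ D | R ≤ ‖w‖ ^ (e + 1) ^ k} with hL
    set K : Set ℂ := {w ∈ D | R ≤ ‖w‖ ^ (e + 1) ^ (k + 1) ∧ ‖w‖ ^ (e + 1) ^ k ≤ R} with hK
    have cn : ∀ j : ℕ, Continuous fun w : ℂ => ‖w‖ ^ j := fun j => continuous_norm.pow j
    have cL : IsClosed L := hD.inter (isClosed_le continuous_const (cn _))
    have cK : IsClosed K := hD.inter ((isClosed_le continuous_const (cn _)).inter
      (isClosed_le (cn _) continuous_const))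
    have kK : IsCompact K := (isCompact_closedBall (0 : ℂ) R).of_isClosed_subset cK fun w hw =>
      mem_closedBall_zero_iff.2 ((le_self_pow₀ (hD1 w hw.1) (by positivity)).trans hw.2.2)
    have up : ∀ w ∈ D, R ≤ ‖w‖ ^ (e + 1) ^ (k + 1) → w ^ (e + 1) ∈ L := fun w hw h1 =>
      ⟨hp w hw, by rwa [norm_pow, ← pow_mul, ← pow_succ']⟩
    have mono : ∀ w ∈ L, R ≤ ‖w‖ ^ (e + 1) ^ (k + 1) := fun w hw =>
      hw.2.trans (pow_le_pow_right₀ (hD1 w hw.1) (Nat.pow_le_pow_right (by omega) (by omega)))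
    have c0 : ∀ {s : Set ℂ} {t : Set ℂ}, t ⊆ D → ContinuousOn (fun x : ℂ × ℂ => g₀ x.2) (s ×ˢ t) :=
      fun ht => h.cont.comp continuous_snd.continuousOn fun x hx => ht hx.2
    set Q : ℂ × ℂ → ℂ := fun x => (g (x.1, x.2 ^ (e + 1)) - x.1) / g₀ x.2 ^ (e + 1) with hQ
    have cQ : ContinuousOn Q (closedBall c δ ×ˢ K) := by
      refine ContinuousOn.div (ContinuousOn.sub (g1.comp (by fun_prop) fun x hx =>
        ⟨hx.1, up _ hx.2.1 hx.2.2.1⟩) (by fun_prop)) ((c0 fun w hw => hw.1).pow _)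
        fun x hx => pow_ne_zero _ (h.ne _ hx.2.1)
    have Q1 : ∀ w ∈ K, Q (c, w) = 1 := fun w hw => by
      have hu := up w hw.1 hw.2.1
      simp only [hQ]
      rw [g2 _ hu.1 hu.2, h.semi w hw.1, fq, add_sub_cancel_right,
        div_self (pow_ne_zero _ (h.ne w hw.1))]
    obtain ⟨δ₁, a1, a2, a3⟩ := lift_tube kK hδ one_pos cQ Q1
    have sl : ∀ x ∈ closedBall c δ₁ ×ˢ K, Q x ∈ Complex.slitPlane := fun x hx => by
      have := Complex.mem_slitPlane_of_norm_lt_one (a3 x.1 hx.1 x.2 hx.2)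
      rwa [add_sub_cancel] at this
    set σ : ℂ × ℂ → ℂ := fun x => Complex.exp (Complex.log (Q x) / (e + 1 : ℕ)) with hσ
    have cσ : ContinuousOn σ (closedBall c δ₁ ×ˢ K) :=
      (((cQ.mono (prod_mono (closedBall_subset_closedBall a2) Subset.rfl)).clog
        sl).div_const _).cexp
    have σ1 : ∀ w ∈ K, σ (c, w) = 1 := fun w hw => by simp [hσ, Q1 w hw]
    have σp : ∀ x ∈ closedBall c δ₁ ×ˢ K, σ x ^ (e + 1) = Q x := fun x hx => by
      simp only [hσ]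
      rw [← Complex.exp_nat_mul, mul_div_cancel₀ _ (Nat.cast_ne_zero.2 (by omega)),
        Complex.exp_log (Complex.slitPlane_ne_zero (sl x hx))]
    obtain ⟨δ₂, b1, b2, b3⟩ := lift_tube kK a1 hρ cσ σ1
    obtain ⟨δ₃, d1, d2, d3⟩ := lift_tube (c := c) (F := fun x => g x / g₀ x.2) (kK.inter_right cL)
      b1 hρ (ContinuousOn.div (g1.mono (prod_mono (closedBall_subset_closedBall (b2.trans a2))
        inter_subset_right)) (c0 fun w hw => hw.1.1) fun x hx => h.ne _ hx.2.1.1)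
      fun w hw => by rw [g2 w hw.2.1 hw.2.2, div_self (h.ne w hw.1.1)]
    have s1 : closedBall c δ₃ ⊆ closedBall c δ₁ := closedBall_subset_closedBall (d2.trans b2)
    have s0 : closedBall c δ₃ ⊆ closedBall c δ := s1.trans (closedBall_subset_closedBall a2)
    let G : ℂ × ℂ → ℂ := fun x => if x.2 ∈ L then g x else g₀ x.2 * σ x
    have G1 : ∀ x : ℂ × ℂ, x.2 ∈ L → G x = g x := fun x hx => if_pos hx
    have G2 : ∀ x ∈ closedBall c δ₃ ×ˢ K, G x = g₀ x.2 * σ x := fun x hx => by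
      by_cases hl : x.2 ∈ L
      · have n0 := h.ne _ hx.2.1
        rw [G1 x hl, ← hinj _ _ (d3 x.1 hx.1 x.2 ⟨hx.2, hl⟩)
          (b3 x.1 (closedBall_subset_closedBall d2 hx.1) x.2 hx.2) ?_, mul_div_cancel₀ _ n0]
        rw [σp _ ⟨s1 hx.1, hx.2⟩, div_pow]
        simp only [hQ]
        rw [(g3 x.1 (s0 hx.1) x.2 hl.1 hl.2).2.1, add_sub_cancel_right]
      · exact if_neg hl
    have cov : ∀ w ∈ D, R ≤ ‖w‖ ^ (e + 1) ^ (k + 1) → w ∈ L ∨ w ∈ K := fun w hw h1 =>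
      (le_total R (‖w‖ ^ (e + 1) ^ k)).imp (fun h2 => ⟨hw, h2⟩) fun h2 => ⟨hw, h1, h2⟩
    refine ⟨δ₃, d1, (d2.trans (b2.trans a2)).trans hδ1, G, ?_, fun w hw h1 => ?_,
      fun c' hc' w hw h1 => ?_⟩
    · refine (((g1.mono (prod_mono s0 Subset.rfl)).congr fun x hx => G1 x hx.2).union_of_isClosed
        (((c0 fun w hw => hw.1).mul (cσ.mono (prod_mono s1 Subset.rfl))).congr G2)
        (isClosed_closedBall.prod cL) (isClosed_closedBall.prod cK)).mono fun x hx => ?_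
      exact (cov _ hx.2.1 hx.2.2).imp (fun h2 => ⟨hx.1, h2⟩) fun h2 => ⟨hx.1, h2⟩
    · rcases cov w hw h1 with h2 | h2
      · rw [G1 _ h2, g2 w hw h2.2]
      · rw [G2 _ ⟨mem_closedBall_self d1.le, h2⟩, σ1 w h2, mul_one]
    · rw [G1 (c', w ^ (e + 1)) (up w hw h1)]
      refine ⟨?_, ?_, fun h2 => ?_⟩
      · rcases cov w hw h1 with h2 | h2
        · rw [G1 _ h2]; exact (g3 c' (s0 hc') w hw h2.2).1
        · rw [G2 _ ⟨hc', h2⟩]; exact mul_ne_zero (h.ne w hw) (Complex.exp_ne_zero _)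
      · rcases cov w hw h1 with h2 | h2
        · rw [G1 _ h2]; exact (g3 c' (s0 hc') w hw h2.2).2.1
        · rw [G2 _ ⟨hc', h2⟩, mul_pow, σp _ ⟨s1 hc', h2⟩]
          simp only [hQ]
          rw [mul_div_cancel₀ _ (pow_ne_zero _ (h.ne w hw)), sub_add_cancel]
      · have h3 : w ∈ L := ⟨hw, h2.trans (le_self_pow₀ (hD1 w hw) (by positivity))⟩
        rw [G1 _ h3]; exact (g3 c' (s0 hc') w hw h3.2).2.2 h2

theorem lift (he : 1 ≤ e) {D : Set ℂ} {g₀ : ℂ → ℂ} (hr : 1 < r) (hD : IsClosed D)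
    (hDr : ∀ w ∈ D, r ≤ ‖w‖) (hp : ∀ w ∈ D, w ^ (e + 1) ∈ D) (h : Semi e c D g₀) :
    ∃ δ > 0, ∃ g : ℂ × ℂ → ℂ, ContinuousOn g (ball c δ ×ˢ D) ∧ (∀ w ∈ D, g (c, w) = g₀ w) ∧
      (∀ c' ∈ ball c δ, Semi e c' D fun w => g (c', w)) ∧
      (∀ w ∈ D, DifferentiableOn ℂ (fun c' => g (c', w)) (ball c δ)) ∧
      (DifferentiableOn ℂ g₀ (interior D) →
        ∀ c' ∈ ball c δ, DifferentiableOn ℂ (fun w => g (c', w)) (interior D)) := by
  obtain ⟨R₀, hR₀⟩ := h.far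
  set R : ℝ := max R₀ (TT c + 8) + 1 with hR
  have r1 : R₀ < R := by linarith [le_max_left R₀ (TT c + 8)]
  have r2 : TT c + 8 < R := by linarith [le_max_right R₀ (TT c + 8)]
  have hD1 : ∀ w ∈ D, 1 ≤ ‖w‖ := fun w hw => hr.le.trans (hDr w hw)
  obtain ⟨k, hk⟩ := pow_unbounded_of_one_lt R hr
  have all : ∀ w ∈ D, R < ‖w‖ ^ (e + 1) ^ k := fun w hw =>
    hk.trans_le ((pow_le_pow_left₀ (by linarith) (hDr w hw) k).trans
      (pow_le_pow_right₀ (hD1 w hw) (Nat.lt_pow_self (by omega)).le))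
  obtain ⟨δ, hδ, hδ1, g, g1, g2, g3⟩ :=
    lift_level he hD hD1 hp h r2 (fun w hw h1 => hR₀ w hw (r1.trans_le h1)) k
  have g1' : ContinuousOn g (ball c δ ×ˢ D) :=
    g1.mono (prod_mono ball_subset_closedBall fun w hw => ⟨hw, (all w hw).le⟩)
  have g4 := fun c' (hc' : c' ∈ ball c δ) w (hw : w ∈ D) =>
    g3 c' (ball_subset_closedBall hc') w hw (all w hw).le
  have tt : ∀ c' ∈ ball c δ, TT c' < R := fun c' hc' =>
    (lift_TT (closedBall_subset_closedBall hδ1 (ball_subset_closedBall hc'))).trans_lt r2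
  have cw : ∀ c' ∈ ball c δ, ContinuousOn (fun w => g (c', w)) D := fun c' hc' =>
    g1'.comp (by fun_prop) fun w hw => ⟨hc', hw⟩
  refine ⟨δ, hδ, g, g1', fun w hw => g2 w hw (all w hw).le, fun c' hc' =>
    ⟨cw c' hc', fun w hw => (g4 c' hc' w hw).1, fun w hw => (g4 c' hc' w hw).2.1,
      R, fun w hw h1 => (g4 c' hc' w hw).2.2 h1.le⟩, fun w hw => ?_, fun _ c' hc' w hw => ?_⟩
  · have key : ∀ j : ℕ, ∀ w ∈ D, R < ‖w‖ ^ (e + 1) ^ j →
        DifferentiableOn ℂ (fun c' => g (c', w)) (ball c δ) := by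
      intro j
      induction j with
      | zero =>
        intro w hw h1
        rw [pow_zero, pow_one] at h1
        exact ((far_diff he w).mono fun c' hc' => (tt c' hc').trans h1).congr
          fun c' hc' => (g4 c' hc' w hw).2.2 h1.le
      | succ j ih =>
        intro w hw h1 c' hc'
        have hn := isOpen_ball.mem_nhds hc'
        have h2 := (ih _ (hp w hw) (by rwa [norm_pow, ← pow_mul, ← pow_succ'])).differentiableAt hn
        have h3 : ContinuousOn (fun c' => g (c', w)) (ball c δ) :=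
          g1'.comp (by fun_prop) fun c' hc' => ⟨hc', hw⟩
        refine (lift_root (e := e) (h3.continuousAt hn) (g4 c' hc' w hw).1
          (h2.sub differentiableAt_id) ?_).differentiableWithinAt
        filter_upwards [hn] with y hy
        exact eq_sub_of_add_eq (g4 y hy w hw).2.1.symm
    exact key k w hw (all w hw)
  · have key : ∀ j : ℕ, ∀ w, D ∈ 𝓝 w → R < ‖w‖ ^ (e + 1) ^ j →
        DifferentiableAt ℂ (fun w => g (c', w)) w := by
      intro j
      induction j with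
      | zero =>
        intro w hw h1
        rw [pow_zero, pow_one] at h1
        obtain ⟨φ, hφ⟩ := far_exists he c'
        have hn : {v : ℂ | R < ‖v‖} ∈ 𝓝 w :=
          (isOpen_lt continuous_const continuous_norm).mem_nhds h1
        refine (hφ.diff.differentiableAt (mem_of_superset hn fun v hv =>
          (tt c' hc').trans hv)).congr_of_eventuallyEq ?_
        filter_upwards [hw, hn] with v h2 h3
        rw [(g4 c' hc' v h2).2.2 (le_of_lt h3), hφ.psi he ((tt c' hc').trans h3)]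
      | succ j ih =>
        intro w hw h1
        have hw' := mem_of_mem_nhds hw
        obtain ⟨B, hB, hs⟩ := lift_pow (e := e) (a := w)
          (norm_pos_iff.1 (one_pos.trans_le (hD1 w hw')))
        have h2 := ih (w ^ (e + 1)) (by
          rw [← hs.map_nhds_eq hB]
          exact mem_map.2 (mem_of_superset hw hp)) (by rwa [norm_pow, ← pow_mul, ← pow_succ'])
        refine lift_root (e := e) ((cw c' hc').continuousAt hw) (g4 c' hc' w hw').1
          ((h2.comp w hs.hasDerivAt.differentiableAt).sub_const c') ?_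
        filter_upwards [hw] with y hy
        exact eq_sub_of_add_eq (g4 c' hc' y hy).2.1.symm
    exact (key k w (mem_interior_iff_mem_nhds.1 hw)
      (all w (interior_subset hw))).differentiableWithinAt

end Pool.Agent.MP_28f8a1_an.Mlc

/-! The domain of the inverse Boettcher map is open. -/

set_option autoImplicit false

namespace Pool.Agent.MP_28f8a1_an.Mlc

open MeasureTheory Metric Set Real Filter Topology Pool.Agent.MP_28f8a1_an.H42
open Complex (I)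

variable {e n p q N : ℕ} {θ : ℕ → ℝ} {A : Set ℂ} {c w : ℂ} {r r' : ℝ} {ψ ψ' : ℂ → ℂ}

theorem open_key (he : 1 ≤ e) (h : (c, w) ∈ Dom e) : ∃ δ > 0, ∃ r < ‖w‖, ∃ g : ℂ × ℂ → ℂ,
    ContinuousOn g (ball c δ ×ˢ {v | r < ‖v‖}) ∧
    DifferentiableOn ℂ (fun c' => g (c', w)) (ball c δ) ∧
    ∀ x ∈ ball c δ ×ˢ {v : ℂ | r < ‖v‖}, x ∈ Dom e ∧ Psi e x = g x := by
  obtain ⟨r, ψ, h1, h2⟩ := h
  obtain ⟨s, h3, h4⟩ := exists_between h2
  have h5 := h1.one.trans_lt h3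
  have h6 : {v : ℂ | s ≤ ‖v‖} ⊆ {v | r < ‖v‖} := fun v hv => h3.trans_le hv
  have h7 : {v : ℂ | s < ‖v‖} ⊆ {v | s ≤ ‖v‖} := fun v (hv : s < ‖v‖) => hv.le
  obtain ⟨δ, hδ, g, g1, -, g3, g4, g5⟩ := lift (g₀ := ψ) (c := c) he h5
    (isClosed_le continuous_const continuous_norm) (fun _ hv => hv)
    (fun v (hv : s ≤ ‖v‖) => hv.trans (by
      rw [norm_pow]; exact le_self_pow₀ (h5.le.trans hv) e.succ_ne_zero))
    ⟨h1.diff.continuousOn.mono h6,
      fun v hv => h1.psi he (h6 hv) ▸ dom_ne he ⟨r, ψ, h1, h6 hv⟩, fun v hv => h1.semi v (h6 hv),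
      0, fun v hv _ => (h1.psi he (h6 hv)).symm⟩
  refine ⟨δ, hδ, s, h4, g, g1.mono (prod_mono_right h7), g4 w h4.le, fun ⟨a, v⟩ ⟨ha, hv⟩ => ?_⟩
  obtain ⟨R, hR⟩ := (g3 a ha).far
  have h8 : BotR e a s fun v => g (a, v) := botR_of he h5.le
    ((g5 (h1.diff.mono (interior_subset.trans h6)) a ha).mono
      (interior_maximal h7 (isOpen_lt continuous_const continuous_norm)))
    (fun v hv => (g3 a ha).ne v hv.le) (fun v hv => (g3 a ha).semi v hv.le)
    ((psi_asy he a).congr' (by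
      filter_upwards [(tendsto_norm_cobounded_atTop (E := ℂ)).eventually_gt_atTop R,
        (tendsto_norm_cobounded_atTop (E := ℂ)).eventually_ge_atTop s] with v h9 h10
      rw [hR v h10 h9]))
  exact ⟨⟨s, _, h8, hv⟩, h8.psi he hv⟩

theorem open_nhds {δ : ℝ} (hδ : 0 < δ) (h : r < ‖w‖) :
    ball c δ ×ˢ {v : ℂ | r < ‖v‖} ∈ 𝓝 (c, w) :=
  prod_mem_nhds (ball_mem_nhds c hδ) ((isOpen_lt continuous_const continuous_norm).mem_nhds h)

theorem dom_open (he : 1 ≤ e) : IsOpen (Dom e) := by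
  refine isOpen_iff_mem_nhds.2 fun ⟨c, w⟩ h => ?_
  obtain ⟨δ, hδ, r, hr, g, -, -, H⟩ := open_key he h
  exact mem_of_superset (open_nhds hδ hr) fun x hx => (H x hx).1

theorem psi_cont (he : 1 ≤ e) : ContinuousOn (Psi e) (Dom e) := by
  rintro ⟨c, w⟩ h
  obtain ⟨δ, hδ, r, hr, g, g1, -, H⟩ := open_key he h
  exact ((g1.congr fun x hx => (H x hx).2).continuousAt (open_nhds hδ hr)).continuousWithinAt

theorem psi_diff (he : 1 ≤ e) (h : (c, w) ∈ Dom e) :
    DifferentiableAt ℂ (fun c' => Psi e (c', w)) c := by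
  obtain ⟨δ, hδ, r, hr, g, -, g2, H⟩ := open_key he h
  exact (g2.congr fun a ha => (H (a, w) ⟨ha, hr⟩).2).differentiableAt (ball_mem_nhds c hδ)

end Pool.Agent.MP_28f8a1_an.Mlc
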