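import Pool.Agent.MP_28f8a1_an.Wk.Psi

/-! Bounds for the parameter Boettcher map. -/

set_option autoImplicit false

namespace Pool.Agent.MP_28f8a1_an.Mlc

open MeasureTheory Metric Set Real Filter Topology Pool.Agent.MP_28f8a1_an.H42
open Complex (I)

variable {e n p q N : ℕ} {θ : ℕ → ℝ} {A : Set ℂ} {c w : ℂ} {r r' : ℝ} {ψ ψ' : ℂ → ℂ}

theorem dom_diffw (he : 1 ≤ e) (h : (c, w) ∈ Dom e) :
    DifferentiableAt ℂ (fun v => Psi e (c, v)) w := by
  obtain ⟨r, ψ, h1, h2⟩ := h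
  have h3 : {v : ℂ | r < ‖v‖} ∈ 𝓝 w := (isOpen_lt continuous_const continuous_norm).mem_nhds h2
  exact (h1.diff.congr fun v hv => h1.psi he hv).differentiableAt h3

theorem dom_bound (he : 1 ≤ e) (h : (c, w) ∈ Dom e) :
    ‖Psi e (c, w)‖ ≤ 6 / 5 * ‖w‖ ∨ ‖Psi e (c, w)‖ ≤ 10 * (√‖c‖ + 1) :=
  Semi.bound (D := {v | (c, v) ∈ Dom e}) (g := fun v => Psi e (c, v)) he
    ⟨fun _ hv => (dom_diffw he hv).continuousAt.continuousWithinAt, fun _ hv => dom_ne he hv,
      fun _ hv => (dom_semi he hv).2, 0, fun _ _ _ => rfl⟩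
    (fun _ hv => (dom_semi he hv).1) h (dom_one h)

theorem hit_norm (he : 1 ≤ e) (h : Hit e c w) : ‖c‖ ≤ 6 / 5 * ‖w‖ ∨ ‖c‖ ≤ 121 := by
  have h1 := dom_bound he h.1
  rw [h.2] at h1
  refine h1.imp id fun h2 => ?_
  have h3 := Real.sq_sqrt (norm_nonneg c)
  have h4 := Real.sqrt_nonneg ‖c‖
  have h5 : √‖c‖ ≤ 11 := by nlinarith
  nlinarith

theorem hit_bdd (he : 1 ≤ e) (s : ℝ) : ∃ B : ℝ, ∀ c w : ℂ, Hit e c w → ‖w‖ ≤ s → ‖c‖ ≤ B :=
  ⟨max (6 / 5 * s) 121, fun _ _ h hs => (hit_norm he h).elim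
    (fun h1 => le_max_of_le_left (by linarith)) le_max_of_le_right⟩

theorem psi_schwarz (he : 1 ≤ e) {t B : ℝ} (ht : 0 < t)
    (hD : ∀ v : ℂ, t < ‖v‖ → (c, v) ∈ Dom e)
    (hB : ∀ v : ℂ, t < ‖v‖ → ‖Psi e (c, v) / v - 1‖ ≤ B) (hw : t < ‖w‖) :
    ‖Psi e (c, w) / w - 1‖ ≤ B * t / ‖w‖ := by
  have hw0 : w ≠ 0 := norm_pos_iff.1 (ht.trans hw)
  have hB0 : 0 ≤ B := (norm_nonneg _).trans (hB w hw)
  set F : ℂ → ℂ := Function.update (fun u => Psi e (c, u⁻¹) / u⁻¹) 0 1 with hF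
  have key : ∀ u ∈ ball (0 : ℂ) t⁻¹, u ≠ 0 → t < ‖u⁻¹‖ := fun u hu h0 => by
    rw [norm_inv]
    exact lt_inv_of_lt_inv₀ (norm_pos_iff.2 h0) (mem_ball_zero_iff.1 hu)
  have hd : DifferentiableOn ℂ F (ball 0 t⁻¹) := by
    refine (Complex.differentiableOn_compl_singleton_and_continuousAt_iff
      (ball_mem_nhds 0 (inv_pos.2 ht))).1 ⟨?_, continuousAt_update_same.2
        ((psi_asy he c).comp tendsto_inv₀_nhdsNE_zero)⟩
    refine DifferentiableOn.congr (f := fun u => Psi e (c, u⁻¹) / u⁻¹) (fun u hu => ?_)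
      fun u hu => Function.update_of_ne hu.2 _ _
    have h1 : DifferentiableAt ℂ (fun u : ℂ => u⁻¹) u := differentiableAt_inv hu.2
    exact ((DifferentiableAt.comp (f := fun u : ℂ => u⁻¹) u
      (dom_diffw he (hD _ (key u hu.1 hu.2))) h1).div h1 (inv_ne_zero hu.2)).differentiableWithinAt
  have h0 : F 0 = 1 := Function.update_self ..
  have h2 := Complex.dist_le_div_mul_dist_of_mapsTo_ball (R₂ := B) (z := w⁻¹) hd (fun u hu => by
    rcases eq_or_ne u 0 with rfl | h3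
    · exact mem_closedBall_self hB0
    · rw [h0, hF, Function.update_of_ne h3, mem_closedBall, dist_eq_norm]
      exact hB _ (key u hu h3)) (by
    rw [mem_ball_zero_iff, norm_inv]
    exact (inv_lt_inv₀ (ht.trans hw) ht).2 hw)
  rw [h0, hF, Function.update_of_ne (inv_ne_zero hw0), inv_inv, dist_eq_norm, dist_zero_right,
    norm_inv, div_inv_eq_mul, ← div_eq_mul_inv] at h2
  exact h2

theorem psi_near (he : 1 ≤ e) {ε : ℝ} (hε : 0 < ε) : ∃ s₀ : ℝ, ∀ c w v : ℂ, Hit e c w → s₀ ≤ ‖w‖ →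
    ‖w‖ / 3 ≤ ‖v‖ → (c, v) ∈ Dom e ∧ ‖Psi e (c, v) / v - 1‖ ≤ ε := by
  refine ⟨(11 + 66 / ε) ^ 2, fun c w v h hs hv => ?_⟩
  have h0 : 0 < 66 / ε := by positivity
  obtain ⟨t, h1, h2⟩ : ∃ t : ℝ, 11 + 66 / ε ≤ t ∧ t ^ 2 = ‖w‖ :=
    ⟨√‖w‖, Real.le_sqrt_of_sq_le hs, Real.sq_sqrt (norm_nonneg w)⟩
  have h3 : 11 < t := by linarith
  have hD : ∀ v : ℂ, t < ‖v‖ → (c, v) ∈ Dom e := fun v hv => (h.dom he v).2 (by
    have := pow_le_pow_right₀ (show 1 ≤ ‖v‖ by linarith) (show 2 ≤ e + 1 by omega)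
    nlinarith)
  have h4 : √‖c‖ ≤ 2 * t := Real.sqrt_le_iff.2 ⟨by linarith, by
    rcases hit_norm he h with h5 | h5 <;> nlinarith⟩
  have h5 : t < ‖v‖ := by nlinarith
  refine ⟨hD v h5, (psi_schwarz he (B := 22) (by linarith) hD (fun u hu => ?_) h5).trans ?_⟩
  · have h6 : ‖Psi e (c, u) / u‖ ≤ 21 := by
      rw [norm_div, div_le_iff₀ (by linarith)]
      rcases dom_bound he (hD u hu) with h7 | h7 <;> linarith
    have h7 := norm_sub_le (Psi e (c, u) / u) 1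
    rw [norm_one] at h7
    linarith
  · rw [div_le_iff₀ (by linarith)]
    have h6 : 66 / ε ≤ t := by linarith
    rw [div_le_iff₀ hε] at h6
    nlinarith

end Pool.Agent.MP_28f8a1_an.Mlc

/-! The parameter Boettcher map is holomorphic. -/

set_option autoImplicit false

namespace Pool.Agent.MP_28f8a1_an.Mlc

open MeasureTheory Metric Set Real Filter Topology Pool.Agent.MP_28f8a1_an.H42
open Complex (I)

variable {e n p q N : ℕ} {θ : ℕ → ℝ} {A : Set ℂ} {c w : ℂ} {r r' : ℝ} {ψ ψ' : ℂ → ℂ}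

theorem phi_iter (he : 1 ≤ e) (h : (c, w) ∈ Dom e) (k : ℕ) : (c, w ^ (e + 1) ^ k) ∈ Dom e ∧
    Psi e (c, w ^ (e + 1) ^ k) = (fq e c)^[k] (Psi e (c, w)) := by
  induction k with
  | zero => simpa using h
  | succ k ih =>
    rw [pow_succ, pow_mul, Function.iterate_succ_apply', ← ih.2]
    exact dom_semi he ih.1

theorem phi_orb (k : ℕ) : Differentiable ℂ fun c : ℂ => (fq e c)^[k] c := by
  induction k with
  | zero => simp
  | succ k ih =>
    simp only [Function.iterate_succ_apply', fq]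
    exact (ih.pow _).add differentiable_id

theorem phi_log {U : Set ℂ} (hU : IsOpen U) {g F : ℂ → ℂ} (hg : ContinuousOn g U)
    (hF : Differentiable ℂ F) (h : ∀ c ∈ U, Complex.exp (g c) = F c) :
    DifferentiableOn ℂ g U := by
  intro a ha
  have h0 : F a ≠ 0 := h a ha ▸ Complex.exp_ne_zero _
  have h1 : DifferentiableAt ℂ (fun c => g a + Complex.log (F c / F a)) a :=
    (((hF a).div_const _).clog (by rw [div_self h0]; exact Complex.one_mem_slitPlane)).const_add _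
  refine (h1.congr_of_eventuallyEq ?_).differentiableWithinAt
  have h2 := (hg.continuousAt (hU.mem_nhds ha)).eventually (ball_mem_nhds (g a) one_pos)
  filter_upwards [h2, hU.mem_nhds ha] with c h3 h4
  have h5 : |(g c - g a).im| < 1 := (Complex.abs_im_le_norm _).trans_lt (mem_ball_iff_norm.1 h3)
  rw [abs_lt] at h5
  rw [← h c h4, ← h a ha, ← Complex.exp_sub,
    Complex.log_exp (by linarith [pi_gt_three]) (by linarith [pi_gt_three])]
  ring

theorem phi_hit_near (he : 1 ≤ e) (h : Hit e c w) {δ : ℝ} (hδ : 0 < δ) :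
    ∀ᶠ a in 𝓝 c, ∃ v, ‖v - w‖ < δ ∧ Hit e a v := by
  obtain ⟨t, ht, hb⟩ : ∃ t > 0, t < δ ∧ ∀ v ∈ closedBall w t, (c, v) ∈ Dom e := by
    have h1 : ∀ᶠ v in 𝓝 w, (c, v) ∈ Dom e :=
      (Continuous.prodMk_right c).continuousAt.eventually ((dom_open he).mem_nhds h.1)
    obtain ⟨t, ht, h2⟩ := nhds_basis_closedBall.eventually_iff.1 h1
    exact ⟨min t (δ / 2), by positivity, (min_le_right _ _).trans_lt (by linarith),
      fun v hv => h2 (closedBall_subset_closedBall (min_le_left _ _) hv)⟩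
  have hG : ∀ x ∈ Dom e, ContinuousAt (fun x : ℂ × ℂ => ‖Psi e x - x.1‖) x := fun x hx =>
    (((psi_cont he).continuousAt ((dom_open he).mem_nhds hx)).sub continuousAt_fst).norm
  obtain ⟨v₀, hv₀, hm⟩ := (isCompact_sphere w t).exists_isMinOn
    (f := fun v => ‖Psi e (c, v) - c‖) (NormedSpace.sphere_nonempty.2 ht.le) fun v hv =>
      ((hG _ (hb.2 v (sphere_subset_closedBall hv))).comp
        (Continuous.prodMk_right c).continuousAt).continuousWithinAt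
  set m := ‖Psi e (c, v₀) - c‖ with hm0
  have hm1 : 0 < m := by
    refine norm_pos_iff.2 (sub_ne_zero.2 fun h1 => ?_)
    have h2 := dom_inj he (hb.2 v₀ (sphere_subset_closedBall hv₀)) h.1 (h1.trans h.2.symm)
    rw [h2, mem_sphere, dist_self] at hv₀
    exact ht.ne hv₀
  have e1 : ∀ᶠ a in 𝓝 c, ∀ v ∈ closedBall w t, (a, v) ∈ Dom e :=
    (isCompact_closedBall w t).eventually_forall_of_forall_eventually fun v hv =>
      (dom_open he).mem_nhds (hb.2 v hv)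
  have e2 : ∀ᶠ a in 𝓝 c, ∀ v ∈ sphere w t, m / 2 < ‖Psi e (a, v) - a‖ :=
    (isCompact_sphere w t).eventually_forall_of_forall_eventually fun v hv =>
      (hG _ (hb.2 v (sphere_subset_closedBall hv))).eventually
        (lt_mem_nhds ((half_lt_self hm1).trans_le (hm hv)))
  have e3 : ∀ᶠ a in 𝓝 c, ‖Psi e (a, w) - a‖ < m / 2 :=
    ((hG _ h.1).comp (f := fun a => (a, w)) (Continuous.prodMk_left w).continuousAt).eventually
      (gt_mem_nhds (by simpa [h.2] using hm1))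
  filter_upwards [e1, e2, e3] with a h1 h2 h3
  by_contra h4
  have h5 : ∀ v ∈ closedBall w t, Psi e (a, v) - a ≠ 0 := fun v hv h6 =>
    h4 ⟨v, (mem_closedBall_iff_norm.1 hv).trans_lt hb.1, h1 v hv, sub_eq_zero.1 h6⟩
  have h6 : DifferentiableOn ℂ (fun v => (Psi e (a, v) - a)⁻¹) (closure (ball w t)) := by
    rw [closure_ball w ht.ne']
    exact fun v hv => (((dom_diffw he (h1 v hv)).sub_const a).inv (h5 v hv)).differentiableWithinAt
  have h7 := Complex.norm_le_of_forall_mem_frontier_norm_le isBounded_ball h6.diffContOnCl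
    (C := (m / 2)⁻¹) (fun v hv => by
      rw [frontier_ball w ht.ne'] at hv
      rw [norm_inv]
      exact inv_anti₀ (by positivity) (h2 v hv).le) (subset_closure (mem_ball_self ht))
  rw [norm_inv, inv_le_inv₀ (norm_pos_iff.2 (h5 w (mem_closedBall_self ht.le)))
    (by positivity)] at h7
  linarith

theorem phi_contAt (he : 1 ≤ e) (h : Hit e c w) : ContinuousAt (Phi e) c := by
  refine Metric.tendsto_nhds.2 fun δ hδ => (phi_hit_near he h hδ).mono fun a ⟨v, h1, h2⟩ => ?_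
  rwa [h2.phi he, h.phi he, dist_eq_norm]

theorem phi_diff (he : 1 ≤ e) : DifferentiableOn ℂ (Phi e) (Mset e)ᶜ := by
  intro c hc
  have h := hit_phi he hc
  set w := Phi e c
  have h1 : 1 < ‖w‖ := dom_one h.1
  have h0 : w ≠ 0 := norm_pos_iff.1 (by linarith)
  obtain ⟨η, hη, hU⟩ := nhds_basis_ball.eventually_iff.1
    ((phi_hit_near he h (δ := (‖w‖ - 1) / 2) (by linarith)).and (ball_mem_nhds c one_pos))
  have u1 : ∀ a ∈ ball c η, Hit e a (Phi e a) ∧ ‖Phi e a - w‖ < (‖w‖ - 1) / 2 := fun a ha => by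
    obtain ⟨v, h2, h3⟩ := (hU ha).1
    rw [h3.phi he]
    exact ⟨h3, h2⟩
  have u2 : ∀ a ∈ ball c η, (‖w‖ + 1) / 2 ≤ ‖Phi e a‖ := fun a ha => by
    linarith [norm_sub_norm_le w (Phi e a), norm_sub_rev w (Phi e a), (u1 a ha).2]
  have u0 : ∀ a ∈ ball c η, Phi e a ≠ 0 := fun a ha => norm_pos_iff.1 (by linarith [u2 a ha])
  have u3 : ContinuousOn (Phi e) (ball c η) := fun a ha =>
    (phi_contAt he (u1 a ha).1).continuousWithinAt
  have u4 : ContinuousOn (fun a => Complex.log (Phi e a / w)) (ball c η) :=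
    (u3.div_const w).clog fun a ha => by
      have h2 : ‖Phi e a / w - 1‖ < 1 := by
        rw [div_sub_one h0, norm_div, div_lt_one (by linarith)]
        linarith [(u1 a ha).2]
      simpa using Complex.mem_slitPlane_of_norm_lt_one h2
  have t0 : Tendsto (fun k : ℕ => (e + 1) ^ k) atTop atTop :=
    tendsto_pow_atTop_atTop_of_one_lt (by omega)
  have u5 : ∀ᶠ k : ℕ in atTop, ∀ a ∈ ball c η,
      ‖(fq e a)^[k] a / Phi e a ^ (e + 1) ^ k - 1‖ ≤ 1 / 8 := by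
    have t1 := (tendsto_pow_atTop_atTop_of_one_lt (show 1 < (‖w‖ + 1) / 2 by linarith)).comp t0
    filter_upwards [t1.eventually_gt_atTop (8 * (‖c‖ + 2))] with k hk a ha
    have h2 := (phi_iter he (u1 a ha).1.1 k).2
    rw [(u1 a ha).1.2] at h2
    rw [← h2]
    refine far_near he ?_
    have h3 := pow_le_pow_left₀ (by positivity) (u2 a ha) ((e + 1) ^ k)
    have h4 : ‖a - c‖ < 1 := mem_ball_iff_norm.1 (hU ha).2
    rw [norm_pow, TT]
    simp only [Function.comp] at hk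
    linarith [norm_sub_norm_le a c]
  have u6 : DifferentiableOn ℂ (fun a => Complex.log (Phi e a / w)) (ball c η) := by
    refine TendstoLocallyUniformlyOn.differentiableOn (φ := atTop)
      (F := fun (k : ℕ) a => ((((e + 1) ^ k : ℕ) : ℂ) * Complex.log (Phi e a / w) +
        Complex.log ((fq e a)^[k] a / Phi e a ^ (e + 1) ^ k)) / ((e + 1) ^ k : ℕ))
      (TendstoUniformlyOn.tendstoLocallyUniformlyOn ?_) ?_ isOpen_ball
    · refine Metric.tendstoUniformlyOn_iff.2 fun ε hε => ?_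
      filter_upwards [u5, (tendsto_natCast_atTop_atTop.comp t0).eventually_gt_atTop (1 / ε)]
        with k h2 h3 a ha
      simp only [Function.comp] at h3
      have h4 : (0 : ℝ) < ((e + 1) ^ k : ℕ) := by positivity
      have h5 : (((e + 1) ^ k : ℕ) : ℂ) ≠ 0 := by exact_mod_cast h4.ne'
      have h6 := Complex.norm_log_one_add_half_le_self ((h2 a ha).trans (by norm_num))
      rw [add_sub_cancel] at h6
      rw [dist_comm, dist_eq_norm, add_div, mul_div_cancel_left₀ _ h5, add_sub_cancel_left,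
        norm_div, Complex.norm_natCast, div_lt_iff₀ h4]
      rw [div_lt_iff₀ hε] at h3
      linarith [h2 a ha]
    · filter_upwards [u5] with k h2
      have h3 : ∀ a ∈ ball c η, (fq e a)^[k] a / Phi e a ^ (e + 1) ^ k ∈ Complex.slitPlane :=
        fun a ha => by
          simpa using Complex.mem_slitPlane_of_norm_lt_one ((h2 a ha).trans_lt (by norm_num))
      refine (phi_log isOpen_ball ?_ ((phi_orb (e := e) k).div_const (w ^ (e + 1) ^ k))
        fun a ha => ?_).div_const _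
      · exact (u4.const_mul _).add (((phi_orb k).continuous.continuousOn.div (u3.pow _)
          fun a ha => pow_ne_zero _ (u0 a ha)).clog h3)
      · have h4 := u0 a ha
        rw [Complex.exp_add, Complex.exp_nat_mul, Complex.exp_log (div_ne_zero h4 h0),
          Complex.exp_log (Complex.slitPlane_ne_zero (h3 a ha)), div_pow]
        field_simp
  have u7 : DifferentiableOn ℂ (Phi e) (ball c η) :=
    (u6.cexp.const_mul w).congr fun a ha => by
      rw [Complex.exp_log (div_ne_zero (u0 a ha) h0), mul_div_cancel₀ _ h0]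
  exact (u7.differentiableAt (ball_mem_nhds c hη)).differentiableWithinAt

end Pool.Agent.MP_28f8a1_an.Mlc

/-! The parameter Boettcher map is a homeomorphism. -/

set_option autoImplicit false

namespace Pool.Agent.MP_28f8a1_an.Mlc

open MeasureTheory Metric Set Real Filter Topology Pool.Agent.MP_28f8a1_an.H42
open Complex (I)

variable {e n p q N : ℕ} {θ : ℕ → ℝ} {A : Set ℂ} {c w : ℂ} {r r' : ℝ} {ψ ψ' : ℂ → ℂ}

theorem gam_le (he : 1 ≤ e) (h : Hit e c w) : ‖w‖ ≤ TT c := by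
  by_contra h1
  have h2 : TT c < ‖w‖ := not_le.1 h1
  have h3 := far_near he h2
  rw [h.2] at h3
  have h4 : 0 < ‖w‖ := one_pos.trans (dom_one h.1)
  have h5 := norm_sub_norm_le (1 : ℂ) (c / w)
  rw [norm_sub_rev, norm_one, norm_div] at h5
  have h6 : 7 / 8 ≤ ‖c‖ / ‖w‖ := by linarith
  rw [le_div_iff₀ h4] at h6
  unfold TT at h2
  linarith [norm_nonneg c]

theorem gam_proper (he : 1 ≤ e) {K : Set ℂ} (hK : IsCompact K) (hD : K ⊆ {w | 1 < ‖w‖}) :
    IsCompact ((Mset e)ᶜ ∩ Phi e ⁻¹' K) := by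
  obtain ⟨s, hs⟩ := hK.isBounded.exists_norm_le
  obtain ⟨B, hB⟩ := hit_bdd he s
  set Z : Set (ℂ × ℂ) := {x | x.2 ∈ K ∧ Hit e x.1 x.2} with hZ
  have hcl : IsClosed Z := by
    refine isClosed_of_closure_subset fun x hx => ?_
    have h1 : x.2 ∈ K :=
      closure_minimal (fun y hy => hy.1) (hK.isClosed.preimage continuous_snd) hx
    have hne : (𝓝[Z] x).NeBot := mem_closure_iff_nhdsWithin_neBot.1 hx
    refine ⟨h1, ?_⟩
    by_cases hM : x.1 ∈ Mset e
    · have h2 : x ∈ Dom e := M_dom he hM (hD h1)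
      have h3 : Tendsto (Psi e) (𝓝[Z] x) (𝓝 (Psi e x)) :=
        ((psi_cont he).continuousAt ((dom_open he).mem_nhds h2)).tendsto.mono_left nhdsWithin_le_nhds
      have h4 : Tendsto (Psi e) (𝓝[Z] x) (𝓝 x.1) := by
        refine (continuous_fst.continuousAt.tendsto.mono_left nhdsWithin_le_nhds).congr' ?_
        filter_upwards [self_mem_nhdsWithin] with y hy
        exact hy.2.2.symm
      exact ⟨h2, tendsto_nhds_unique h3 h4⟩
    · have h2 : ContinuousAt (Phi e) x.1 :=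
        (phi_diff he).continuousOn.continuousAt ((M_closed he).isOpen_compl.mem_nhds hM)
      have h3 : Tendsto (fun y : ℂ × ℂ => Phi e y.1) (𝓝[Z] x) (𝓝 (Phi e x.1)) :=
        (h2.tendsto.comp continuous_fst.continuousAt.tendsto).mono_left nhdsWithin_le_nhds
      have h4 : Tendsto (fun y : ℂ × ℂ => Phi e y.1) (𝓝[Z] x) (𝓝 x.2) := by
        refine (continuous_snd.continuousAt.tendsto.mono_left nhdsWithin_le_nhds).congr' ?_
        filter_upwards [self_mem_nhdsWithin] with y hy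
        exact (hy.2.phi he).symm
      rw [← tendsto_nhds_unique h3 h4]
      exact hit_phi he hM
  have hc : IsCompact Z := ((isCompact_closedBall (0 : ℂ) B).prod hK).of_isClosed_subset hcl
    fun x hx => ⟨mem_closedBall_zero_iff.2 (hB _ _ hx.2 (hs _ hx.1)), hx.1⟩
  have he' : (Mset e)ᶜ ∩ Phi e ⁻¹' K = Prod.fst '' Z := by
    ext a
    constructor
    · rintro ⟨h1, h2⟩
      exact ⟨(a, Phi e a), ⟨h2, hit_phi he h1⟩, rfl⟩
    · rintro ⟨x, hx, rfl⟩
      refine ⟨hx.2.not_mem he, ?_⟩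
      rw [mem_preimage, hx.2.phi he]
      exact hx.1
  rw [he']
  exact hc.image continuous_fst

theorem gam_asy (he : 1 ≤ e) :
    Tendsto (fun c => Phi e c / c) (Bornology.cobounded ℂ) (𝓝 1) := by
  have h : Tendsto (fun c => c / Phi e c) (Bornology.cobounded ℂ) (𝓝 1) := by
    refine Metric.tendsto_nhds.2 fun ε hε => ?_
    obtain ⟨s, hs⟩ := psi_near he (half_pos hε)
    obtain ⟨B, hB⟩ := hit_bdd he s
    filter_upwards [(tendsto_norm_cobounded_atTop (E := ℂ)).eventually_gt_atTop (max B 2)] with c hc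
    have h1 : c ∉ Mset e := fun h => by
      have := M_norm he h
      linarith [le_max_right B 2]
    have h2 := hit_phi he h1
    have h3 : s ≤ ‖Phi e c‖ := by
      by_contra h
      have := hB _ _ h2 (not_le.1 h).le
      linarith [le_max_left B 2]
    have h4 := (hs c _ (Phi e c) h2 h3 (by linarith [norm_nonneg (Phi e c)])).2
    rw [h2.2] at h4
    rw [dist_eq_norm]
    linarith
  simpa using h.inv₀ one_ne_zero

theorem gam_exists (he : 1 ≤ e) : ∃ Γ : ℂ → ℂ, ContinuousOn Γ {w | 1 < ‖w‖} ∧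
    (∀ w : ℂ, 1 < ‖w‖ → Hit e (Γ w) w) ∧ (∀ c w : ℂ, Hit e c w → Γ w = c) ∧
    Tendsto Γ (Bornology.cobounded ℂ) (Bornology.cobounded ℂ) := by
  obtain ⟨Γ, h1, h2, h3⟩ := deg_one (M_closed he).isOpen_compl (phi_diff he)
    (fun c hc => dom_one (hit_phi he hc).1) (fun K hK hD => gam_proper he hK hD)
    (by
      rw [compl_compl]
      exact (isBounded_closedBall (x := (0 : ℂ)) (r := 2)).subset fun c hc =>
        mem_closedBall_zero_iff.2 (M_norm he hc))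
    (gam_asy he) (fun R => ⟨8 * (R + 1), fun c hc h => by
      have := gam_le he (hit_phi he hc)
      unfold TT at this
      linarith⟩)
  have h4 : ∀ w : ℂ, 1 < ‖w‖ → Hit e (Γ w) w := fun w hw => by
    have := hit_phi he (h2 w hw).1
    rwa [(h2 w hw).2] at this
  refine ⟨Γ, h1, h4, fun c w h => ?_, ?_⟩
  · rw [← h.phi he]
    exact h3 c (h.not_mem he)
  · rw [← tendsto_norm_atTop_iff_cobounded]
    refine tendsto_atTop.2 fun b => ?_
    filter_upwards [(tendsto_norm_cobounded_atTop (E := ℂ)).eventually_gt_atTop (max 1 (8 * (b + 1)))]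
      with w hw
    have := gam_le he (h4 w ((le_max_left _ _).trans_lt hw))
    unfold TT at this
    linarith [le_max_right 1 (8 * (b + 1))]

end Pool.Agent.MP_28f8a1_an.Mlc

/-! Dynamical rays for all good parameters. -/

set_option autoImplicit false

namespace Pool.Agent.MP_28f8a1_an.Mlc

open MeasureTheory Metric Set Real Filter Topology Pool.Agent.MP_28f8a1_an.H42
open Complex (I)

variable {e n p q N : ℕ} {θ : ℕ → ℝ} {A : Set ℂ} {c w : ℂ} {r r' : ℝ} {ψ ψ' : ℂ → ℂ}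

theorem Semi.mono {D D' : Set ℂ} {g : ℂ → ℂ} (h : Semi e c D g) (hD : D' ⊆ D) : Semi e c D' g :=
  ⟨h.cont.mono hD, fun w hw => h.ne w (hD hw), fun w hw => h.semi w (hD hw),
    h.far.imp fun _ hR w hw => hR w (hD hw)⟩

theorem ray_mono (h : r ≤ r') : Star A r' ⊆ Star A r := fun _ hw => ⟨h.trans_lt hw.1, hw.2⟩

theorem ray_norm {u : ℂ} (h1 : ‖u‖ = 1) {s : ℝ} (hs : 0 ≤ s) : ‖(s : ℂ) * u‖ = s := by
  rw [norm_mul, h1, mul_one, Complex.norm_real, Real.norm_of_nonneg hs]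

theorem ray_polar (h : 0 < ‖w‖) : (‖w‖ : ℂ) * (w / ‖w‖) = w :=
  mul_div_cancel₀ _ (by exact_mod_cast h.ne')

/-- Two continuous roots agree on a connected set. -/
theorem ray_root {S : Set ℝ} (hS : IsPreconnected S) {f g : ℝ → ℂ} (hf : ContinuousOn f S)
    (hg : ContinuousOn g S) (h0 : ∀ t ∈ S, g t ≠ 0) (h : ∀ t ∈ S, f t ^ (e + 1) = g t ^ (e + 1))
    {x : ℝ} (hx : x ∈ S) (he : f x = g x) : ∀ t ∈ S, f t = g t := by
  classical
  intro t ht
  have hT : {z : ℂ | z ^ (e + 1) = 1}.Finite :=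
    (Polynomial.nthRoots (e + 1) (1 : ℂ)).toFinset.finite_toSet.subset fun z hz => by
      simpa [Polynomial.mem_nthRoots (Nat.succ_pos e)] using hz
  have h1 := hS.constant_of_mapsTo hT.isDiscrete (hf.div hg h0) (fun s hs => by
    change (f s / g s) ^ (e + 1) = 1
    rw [div_pow, h s hs, div_self (pow_ne_zero _ (h0 s hs))]) ht hx
  simp only [Pi.div_apply] at h1
  rw [he, div_self (h0 x hx)] at h1
  exact (div_eq_one_iff_eq (h0 t ht)).1 h1

theorem ray_dir (w : ℂ) (m : ℕ) : w ^ m / (‖w ^ m‖ : ℝ) = (w / (‖w‖ : ℝ)) ^ m := by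
  rw [norm_pow, div_pow]
  push_cast
  rfl

theorem star_pow (he : 1 ≤ e) (hA : Dirs e N A) (hr : 1 ≤ r) (hw : w ∈ Star A r) :
    w ^ (e + 1) ∈ Star A r := by
  refine ⟨hw.1.trans_le ?_, ?_⟩
  · rw [norm_pow]
    exact le_self_pow₀ (hr.trans hw.1.le) (by omega)
  · rw [ray_dir]
    exact hA.pow _ hw.2

theorem ray_large (he : 1 ≤ e) {s : ℝ} (hs : 1 < s) (R : ℝ) : ∃ k : ℕ, R < s ^ (e + 1) ^ k := by
  obtain ⟨k, hk⟩ := pow_unbounded_of_one_lt R hs
  exact ⟨k, hk.trans_le (pow_le_pow_right₀ hs.le (Nat.lt_pow_self (by omega)).le)⟩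

theorem ray_cont (hA : Dirs e N A) {g : ℂ → ℂ} (hr : 0 ≤ r) (h : ContinuousOn g (Star A r)) {u : ℂ}
    (hu : u ∈ A) : ContinuousOn (fun t : ℝ => g (t * u)) (Ioi r) :=
  h.comp (by fun_prop) fun _ ht => star_mem (hA.norm u hu) hu hr ht

theorem ray_uniq (he : 1 ≤ e) (hA : Dirs e N A) {g g' : ℂ → ℂ} (hr : 1 ≤ r)
    (h : Semi e c (Star A r) g) (h' : Semi e c (Star A r) g') (hw : w ∈ Star A r) :
    g w = g' w := by
  obtain ⟨R, hR⟩ := h.far
  obtain ⟨R', hR'⟩ := h'.far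
  have base : ∀ w ∈ Star A r, max R R' < ‖w‖ → g w = g' w := fun w hw h1 =>
    (hR w hw ((le_max_left _ _).trans_lt h1)).trans (hR' w hw ((le_max_right _ _).trans_lt h1)).symm
  have key : ∀ k : ℕ, ∀ w ∈ Star A r, max R R' < ‖w‖ ^ (e + 1) ^ k → g w = g' w := by
    intro k
    induction k with
    | zero => simpa using base
    | succ k ih =>
      intro w hw h1
      have hu := hw.2
      have h2 := hA.norm _ hu
      have h3 : 1 < ‖w‖ := hr.trans_lt hw.1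
      have hs : Ici ‖w‖ ⊆ Ioi r := fun t ht => hw.1.trans_le ht
      have hm : ∀ t ∈ Ici ‖w‖, (t : ℂ) * (w / ‖w‖) ∈ Star A r := fun t ht =>
        star_mem h2 hu (by linarith) (hs ht)
      have h4 := ray_root (e := e) isPreconnected_Ici
        ((ray_cont hA (by linarith) h.cont hu).mono hs)
        ((ray_cont hA (by linarith) h'.cont hu).mono hs) (fun t ht => h'.ne _ (hm t ht))
        (fun t ht => by
          have h5 := ih _ (star_pow he hA hr (hm t ht)) (by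
            rw [norm_pow, ← pow_mul, ← pow_succ', ray_norm h2 (by linarith [mem_Ici.1 ht])]
            exact h1.trans_le (pow_le_pow_left₀ (norm_nonneg _) ht _))
          rw [h.semi _ (hm t ht), h'.semi _ (hm t ht)] at h5
          exact add_right_cancel h5)
        (x := max ‖w‖ (max R R' + 1)) (mem_Ici.2 (le_max_left _ _))
        (base _ (hm _ (mem_Ici.2 (le_max_left _ _))) (by
          rw [ray_norm h2 ((norm_nonneg _).trans (le_max_left _ _))]
          exact (lt_add_one _).trans_le (le_max_right _ _))) ‖w‖ self_mem_Ici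
      simpa only [ray_polar (one_pos.trans h3)] using h4
  obtain ⟨k, hk⟩ := ray_large he (hr.trans_lt hw.1) (max R R')
  exact key k w hw hk

theorem Semi.uniq (he : 1 ≤ e) (hA : Dirs e N A) {g g' : ℂ → ℂ} (hr : 1 ≤ r) (hr' : 1 ≤ r')
    (h : Semi e c (Star A r) g) (h' : Semi e c (Star A r') g') (hw : w ∈ Star A r)
    (hw' : w ∈ Star A r') : g w = g' w := by
  rcases le_total r r' with h1 | h1
  · exact ray_uniq he hA hr' (h.mono (ray_mono h1)) h' hw'
  · exact ray_uniq he hA hr h (h'.mono (ray_mono h1)) hw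

theorem ray_psi (he : 1 ≤ e) (h : BotR e c r ψ) :
    Semi e c (Star A r) fun v => Psi e (c, v) :=
  ⟨(h.diff.continuousOn.mono fun _ hv => hv.1).congr fun _ hv => h.psi he hv.1,
    fun _ hv => dom_ne he ⟨r, ψ, h, hv.1⟩, fun _ hv => (dom_semi he ⟨r, ψ, h, hv.1⟩).2,
    0, fun _ _ _ => rfl⟩

theorem ray_eq (he : 1 ≤ e) (hA : Dirs e N A) {g : ℂ → ℂ} (hr : 1 ≤ r)
    (h : Semi e c (Star A r) g) (hw : w ∈ Star A r) (hd : (c, w) ∈ Dom e) :
    g w = Psi e (c, w) := by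
  obtain ⟨ρ, φ, h1, h2⟩ := hd
  exact h.uniq he hA hr h1.one (ray_psi he h1) hw ⟨h2, hw.2⟩

/-- A ray of a good parameter does not pass through the critical value. -/
theorem ray_ne (he : 1 ≤ e) (hA : Dirs e N A) (hc : c ∈ Good e A) {g : ℂ → ℂ} (hr : 1 ≤ r)
    (h : Semi e c (Star A r) g) (hw : w ∈ Star A r) : g w ≠ c := by
  intro hg
  have h1 : 1 < ‖w‖ := hr.trans_lt hw.1
  have hit : (c, w) ∈ Dom e → Hit e c w := fun hd =>
    ⟨hd, (ray_eq he hA hr h hw hd).symm.trans hg⟩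
  by_cases hM : c ∈ Mset e
  · exact (hit (M_dom he hM h1)).not_mem he hM
  have h0 := hit_phi he hM
  have it : ∀ k : ℕ, w ^ (e + 1) ^ k ∈ Star A r ∧ (c, Phi e c ^ (e + 1) ^ k) ∈ Dom e ∧
      g (w ^ (e + 1) ^ k) = Psi e (c, Phi e c ^ (e + 1) ^ k) := by
    intro k
    induction k with
    | zero => simpa using ⟨hw, h0.1, hg.trans h0.2.symm⟩
    | succ k ih =>
      rw [pow_succ, pow_mul, pow_mul]
      refine ⟨star_pow he hA hr ih.1, (dom_semi he ih.2.1).1, ?_⟩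
      rw [h.semi _ ih.1, (dom_semi he ih.2.1).2, ih.2.2]
  obtain ⟨k, hk⟩ := ray_large he h1 (TT c)
  obtain ⟨φ, hφ⟩ := far_exists he c
  have hd : (c, w ^ (e + 1) ^ k) ∈ Dom e := ⟨_, φ, hφ, by rwa [norm_pow]⟩
  have h2 := dom_inj he hd (it k).2.1 ((ray_eq he hA hr h (it k).1 hd).symm.trans (it k).2.2)
  have h3 : ‖w‖ = ‖Phi e c‖ := by
    have := congrArg norm h2
    rw [norm_pow, norm_pow] at this
    exact (pow_left_inj₀ (norm_nonneg _) (norm_nonneg _) (by positivity)).1 this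
  have h4 := (hit (dom_mono h0.1 h3.ge)).phi he
  rcases hc with hc | hc
  · exact hM hc
  · exact hc (by rw [h4]; exact hw.2)

/-- One more level. -/
theorem ray_step (he : 1 ≤ e) (hA : Dirs e N A) (hc : c ∈ Good e A) {g : ℂ → ℂ} (hr : 1 ≤ r)
    (h : Semi e c (Star A (r ^ (e + 1))) g) : ∃ g', Semi e c (Star A r) g' := by
  have r0 : 0 ≤ r := by linarith
  have r1 : r ≤ r ^ (e + 1) := le_self_pow₀ hr (by omega)
  have r2 : 1 ≤ r ^ (e + 1) := hr.trans r1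
  have up : ∀ v ∈ Star A r, v ^ (e + 1) ∈ Star A (r ^ (e + 1)) := fun v hv =>
    ⟨by rw [norm_pow]; exact pow_lt_pow_left₀ hv.1 r0 (by omega), (star_pow he hA hr hv).2⟩
  have cF : ContinuousOn (fun v => g (v ^ (e + 1)) - c) (Star A r) :=
    (h.cont.comp (by fun_prop) up).sub continuousOn_const
  have nF : ∀ v ∈ Star A r, g (v ^ (e + 1)) - c ≠ 0 := fun v hv =>
    sub_ne_zero.2 (ray_ne he hA hc r2 h (up v hv))
  have ex : ∀ u : ℂ, ∃ γ : ℝ → ℂ, u ∈ A → ContinuousOn γ (Ioi r) ∧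
      (∀ t ∈ Ioi r, γ t ^ (e + 1) = g (((t : ℂ) * u) ^ (e + 1)) - c) ∧
      ∀ t ∈ Ioi (r ^ (e + 1)), γ t = g (t * u) := by
    intro u
    by_cases hu : u ∈ A
    swap
    · exact ⟨0, fun h' => absurd h' hu⟩
    have h1 := hA.norm u hu
    have hm : ∀ t ∈ Ioi r, (t : ℂ) * u ∈ Star A r := fun t ht => star_mem h1 hu r0 ht
    have hm' : ∀ t ∈ Ioi (r ^ (e + 1)), (t : ℂ) * u ∈ Star A (r ^ (e + 1)) := fun t ht =>
      star_mem h1 hu (by linarith) ht
    have sc : IsSimplyConnected (Ioi r) := by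
      have := (convex_Ioi r (𝕜 := ℝ)).contractibleSpace nonempty_Ioi
      exact SimplyConnectedSpace.ofContractible _
    obtain ⟨f, f1, f2⟩ := Complex.exists_continuousOn_pow_eq sc isOpen_Ioi
      (ray_cont hA r0 cF hu) (by
        rintro ⟨t, ht, h2⟩
        exact nF _ (hm t ht) h2) (n := e + 1) (by omega)
    have sub : Ioi (r ^ (e + 1)) ⊆ Ioi r := Ioi_subset_Ioi r1
    have gp : ∀ t ∈ Ioi (r ^ (e + 1)), g (t * u) ^ (e + 1) = f t ^ (e + 1) := fun t ht => by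
      rw [f2, h.semi _ (hm' t ht), fq, add_sub_cancel_right]
    have t0 : r ^ (e + 1) + 1 ∈ Ioi (r ^ (e + 1)) := mem_Ioi.2 (lt_add_one _)
    have f0 : f (r ^ (e + 1) + 1) ≠ 0 := fun h2 => nF _ (hm _ (sub t0)) (by
      rw [← f2, h2, zero_pow (by omega)])
    set κ : ℂ := g (((r ^ (e + 1) + 1 : ℝ) : ℂ) * u) / f (r ^ (e + 1) + 1) with hκ
    have κ1 : κ ^ (e + 1) = 1 := by
      rw [hκ, div_pow, gp _ t0, div_self (pow_ne_zero _ f0)]
    have c1 : ContinuousOn (fun t => κ * f t) (Ioi r) := continuousOn_const.mul f1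
    refine ⟨fun t => κ * f t, fun _ => ⟨c1, fun t _ => by rw [mul_pow, κ1, one_mul, f2], ?_⟩⟩
    refine ray_root (e := e) isPreconnected_Ioi (c1.mono sub)
      (ray_cont hA (by linarith) h.cont hu) (fun t ht => h.ne _ (hm' t ht))
      (fun t ht => by rw [mul_pow, κ1, one_mul, gp t ht]) t0 ?_
    rw [hκ, div_mul_cancel₀ _ f0]
  choose γ hγ using ex
  have pos : ∀ v ∈ Star A r, 0 < ‖v‖ := fun v hv => (one_pos.trans_le hr).trans hv.1
  have p1 : ∀ v ∈ Star A r, γ (v / ‖v‖) ‖v‖ ^ (e + 1) = g (v ^ (e + 1)) - c := fun v hv => by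
    rw [(hγ _ hv.2).2.1 _ hv.1, ray_polar (pos v hv)]
  have p2 : ∀ v ∈ Star A (r ^ (e + 1)), γ (v / ‖v‖) ‖v‖ = g v := fun v hv => by
    rw [(hγ _ hv.2).2.2 _ hv.1, ray_polar (pos v (ray_mono r1 hv))]
  obtain ⟨R, hR⟩ := h.far
  refine ⟨fun v => γ (v / ‖v‖) ‖v‖, fun v hv => ?_, fun v hv h2 => nF v hv ?_, fun v hv => ?_,
    max R (r ^ (e + 1)), fun v hv h2 => ?_⟩
  · have c1 : ContinuousWithinAt (fun x : ℂ => γ (v / ‖v‖) ‖x‖) (Star A r) v :=
      ((hγ _ hv.2).1.comp continuous_norm.continuousOn fun x hx => hx.1) v hv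
    refine c1.congr_of_eventuallyEq ?_ rfl
    have c2 : ContinuousAt (fun x : ℂ => x / (‖x‖ : ℂ)) v :=
      continuousAt_id.div (by fun_prop) (by exact_mod_cast (pos v hv).ne')
    have c3 := c2.eventually ((hA.fin.subset (sdiff_subset (t := {v / (‖v‖ : ℂ)}))).isClosed
      |>.isOpen_compl.mem_nhds (x := v / (‖v‖ : ℂ)) fun h2 => h2.2 rfl)
    filter_upwards [self_mem_nhdsWithin, mem_nhdsWithin_of_mem_nhds c3] with x h2 h3
    have h4 : x / (‖x‖ : ℂ) = v / (‖v‖ : ℂ) := by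
      by_contra h4
      exact h3 ⟨h2.2, h4⟩
    rw [h4]
  · rw [← p1 v hv, h2, zero_pow (by omega)]
  · rw [p2 _ (up v hv), fq, p1 v hv, sub_add_cancel]
  · have h3 : v ∈ Star A (r ^ (e + 1)) := ⟨(le_max_right _ _).trans_lt h2, hv.2⟩
    rw [p2 v h3, hR v h3 ((le_max_left _ _).trans_lt h2)]

theorem ray_level (he : 1 ≤ e) (hA : Dirs e N A) (hc : c ∈ Good e A) (k : ℕ) :
    ∀ r : ℝ, 1 ≤ r → TT c ≤ r ^ (e + 1) ^ k → ∃ g, Semi e c (Star A r) g := by
  induction k with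
  | zero =>
    intro r _ h
    obtain ⟨φ, hφ⟩ := far_exists he c
    exact ⟨_, (ray_psi he hφ).mono (ray_mono (by simpa using h))⟩
  | succ k ih =>
    intro r hr h
    obtain ⟨g, hg⟩ := ih (r ^ (e + 1)) (one_le_pow₀ hr) (by rwa [← pow_mul, ← pow_succ'])
    exact ray_step he hA hc hr hg

theorem ray_exists (he : 1 ≤ e) (hA : Dirs e N A) (hc : c ∈ Good e A) :
    ∃ g, Semi e c (Star A 1) g := by
  have ex : ∀ r : ℝ, ∃ g, 1 < r → Semi e c (Star A r) g := fun r => by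
    by_cases hr : 1 < r
    · obtain ⟨k, hk⟩ := ray_large he hr (TT c)
      exact (ray_level he hA hc k r hr.le hk.le).imp fun _ h _ => h
    · exact ⟨0, fun h => absurd h hr⟩
  choose g hg using ex
  have a1 : ∀ v ∈ Star A 1, 1 < (1 + ‖v‖) / 2 := fun v hv => by linarith [hv.1]
  have a2 : ∀ v ∈ Star A 1, v ∈ Star A ((1 + ‖v‖) / 2) := fun v hv => ⟨by linarith [hv.1], hv.2⟩
  have a3 : ∀ r : ℝ, 1 < r → ∀ v ∈ Star A r, g ((1 + ‖v‖) / 2) v = g r v := fun r hr v hv =>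
    (hg _ (a1 v (ray_mono hr.le hv))).uniq he hA (a1 v (ray_mono hr.le hv)).le hr.le (hg r hr)
      (a2 v (ray_mono hr.le hv)) hv
  obtain ⟨R, hR⟩ := (hg 2 one_lt_two).far
  refine ⟨fun v => g ((1 + ‖v‖) / 2) v, fun v hv => ?_,
    fun v hv => (hg _ (a1 v hv)).ne v (a2 v hv), fun v hv => ?_, max R 2, fun v hv h2 => ?_⟩
  · have hn : Star A ((1 + ‖v‖) / 2) ∈ 𝓝[Star A 1] v := by
      filter_upwards [self_mem_nhdsWithin, mem_nhdsWithin_of_mem_nhds
        ((isOpen_lt continuous_const continuous_norm).mem_nhds (a2 v hv).1)] with x h2 h3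
      exact ⟨h3, h2.2⟩
    refine (((hg _ (a1 v hv)).cont v (a2 v hv)).mono_of_mem_nhdsWithin hn).congr_of_eventuallyEq
      ?_ rfl
    filter_upwards [hn] with x hx
    exact a3 _ (a1 v hv) x hx
  · rw [a3 _ (a1 v hv) _ (star_pow he hA (a1 v hv).le (a2 v hv)),
      (hg _ (a1 v hv)).semi v (a2 v hv)]
  · have h3 : v ∈ Star A 2 := ⟨(le_max_right _ _).trans_lt h2, hv.2⟩
    rw [a3 2 one_lt_two v h3, hR v h3 ((le_max_left _ _).trans_lt h2)]

theorem gam_semi (he : 1 ≤ e) (hA : Dirs e N A) (hc : c ∈ Good e A) :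
    Semi e c (Star A 1) fun w => Gam e A (c, w) :=
  Classical.epsilon_spec (ray_exists he hA hc)

theorem gam_psi (he : 1 ≤ e) (hA : Dirs e N A) (hc : c ∈ Good e A) (hw : w ∈ Star A 1)
    (hd : (c, w) ∈ Dom e) : Gam e A (c, w) = Psi e (c, w) :=
  ray_eq he hA le_rfl (gam_semi he hA hc) hw hd

theorem ray_closed (hA : Dirs e N A) (hr : 0 < r) :
    IsClosed {v : ℂ | r ≤ ‖v‖ ∧ v / ‖v‖ ∈ A} :=
  ContinuousOn.preimage_isClosed_of_isClosed (f := fun v : ℂ => v / (‖v‖ : ℂ))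
    (s := {v : ℂ | r ≤ ‖v‖}) (continuousOn_id.div (by fun_prop) fun v hv => by
      exact_mod_cast (hr.trans_le hv).ne') (isClosed_le continuous_const continuous_norm)
    hA.fin.isClosed

theorem gam_diff (he : 1 ≤ e) (hA : Dirs e N A) (hw : w ∈ Star A 1) :
    DifferentiableOn ℂ (fun c => Gam e A (c, w)) (interior (Good e A)) := by
  intro c hc
  have a1 : 1 < (1 + ‖w‖) / 2 := by linarith [hw.1]
  have a2 : w ∈ Star A ((1 + ‖w‖) / 2) := ⟨by linarith [hw.1], hw.2⟩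
  have s1 : {v : ℂ | (1 + ‖w‖) / 2 ≤ ‖v‖ ∧ v / ‖v‖ ∈ A} ⊆ Star A 1 := fun v hv =>
    ⟨a1.trans_le hv.1, hv.2⟩
  have s2 : Star A ((1 + ‖w‖) / 2) ⊆ {v : ℂ | (1 + ‖w‖) / 2 ≤ ‖v‖ ∧ v / ‖v‖ ∈ A} := fun v hv =>
    ⟨hv.1.le, hv.2⟩
  obtain ⟨δ, hδ, g, -, -, g3, g4, -⟩ := lift he a1 (ray_closed hA (one_pos.trans a1))
    (fun v hv => hv.1) (fun v hv => ⟨hv.1.trans (by
      rw [norm_pow]
      exact le_self_pow₀ (s1 hv).1.le (by omega)), (star_pow he hA le_rfl (s1 hv)).2⟩)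
    ((gam_semi he hA (interior_subset hc)).mono s1)
  refine (((g4 w (s2 a2)).differentiableAt (ball_mem_nhds c hδ)).congr_of_eventuallyEq
    ?_).differentiableWithinAt
  filter_upwards [ball_mem_nhds c hδ, mem_interior_iff_mem_nhds.1 hc] with y h1 h2
  exact (gam_semi he hA h2).uniq he hA le_rfl a1.le ((g3 y h1).mono s2) hw a2

end Pool.Agent.MP_28f8a1_an.Mlc

/-! Stability of landing in a full neighbourhood of the parameter. -/

set_option autoImplicit false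

namespace Pool.Agent.MP_28f8a1_an.Mlc

open MeasureTheory Metric Set Real Filter Topology Pool.Agent.MP_28f8a1_an.H42
open Complex (I)

variable {e n p q N : ℕ} {θ : ℕ → ℝ} {A : Set ℂ} {c w : ℂ} {r r' : ℝ} {ψ ψ' : ℂ → ℂ}

/-- `stab_core` for a path defined on `[r, ∞)` only. -/
theorem s29_core {F : ℂ → ℂ} {γ : ℝ → ℂ} {z : ℂ} {η r0 : ℝ} {D : ℕ} (hD : 2 ≤ D) (hr : 1 < r)
    (hγ : ContinuousOn γ (Ici r)) (hs : ∀ t, r ≤ t → γ (t ^ D) = F (γ t))
    (hexp : ∀ x, ‖x - z‖ = η → η ≤ ‖F x - z‖)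
    (hin : ∀ t ∈ Icc r0 (r0 ^ D), ‖γ t - z‖ < η) (hr0 : 1 < r0) (hrr : r ≤ r0 ^ D) :
    ‖γ r - z‖ < η := by
  by_contra hcon
  have hle : r0 ≤ r0 ^ D := le_self_pow₀ hr0.le (by omega)
  have hc : ContinuousOn (fun t => ‖γ t - z‖) (Icc r (r0 ^ D)) :=
    ((hγ.mono fun t ht => ht.1).sub continuousOn_const).norm
  have hK : IsCompact (Icc r (r0 ^ D) ∩ (fun t => ‖γ t - z‖) ⁻¹' Ici η) :=
    isCompact_Icc.of_isClosed_subset
      (hc.preimage_isClosed_of_isClosed isClosed_Icc isClosed_Ici) inter_subset_left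
  obtain ⟨t, ⟨ht, ht'⟩, hmax⟩ := hK.exists_isGreatest ⟨r, ⟨le_rfl, hrr⟩, not_lt.mp hcon⟩
  have ht1 : 1 < t := hr.trans_le ht.1
  have ht0 : t < r0 := by
    by_contra h
    exact absurd (hin t ⟨not_lt.mp h, ht.2⟩) (not_lt.mpr ht')
  obtain ⟨u, hu, hu'⟩ := intermediate_value_Icc' ht0.le
    (hc.mono (Icc_subset_Icc ht.1 hle))
    (show η ∈ Icc ‖γ r0 - z‖ ‖γ t - z‖ from ⟨(hin r0 ⟨le_rfl, hle⟩).le, ht'⟩)
  have hut : u = t := le_antisymm
    (hmax ⟨⟨ht.1.trans hu.1, hu.2.trans hle⟩, le_of_eq hu'.symm⟩) hu.1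
  subst hut
  have h1 : u < u ^ D := lt_self_pow₀ ht1 (by omega)
  have h2 : u ^ D ≤ r0 ^ D := pow_le_pow_left₀ (by linarith) ht0.le D
  have h3 := hexp _ hu'
  rw [← hs u ht.1] at h3
  exact absurd (hmax ⟨⟨ht.1.trans h1.le, h2⟩, h3⟩) (not_le.mpr h1)

/-- Uniform expansion near a repelling periodic point. -/
theorem s29_loc {z : ℂ} (hfix : (fq e c)^[N] z = z) (hr : 1 < ‖Pd e c z N‖) {ρ : ℝ}
    (hρ : 0 < ρ) : ∃ η : ℝ, 0 < η ∧ η ≤ ρ ∧ ∃ l : ℝ, 1 < l ∧ ∀ᶠ c' in 𝓝 c,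
      (∀ x, ‖x - z‖ = η → η ≤ ‖(fq e c')^[N] x - z‖) ∧ ∀ x y, ‖x - z‖ < η → ‖y - z‖ < η →
        l * ‖x - y‖ ≤ ‖(fq e c')^[N] x - (fq e c')^[N] y‖ := by
  obtain ⟨Q, q1, q2, q3⟩ := div_smooth e N
  obtain ⟨l, hl1, hl2⟩ := exists_between hr
  rw [← q3] at hl2
  obtain ⟨ε, hε, hQ⟩ := Metric.eventually_nhds_iff.mp
    ((q1.continuous.norm.tendsto (c, z, z)).eventually (lt_mem_nhds hl2))
  have hη : 0 < min (ε / 2) ρ := lt_min (by linarith) hρ
  have hη1 : min (ε / 2) ρ < ε := (min_le_left _ _).trans_lt (by linarith)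
  refine ⟨min (ε / 2) ρ, hη, min_le_right _ _, l, hl1, ?_⟩
  generalize min (ε / 2) ρ = η at hη hη1
  have hc : Continuous fun c' : ℂ => ‖(fq e c')^[N] z - z‖ :=
    (((t57_cont N).comp (continuous_id.prodMk continuous_const)).sub continuous_const).norm
  have h0 : ∀ᶠ c' in 𝓝 c, ‖(fq e c')^[N] z - z‖ < (l - 1) * η :=
    (hc.tendsto c).eventually (gt_mem_nhds (by
      rw [hfix, sub_self, norm_zero]; exact mul_pos (by linarith) hη))
  filter_upwards [h0, ball_mem_nhds c hε] with c' h1 h2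
  have key : ∀ x y, ‖x - z‖ < ε → ‖y - z‖ < ε →
      l * ‖x - y‖ ≤ ‖(fq e c')^[N] x - (fq e c')^[N] y‖ := by
    intro x y hx hy
    have h3 : l < ‖Q (c', y, x)‖ := hQ (by
      rw [Prod.dist_eq, Prod.dist_eq]
      exact max_lt h2 (max_lt (by rwa [dist_eq_norm]) (by rwa [dist_eq_norm])))
    rw [q2, norm_mul]
    exact mul_le_mul_of_nonneg_right h3.le (norm_nonneg _)
  refine ⟨fun x hx => ?_, fun x y hx hy => key x y (hx.trans hη1) (hy.trans hη1)⟩
  have h3 := key x z (hx.trans_lt hη1) (by rwa [sub_self, norm_zero])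
  have h4 := norm_sub_le ((fq e c')^[N] x - z) ((fq e c')^[N] z - z)
  rw [sub_sub_sub_cancel_right] at h4
  rw [hx] at h3
  linarith

theorem s29_norm {u : ℂ} (hu : ‖u‖ = 1) {s : ℝ} (hs : 0 ≤ s) : ‖(s : ℂ) * u‖ = s := by
  rw [norm_mul, hu, mul_one, Complex.norm_real, Real.norm_of_nonneg hs]

theorem s29_pow (D : ℕ) (hD : D ≠ 0) : Tendsto (fun s : ℝ => s ^ D) (𝓝[>] 1) (𝓝[>] 1) := by
  refine tendsto_nhdsWithin_iff.mpr ⟨?_, ?_⟩
  · have : Tendsto (fun s : ℝ => s ^ D) (𝓝 1) (𝓝 (1 ^ D)) := (continuous_pow _).tendsto 1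
    rw [one_pow] at this
    exact this.mono_left nhdsWithin_le_nhds
  · filter_upwards [self_mem_nhdsWithin] with s hs
    exact one_lt_pow₀ (mem_Ioi.mp hs) hD

/-- The landing point of a periodic ray is periodic. -/
theorem s29_fix (he : 1 ≤ e) (hψ : Bot e c ψ) {u z : ℂ} (hu : ‖u‖ = 1)
    (hp : u ^ (e + 1) ^ N = u) (hl : Tendsto (fun s : ℝ => ψ (s * u)) (𝓝[>] 1) (𝓝 z)) :
    (fq e c)^[N] z = z := by
  have h1 : Tendsto (fun s : ℝ => ψ ((s ^ (e + 1) ^ N : ℝ) * u)) (𝓝[>] 1) (𝓝 z) :=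
    hl.comp (s29_pow _ (by positivity))
  have h2 : Tendsto (fun s : ℝ => (fq e c)^[N] (ψ (s * u))) (𝓝[>] 1) (𝓝 ((fq e c)^[N] z)) :=
    ((iter_diff N).continuous.tendsto z).comp hl
  refine tendsto_nhds_unique (h2.congr' ?_) h1
  filter_upwards [self_mem_nhdsWithin] with s hs
  have hs1 : 1 < s := hs
  rw [← hψ.iter he N (by rwa [s29_norm hu (by linarith)]), mul_pow, hp, Complex.ofReal_pow]

/-- A periodic critical value is not repelling. -/
theorem s29_ne (he : 1 ≤ e) (hN : 0 < N) (hfix : (fq e c)^[N] c = c) : Pd e c c N = 0 := by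
  obtain ⟨k, rfl⟩ : ∃ k, N = k + 1 := ⟨N - 1, by omega⟩
  rw [Function.iterate_succ_apply', fq, add_eq_right, pow_eq_zero_iff (by omega)] at hfix
  rw [Pd_succ', hfix, zero_pow (by omega), mul_zero, zero_mul]

/-- One fundamental interval of the ray moves continuously. -/
theorem s29_near (he : 1 ≤ e) (hψ : Bot e c ψ) {u z : ℂ} (hu : ‖u‖ = 1) {D : ℕ} (hD : D ≠ 0)
    (hl : Tendsto (fun s : ℝ => ψ (s * u)) (𝓝[>] 1) (𝓝 z)) {η : ℝ} (hη : 0 < η) :
    ∀ᶠ r0 : ℝ in 𝓝[>] 1, ∀ᶠ c' in 𝓝 c, ∀ s ∈ Icc r0 (r0 ^ D),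
      (c', (s : ℂ) * u) ∈ Dom e ∧ ‖Psi e (c', s * u) - z‖ < η := by
  obtain ⟨t, ht, hsub⟩ := mem_nhdsGT_iff_exists_Ioo_subset.mp (Metric.tendsto_nhds.mp hl η hη)
  filter_upwards [(s29_pow D hD).eventually (Ioo_mem_nhdsGT ht), self_mem_nhdsWithin]
    with r0 h0 h1
  have hr1 : 1 < r0 := h1
  refine isCompact_Icc.eventually_forall_of_forall_eventually fun s hs => ?_
  have hs1 : 1 < s := hr1.trans_le hs.1
  have hn : 1 < ‖(s : ℂ) * u‖ := by rwa [s29_norm hu (by linarith)]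
  have hd : (c, (s : ℂ) * u) ∈ Dom e := ⟨1, ψ, hψ.botR, hn⟩
  have hm : Continuous fun x : ℂ × ℝ => (x.1, (x.2 : ℂ) * u) :=
    continuous_fst.prodMk ((Complex.continuous_ofReal.comp continuous_snd).mul continuous_const)
  have ho := (dom_open he).mem_nhds hd
  have hp : ContinuousAt (Psi e) (c, (s : ℂ) * u) := (psi_cont he).continuousAt ho
  have hlt : ‖Psi e (c, (s : ℂ) * u) - z‖ < η := by
    rw [hψ.botR.psi he hn, ← dist_eq_norm]
    exact hsub ⟨hs1, hs.2.trans_lt h0.2⟩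
  exact (hm.tendsto (c, s)).eventually
    (Filter.Eventually.and ho ((hp.sub_const z).norm.eventually (gt_mem_nhds hlt)))

theorem s29_iter (he : 1 ≤ e) (h : (c, w) ∈ Dom e) (k : ℕ) : (c, w ^ (e + 1) ^ k) ∈ Dom e ∧
    Psi e (c, w ^ (e + 1) ^ k) = (fq e c)^[k] (Psi e (c, w)) := by
  induction k with
  | zero => simpa using h
  | succ k ih =>
    have := dom_semi he ih.1
    rw [Function.iterate_succ_apply', ← ih.2, pow_succ, pow_mul]
    exact this

theorem s29_semi (he : 1 ≤ e) (hA : Dirs e N A) {g : ℂ → ℂ} (hg : Semi e c (Star A 1) g)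
    (hw : w ∈ Star A 1) (k : ℕ) : w ^ (e + 1) ^ k ∈ Star A 1 ∧
      g (w ^ (e + 1) ^ k) = (fq e c)^[k] (g w) := by
  induction k with
  | zero => simpa using hw
  | succ k ih =>
    rw [Function.iterate_succ_apply', ← ih.2, pow_succ, pow_mul]
    exact ⟨star_pow he hA le_rfl ih.1, hg.semi _ ih.1⟩

/-- The critical value is not on the ray. -/
theorem s29_good (he : 1 ≤ e) (hN : 0 < N) (hψ : Bot e c ψ) {u z : ℂ} (hu : ‖u‖ = 1)
    (hp : u ^ (e + 1) ^ N = u) (hl : Tendsto (fun s : ℝ => ψ (s * u)) (𝓝[>] 1) (𝓝 z))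
    (hr : 1 < ‖Pd e c z N‖) : ∀ᶠ c' in 𝓝 c, c' ∉ Mset e → Phi e c' / ‖Phi e c'‖ ≠ u := by
  have hD : 2 ≤ (e + 1) ^ N := Nat.one_lt_pow hN.ne' (by omega)
  have hD' : e + 1 ≤ (e + 1) ^ N := Nat.le_self_pow hN.ne' _
  have hfix := s29_fix he hψ hu hp hl
  have hne : c ≠ z := by
    rintro rfl
    rw [s29_ne he hN hfix, norm_zero] at hr
    linarith
  have hρ : 0 < ‖c - z‖ / 2 := half_pos (norm_pos_iff.2 (sub_ne_zero.2 hne))
  obtain ⟨η, hη, hηρ, l, -, H⟩ := s29_loc hfix hr hρ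
  obtain ⟨r0, h0, h1⟩ := ((s29_near he hψ hu (D := (e + 1) ^ N) (by omega) hl hη).and
    self_mem_nhdsWithin).exists
  have hr1 : 1 < r0 := h1
  filter_upwards [H, h0, ball_mem_nhds c hρ] with c' a1 a2 a3 hc' hw
  have hh := hit_phi he hc'
  generalize Phi e c' = v at hw hh
  have hv : 1 < ‖v‖ := dom_one hh.1
  have hv0 : ((‖v‖ : ℝ) : ℂ) ≠ 0 := by exact_mod_cast (show ‖v‖ ≠ 0 by linarith)
  have hvu : ((‖v‖ : ℝ) : ℂ) * u = v := by rw [← hw, mul_div_cancel₀ _ hv0]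
  have hdom : ∀ t : ℝ, ‖v‖ ≤ t → (c', (t : ℂ) * u) ∈ Dom e := fun t ht =>
    dom_mono hh.1 (by rwa [s29_norm hu (by linarith)])
  have hle : r0 ≤ r0 ^ (e + 1) ^ N := le_self_pow₀ hr1.le (by omega)
  have hlt := (hh.dom he _).1 (a2 r0 ⟨le_rfl, hle⟩).1
  rw [s29_norm hu (by linarith)] at hlt
  have hin := s29_core (F := (fq e c')^[N]) (γ := fun t : ℝ => Psi e (c', (t : ℂ) * u))
    (z := z) (η := η) (r0 := r0) hD hv
    ((psi_cont he).comp (continuous_const.prodMk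
      (Complex.continuous_ofReal.mul continuous_const)).continuousOn fun t ht => hdom t ht)
    (fun t ht => by
      rw [← (s29_iter he (hdom t ht) N).2, mul_pow, hp, Complex.ofReal_pow])
    a1.1 (fun t ht => (a2 t ht).2) hr1 (hlt.le.trans (pow_le_pow_right₀ hr1.le hD'))
  rw [hvu, hh.2] at hin
  rw [mem_ball, dist_eq_norm] at a3
  have h4 := norm_sub_le (c' - z) (c' - c)
  rw [sub_sub_sub_cancel_left] at h4
  linarith

/-- A ray of a good parameter stays near the old landing point. -/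
theorem s29_stay (he : 1 ≤ e) (hA : Dirs e N A) (hN : 0 < N) (hc : c ∈ Good e A) {u z : ℂ}
    (hu : u ∈ A) {η r0 : ℝ} (hr0 : 1 < r0) (h1 : ∀ x, ‖x - z‖ = η → η ≤ ‖(fq e c)^[N] x - z‖)
    (h2 : ∀ s ∈ Icc r0 (r0 ^ (e + 1) ^ N),
      (c, (s : ℂ) * u) ∈ Dom e ∧ ‖Psi e (c, s * u) - z‖ < η) {s : ℝ} (hs : 1 < s) :
    Gam e A (c, ((s ^ (e + 1) ^ N : ℝ) : ℂ) * u) = (fq e c)^[N] (Gam e A (c, s * u)) ∧
      (s ≤ r0 → ‖Gam e A (c, s * u) - z‖ < η) := by
  have hD : 2 ≤ (e + 1) ^ N := Nat.one_lt_pow hN.ne' (by omega)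
  have hg := gam_semi he hA hc
  have hm : ∀ t : ℝ, 1 < t → (t : ℂ) * u ∈ Star A 1 := fun t ht =>
    star_mem (hA.norm u hu) hu zero_le_one ht
  have hse : ∀ t : ℝ, 1 < t →
      Gam e A (c, ((t ^ (e + 1) ^ N : ℝ) : ℂ) * u) = (fq e c)^[N] (Gam e A (c, t * u)) := by
    intro t ht
    rw [← (s29_semi he hA hg (hm t ht) N).2, mul_pow, hA.per u hu, Complex.ofReal_pow]
  refine ⟨hse s hs, fun h => ?_⟩
  exact stab_core (F := (fq e c)^[N]) (γ := fun t : ℝ => Gam e A (c, (t : ℂ) * u)) hD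
    (hg.cont.comp (Complex.continuous_ofReal.mul continuous_const).continuousOn
      fun t ht => hm t ht) hse h1
    (fun t ht => by
      rw [gam_psi he hA hc (hm t (hr0.trans_le ht.1)) (h2 t ht).1]
      exact (h2 t ht).2) s hs h

/-- A bounded quantity that expands under `s ↦ s ^ D` tends to zero. -/
theorem s29_zero {h : ℝ → ℝ} {D : ℕ} (hD : D ≠ 0) {l B r0 : ℝ} (hl : 1 < l) (hr0 : 1 < r0)
    (h0 : ∀ s, 0 ≤ h s) (hB : ∀ s, 1 < s → s ≤ r0 → h s ≤ B)
    (hs : ∀ s, 1 < s → s ≤ r0 → l * h s ≤ h (s ^ D)) : Tendsto h (𝓝[>] 1) (𝓝 0) := by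
  have key : ∀ k : ℕ, ∀ s, 1 < s → s ^ D ^ k ≤ r0 → h s ≤ B * l⁻¹ ^ k := by
    intro k
    induction k with
    | zero => intro s h1 h2; simpa using hB s h1 (by simpa using h2)
    | succ k ih =>
      intro s h1 h2
      have a1 := ih (s ^ D) (one_lt_pow₀ h1 hD) (by rwa [← pow_mul, ← pow_succ'])
      have a2 := hs s h1 ((le_self_pow₀ h1.le (by positivity)).trans h2)
      rw [pow_succ, ← mul_assoc, ← div_eq_mul_inv, le_div_iff₀ (by linarith)]
      linarith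
  have hlim : Tendsto (fun k : ℕ => B * l⁻¹ ^ k) atTop (𝓝 (B * 0)) :=
    (tendsto_pow_atTop_nhds_zero_of_lt_one (by positivity) (inv_lt_one_of_one_lt₀ hl)).const_mul B
  rw [mul_zero] at hlim
  refine tendsto_order.2 ⟨fun a ha => Eventually.of_forall fun s => ha.trans_le (h0 s),
    fun a ha => ?_⟩
  obtain ⟨k, hk⟩ := (hlim.eventually (gt_mem_nhds ha)).exists
  filter_upwards [(s29_pow (D ^ k) (by positivity)).eventually (Ioo_mem_nhdsGT hr0),
    self_mem_nhdsWithin] with s h1 h2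
  exact (key k s h2 h1.2.le).trans_lt hk

theorem stab_good (he : 1 ≤ e) (hA : Dirs e N A) (hN : 0 < N) (hψ : Bot e c ψ) {z : ℂ → ℂ}
    (hl : ∀ u ∈ A, Tendsto (fun s : ℝ => ψ (s * u)) (𝓝[>] 1) (𝓝 (z u)))
    (hr : ∀ u ∈ A, 1 < ‖Pd e c (z u) N‖) :
    c ∈ interior (Good e A) ∧ ∀ u ∈ A, ∀ u' ∈ A, z u = z u' → ∀ᶠ c' in 𝓝 c,
      Tendsto (fun s : ℝ => Gam e A (c', s * u) - Gam e A (c', s * u')) (𝓝[>] 1) (𝓝 0) := by
  have hG : ∀ᶠ c' in 𝓝 c, c' ∈ Good e A := by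
    filter_upwards [hA.fin.eventually_all.2 fun u hu =>
      s29_good he hN hψ (hA.norm u hu) (hA.per u hu) (hl u hu) (hr u hu)] with c' h
    by_cases hc : c' ∈ Mset e
    · exact Or.inl hc
    · exact Or.inr fun hm => h _ hm hc rfl
  refine ⟨mem_interior_iff_mem_nhds.2 hG, fun u hu u' hu' hz => ?_⟩
  have hD : (e + 1) ^ N ≠ 0 := by positivity
  obtain ⟨η, hη, -, l, hl1, H⟩ := s29_loc (s29_fix he hψ (hA.norm u hu) (hA.per u hu) (hl u hu))
    (hr u hu) one_pos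
  obtain ⟨r0, h0, h0', h1⟩ := ((s29_near he hψ (hA.norm u hu) hD (hl u hu) hη).and
    ((s29_near he hψ (hA.norm u' hu') hD (hz ▸ hl u' hu') hη).and self_mem_nhdsWithin)).exists
  have hr1 : 1 < r0 := h1
  filter_upwards [hG, H, h0, h0'] with c' a0 a1 a2 a3
  have b := fun s : ℝ => s29_stay (s := s) he hA hN a0 hu hr1 a1.1 a2
  have b' := fun s : ℝ => s29_stay (s := s) he hA hN a0 hu' hr1 a1.1 a3
  rw [tendsto_zero_iff_norm_tendsto_zero]
  refine s29_zero (B := η + η) hD hl1 hr1 (fun s => norm_nonneg _) (fun s h2 h3 => ?_)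
    fun s h2 h3 => ?_
  · have h4 := norm_sub_le (Gam e A (c', s * u) - z u) (Gam e A (c', s * u') - z u)
    rw [sub_sub_sub_cancel_right] at h4
    linarith [(b s h2).2 h3, (b' s h2).2 h3]
  · rw [(b s h2).1, (b' s h2).1]
    exact a1.2 _ _ ((b s h2).2 h3) ((b' s h2).2 h3)

end Pool.Agent.MP_28f8a1_an.Mlc

/-! Periodic parameter rays land. -/

set_option autoImplicit false

namespace Pool.Agent.MP_28f8a1_an.Mlc

open MeasureTheory Metric Set Real Filter Topology Pool.Agent.MP_28f8a1_an.H42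
open Complex (I)

variable {e n p q N : ℕ} {θ : ℕ → ℝ} {A : Set ℂ} {c w : ℂ} {r r' : ℝ} {ψ ψ' : ℂ → ℂ}

/-- A periodic unit vector has a periodic angle. -/
theorem pl31_angle {u : ℂ} {D : ℕ} (h1 : ‖u‖ = 1) (h2 : u ^ D = u) :
    ∃ (t : ℝ) (m : ℤ), (0 ≤ t ∧ t < 1) ∧ (D : ℝ) * t = t + m ∧
      Complex.exp (2 * π * I * t) = u := by
  have hpi : (π : ℂ) ≠ 0 := by exact_mod_cast Real.pi_ne_zero
  have h3 : Complex.exp (2 * π * I * (Int.fract (u.arg / (2 * π)) : ℝ)) = u := by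
    rw [Int.fract, show (2 * π * I * ((u.arg / (2 * π) - (⌊u.arg / (2 * π)⌋ : ℤ) : ℝ) : ℂ) : ℂ) =
      u.arg * I + ((-⌊u.arg / (2 * π)⌋ : ℤ) : ℂ) * (2 * π * I) by
        push_cast
        field_simp
        ring, Complex.exp_add, Complex.exp_int_mul_two_pi_mul_I, mul_one]
    have h4 := Complex.norm_mul_exp_arg_mul_I u
    rwa [h1, Complex.ofReal_one, one_mul] at h4
  obtain ⟨t, ht⟩ : ∃ t, t = Int.fract (u.arg / (2 * π)) := ⟨_, rfl⟩
  rw [← ht] at h3
  have h5 : Complex.exp (D * (2 * π * I * t)) = Complex.exp (2 * π * I * t) := by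
    rw [Complex.exp_nat_mul, h3, h2]
  obtain ⟨m, hm⟩ := Complex.exp_eq_exp_iff_exists_int.1 h5
  refine ⟨t, m, ⟨ht ▸ Int.fract_nonneg _, ht ▸ Int.fract_lt_one _⟩, ?_, h3⟩
  have h6 : (D : ℂ) * t = t + m :=
    mul_left_cancel₀ Complex.two_pi_I_ne_zero (by linear_combination hm)
  exact_mod_cast h6

theorem bad_par (he : 1 ≤ e) (hA : Dirs e N A) (hN : 0 < N) (hc : c ∈ Mset e)
    (h : c ∉ interior (Good e A)) : ∃ z, (fq e c)^[N] z = z ∧ Pd e c z N = 1 := by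
  by_contra hE
  push Not at hE
  obtain ⟨ψ, hψ⟩ := bot_exists he hc
  have H : ∀ u ∈ A, ∃ z, Tendsto (fun s : ℝ => ψ (s * u)) (𝓝[>] 1) (𝓝 z) ∧
      1 < ‖Pd e c z N‖ := by
    intro u hu
    obtain ⟨t, m, ht, hm, rfl⟩ := pl31_angle (hA.norm u hu) (hA.per u hu)
    rw [Nat.cast_pow] at hm
    obtain ⟨z, z1, z2⟩ := ray_land he (M_norm he hc) hψ hN hm
    exact ⟨z, z2, land_rep he hψ hN ht hm z1 z2 (hE z z1)⟩
  choose! z z1 z2 using H
  exact h (stab_good he hA hN hψ z1 z2).1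

/-- A bounded path with finitely many cluster points converges. -/
theorem pl31_path {γ : ℝ → ℂ} {B : ℝ} {E : Set ℂ} (hE : E.Finite) (hγ : ContinuousOn γ (Ioi 1))
    (hb : ∀ᶠ r in 𝓝[>] (1 : ℝ), ‖γ r‖ ≤ B)
    (hc : ∀ a, MapClusterPt a (𝓝[>] (1 : ℝ)) γ → a ∈ E) : ∃ a, Tendsto γ (𝓝[>] 1) (𝓝 a) := by
  have hG : Continuous fun z : ℂ => ∏ a ∈ hE.toFinset, (z - a) := by fun_prop
  have h0 : ∀ z : ℂ, ∏ a ∈ hE.toFinset, (z - a) = 0 ↔ z ∈ E := by
    intro z
    rw [Finset.prod_eq_zero_iff]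
    exact ⟨fun ⟨a, h1, h2⟩ => sub_eq_zero.1 h2 ▸ hE.mem_toFinset.1 h1,
      fun h => ⟨z, hE.mem_toFinset.2 h, sub_self z⟩⟩
  obtain ⟨a, -, ha⟩ := land_path (F := fun z => z + ∏ a ∈ hE.toFinset, (z - a)) (γ := γ) (B := B)
    (continuous_id.add hG) (hE.subset fun z hz => (h0 z).1 (add_eq_left.1 hz)) hγ hb (by
      simp only [add_sub_cancel_left]
      refine (tendsto_iff_ultrafilter _ _ _).2 fun U hU => ?_
      obtain ⟨a, -, ha⟩ := (isCompact_closedBall (0 : ℂ) B).ultrafilter_le_nhds (U.map γ) (by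
        rw [le_principal_iff]
        exact mem_map.2 (hU (hb.mono fun r hr => mem_closedBall_zero_iff.2 hr)))
      have h1 : Tendsto γ U (𝓝 a) := ha
      have h2 := (hG.tendsto a).comp h1
      rwa [(h0 a).2 (hc a (h1.mapClusterPt.mono hU))] at h2)
  exact ⟨a, ha⟩

theorem par_land (he : 1 ≤ e) (hA : Dirs e N A) (hN : 0 < N) {Γ : ℂ → ℂ}
    (h1 : ContinuousOn Γ {w | 1 < ‖w‖}) (h2 : ∀ w : ℂ, 1 < ‖w‖ → Hit e (Γ w) w) {u : ℂ}
    (hu : u ∈ A) : ∃ a ∈ Mset e, a ∉ interior (Good e A) ∧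
      Tendsto (fun s : ℝ => Γ (s * u)) (𝓝[>] 1) (𝓝 a) := by
  have hs : ∀ s : ℝ, 1 < s → (s : ℂ) * u ∈ Star A 1 := fun s h =>
    star_mem (hA.norm u hu) hu zero_le_one h
  have hcl : ∀ a, MapClusterPt a (𝓝[>] (1 : ℝ)) (fun s : ℝ => Γ (s * u)) →
      a ∈ Mset e ∧ a ∉ interior (Good e A) := by
    intro a ha
    constructor
    · by_contra hM
      have h3 : ContinuousAt (Phi e) a :=
        ((phi_diff he).differentiableAt ((M_closed he).isOpen_compl.mem_nhds hM)).continuousAt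
      have h4 : Tendsto (Phi e ∘ fun s : ℝ => Γ (s * u)) (𝓝[>] 1) (𝓝 u) := by
        have h5 : Tendsto (fun s : ℝ => (s : ℂ) * u) (𝓝[>] 1) (𝓝 (((1 : ℝ) : ℂ) * u)) :=
          ((Complex.continuous_ofReal.mul continuous_const).tendsto 1).mono_left nhdsWithin_le_nhds
        rw [Complex.ofReal_one, one_mul] at h5
        refine h5.congr' ?_
        filter_upwards [self_mem_nhdsWithin] with s h
        exact ((h2 _ (hs s h).1).phi he).symm
      have h6 : Phi e a = u := eq_of_nhds_neBot (ClusterPt.mono (ha.continuousAt_comp h3) h4)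
      have h7 := dom_one (hit_phi he hM).1
      rw [h6, hA.norm u hu] at h7
      exact lt_irrefl _ h7
    · intro hG
      obtain ⟨s, h3, h4⟩ := ((mapClusterPt_iff_frequently.1 ha _
        (mem_interior_iff_mem_nhds.1 hG)).and_eventually self_mem_nhdsWithin).exists
      have h5 := h2 _ (hs s h4).1
      refine h3.elim (h5.not_mem he) fun h6 => h6 ?_
      rw [h5.phi he]
      exact (hs s h4).2
  obtain ⟨B, hB⟩ := hit_bdd he 2
  obtain ⟨a, ha⟩ := pl31_path (γ := fun s : ℝ => Γ (s * u)) (B := B)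
    ((Ec_fin he hN).image Prod.fst)
    (h1.comp (Complex.continuous_ofReal.mul continuous_const).continuousOn fun s h => (hs s h).1)
    (by
      filter_upwards [Ioo_mem_nhdsGT (show (1 : ℝ) < 2 by norm_num)] with s h
      refine hB _ _ (h2 _ (hs s h.1).1) ?_
      rw [norm_mul, hA.norm u hu, mul_one, Complex.norm_real, Real.norm_of_nonneg (by linarith [h.1])]
      exact h.2.le)
    fun a ha => by
      obtain ⟨z, z1, z2⟩ := bad_par he hA hN (hcl a ha).1 (hcl a ha).2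
      have z3 : mu e N (a, z) = 1 := z2
      exact ⟨(a, z), ⟨⟨z1, by rw [z3]; norm_num, Or.inl z3⟩, z3⟩, rfl⟩
  exact ⟨a, (hcl a ha.mapClusterPt).1, (hcl a ha.mapClusterPt).2, ha⟩

end Pool.Agent.MP_28f8a1_an.Mlc
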